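import Pool.Agent.Helper50.CV.Slo

/-! Exact entropy calculus: slopes of the curved lines of a star (curved form of 50b, section 4). -/

set_option autoImplicit false

namespace Pool.Agent.Helper50.CV

open Pool.Agent.Helper31.EC QS Pool.Agent.Helper38.NS Pool.Agent.Helper99.EC

noncomputable section

namespace CB

variable {S : Sp} {d k : ℕ}

theorem _root_.Pool.Agent.Helper50.CV.comp_assoc' {A B D E : Sp} (r : Pj A B) (q : Pj B D) (p : Pj D E) :
    (r.comp q).comp p = r.comp (q.comp p) := rfl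

/-- two lines of a star -/
def star2 (s : CB S d k) {W : Sp} {ι : Type} [Fintype ι] [DecidableEq ι] {p : ι → Pj W S} (hp : IsStar s.fb.fQ p)
    {i j : ι} (hij : i ≠ j) : s.fb.Star where
  D := W
  p1 := p i
  p2 := p j
  cy l := hp.com i j (Sum.inl l.succ)
  cz := hp.com i j (Sum.inr ())
  ct := hp.com i j (Sum.inl 0)
  ci x y := by
    have h1 := hp.I_sup (s := {i}) (t := {j}) (by simpa using hij) i (fun l => if l = i then x else y)
    rw [Finset.sup_singleton, Finset.sup_singleton, if_pos rfl, if_neg hij.symm, s.fb.vd_fQ] at h1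
    exact h1

/-- directions of a star -/
def drs (s : CB S d k) {W : Sp} {ι : Type} (p : ι → Pj W S) (a : ι × Fin d) : QS W := (p a.1).qs (s.x a.2)

theorem vd_drs (s : CB S d k) {W : Sp} {ι : Type} [Fintype ι] (p : ι → Pj W S) :
    vd (s.drs p) 1 = Finset.univ.sup fun i => (p i).map s.fb.iX := by
  apply le_antisymm
  · rw [vd_le]
    intro a
    refine le_trans ?_ (Finset.le_sup (Finset.mem_univ a.1))
    show dg ((p a.1).qs (s.x a.2)) 1 ≤ _
    rw [(p a.1).qs_dg]
    exact (p a.1).map_mono (dg_le_vd s.x 1 a.2)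
  · apply Finset.sup_le
    intro i _
    have h1 : s.fb.iX = vd s.x 1 := rfl
    rw [h1, ← (p i).qs_vd, vd_le]
    intro j
    exact dg_le_vd (s.drs p) 1 (i, j)

theorem drs_ind (s : CB S d k) (hs : s.Hyp) {W : Sp} {ι : Type} [Fintype ι] {p : ι → Pj W S}
    (hp : IsStar s.fb.fQ p) (i0 : ι) : I (vd (s.drs p) 1) ((p i0).map (vd s.fb.fQ 1)) ⊥ = 0 := by
  rw [s.vd_drs p]
  apply hp.I_free i0
  intro i
  rw [s.fb.vd_fQ]
  exact hs.s1

/-- the point is real over the directions -/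
theorem q_rl (s : CB S d k) (hs : s.Hyp) (hq : Rl s.fb.q ⊥) {W : Sp} {ι : Type} [Fintype ι] {p : ι → Pj W S}
    (hp : IsStar s.fb.fQ p) (i0 : ι) : Rl (fun j => (p i0).qs (s.fb.q j)) (vd (s.drs p) 1) := by
  have h1 : I (vd (fun j => (p i0).qs (s.fb.q j)) 1) (vd (s.drs p) 1) ⊥ = 0 := by
    rw [I_comm]
    refine I_zero_mono (s.drs_ind hs hp i0) le_sup_left ?_
    refine le_trans ?_ le_sup_left
    rw [(p i0).qs_vd]
    apply (p i0).map_mono
    rw [vd_le]
    intro j
    exact dg_le_vd s.fb.fQ 1 (Sum.inl j)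
  have h2 := I_zero_iff_h.mp h1
  have h3 := hq.pull (p i0)
  rw [(p i0).map_bot] at h3
  unfold Rl at h3 ⊢
  rw [sup_bot_eq] at h2
  rw [h2]
  exact h3

/-- the frame of a star -/
def mat (s : CB S d k) {W : Sp} (p : Fin (d + 1) → Pj W S) : Matrix (Fin (d + 1)) (Fin (d + 1)) (QS W) :=
  Matrix.of fun i j => (p i).qs (s.fb.v j)

theorem mat_zero (s : CB S d k) {W : Sp} (p : Fin (d + 1) → Pj W S) (i : Fin (d + 1)) : s.mat p i 0 = 1 := by
  show (p i).qs (s.fb.v 0) = 1
  rw [FB.v_zero, map_one]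

theorem mat_le (s : CB S d k) {W : Sp} (p : Fin (d + 1) → Pj W S) (i j : Fin (d + 1)) :
    dg (s.mat p i j) 1 ≤ vd (s.drs p) 1 := by
  induction j using Fin.cases with
  | zero =>
    rw [mat_zero]
    exact (Kn W 1 le_rfl _).one_mem
  | succ j => exact dg_le_vd (s.drs p) 1 (i, j)

theorem line_le (s : CB S d k) {W : Sp} {p : Fin (d + 1) → Pj W S} (hp : IsStar s.fb.fQ p) (i0 j : Fin (d + 1)) :
    (p j).map s.fb.iL ≤ vd (fun l => (p i0).qs (s.fb.q l) - (p i0).qs (s.fb.q 0) * s.mat p j l) 1 ⊔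
      vd (s.drs p) 1 := by
  have hc : ∀ l, (p i0).qs (s.fb.q l) = (p j).qs (s.fb.q l) := fun l => hp.com i0 j (Sum.inl l)
  unfold FB.iL
  rw [(p j).map_sup]
  apply sup_le
  · refine le_trans ?_ le_sup_left
    rw [← (p j).qs_vd, vd_le]
    intro l
    have h1 : (p j).qs (s.fb.a l) = (p i0).qs (s.fb.q l.succ) - (p i0).qs (s.fb.q 0) * s.mat p j l.succ := by
      rw [hc, hc]
      show _ = (p j).qs (s.fb.y l) - (p j).qs s.fb.t * (p j).qs (s.fb.x l)
      unfold FB.y
      rw [map_add, map_mul]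
      ring
    rw [h1]
    exact dg_le_vd (fun l => (p i0).qs (s.fb.q l) - (p i0).qs (s.fb.q 0) * s.mat p j l) 1 l.succ
  · refine le_trans ?_ le_sup_right
    rw [s.vd_drs p]
    exact Finset.le_sup (f := fun i => (p i).map s.fb.iX) (Finset.mem_univ j)

/-- the coefficients of one line along another one -/
def PrQ (s : CB S d k) {W : Sp} {ι : Type} (p : ι → Pj W S) (i j : ι) (V : Sp) (r : Pj V W) : Prop :=
  ∃ Ψ : Fin k → Fin (2 * k + 1) → QS V, (∀ m, vd (Ψ m) 1 ≤ r.map ((p j).map s.fb.iL ⊔ (p i).map s.fb.iX)) ∧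
    ∀ m, r.qs ((p i).qs (s.c m.succ)) = pe (Ψ m) (r.qs ((p i).qs s.t))

theorem PrQ.up {s : CB S d k} {W : Sp} {ι : Type} {p : ι → Pj W S} {i j : ι} {V V' : Sp} {r : Pj V W} (q : Pj V' V)
    (h : s.PrQ p i j V r) : s.PrQ p i j V' (q.comp r) := by
  obtain ⟨Ψ, h1, h2⟩ := h
  refine ⟨fun m n => q.qs (Ψ m n), fun m => ?_, fun m => ?_⟩
  · rw [q.qs_vd, Pj.comp_map]
    exact q.map_mono (h1 m)
  · rw [Pj.comp_qs, Pj.comp_qs, h2 m, pe_map]

theorem exists_prQ (s : CB S d k) (hk : 0 < k) (hs : s.Hyp) {a0 c : ℝ} (hc : 0 < c) (ha : a0 < 1)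
    (hu : UnS s.fb.z (s.fb.iT ⊔ s.fb.iY) a0 c) {W : Sp} {ι : Type} [Fintype ι] [DecidableEq ι] {p : ι → Pj W S}
    (hp : IsStar s.fb.fQ p) {i j : ι} (hij : i ≠ j) (V : Sp) (r : Pj V W) :
    ∃ (V' : Sp) (q : Pj V' V), s.PrQ p i j V' (q.comp r) := by
  rw [sup_comm] at hu
  obtain ⟨E, q, Ψ, h1, h2⟩ := H1C hk s hs hc ha hu (s.star2 (hp.pull r) hij)
  have e1 : ∀ f, (s.star2 (hp.pull r) hij).p1.qs f = r.qs ((p i).qs f) := fun f => Pj.comp_qs _ _ _
  refine ⟨E, q, Ψ, fun m => ?_, fun m => ?_⟩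
  · rw [Pj.comp_map, r.map_sup, ← Pj.comp_map, ← Pj.comp_map]
    exact h1 m
  · have h3 := h2 m
    rw [e1, e1] at h3
    rw [Pj.comp_qs, Pj.comp_qs]
    exact h3

/-- SLOPES ARE POLYNOMIALS: one coefficient of one line on an extension -/
def SlQ (s : CB S d k) {W : Sp} (p : Fin (d + 1) → Pj W S) (i : Fin (d + 1)) (m : Fin k) (V : Sp) (r : Pj V W) :
    Prop :=
  ∃ P : MvPolynomial (Fin (d + 1)) (QS V), P ∈ PK (r.map (vd (s.drs p) 1)) ∧ P.totalDegree ≤ 2 * k * (d + 1) ∧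
    r.qs ((p i).qs (s.c m.succ)) = MvPolynomial.eval (fun j => r.qs ((p 0).qs (s.fb.q j))) P

theorem SlQ.up {s : CB S d k} {W : Sp} {p : Fin (d + 1) → Pj W S} {i : Fin (d + 1)} {m : Fin k} {V V' : Sp}
    {r : Pj V W} (q : Pj V' V) (h : s.SlQ p i m V r) : s.SlQ p i m V' (q.comp r) := by
  obtain ⟨P, h1, h2, h3⟩ := h
  refine ⟨MvPolynomial.map q.qs P, ?_, (totalDegree_map_le _ _).trans h2, ?_⟩
  · rw [Pj.comp_map]
    exact map_PK q h1
  · rw [Pj.comp_qs, h3, qs_eval]
    exact congrArg (fun g => MvPolynomial.eval g _) (funext fun j => (Pj.comp_qs _ _ _).symm)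

theorem exists_slQ (s : CB S d k) (hs : s.Hyp) (hq : Rl s.fb.q ⊥) {W : Sp} {p : Fin (d + 1) → Pj W S}
    (hp : IsStar s.fb.fQ p) (hdet : IsUnit (s.mat p).det) (i : Fin (d + 1)) (m : Fin k) (V : Sp) (r : Pj V W)
    (hr : ∀ j, i ≠ j → s.PrQ p i j V r) : ∃ (V' : Sp) (q : Pj V' V), s.SlQ p i m V' (q.comp r) := by
  have hU : vd (fun a => r.qs (s.drs p a)) 1 = r.map (vd (s.drs p) 1) := r.qs_vd _ _
  have hF : dg ((p i).qs (s.c m.succ)) 1 ≤ (p i).map s.fb.iL := by
    rw [(p i).qs_dg]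
    exact (p i).map_mono (hs.hF m)
  have hl : ∀ j, r.map (vd (fun l => (p 0).qs (s.fb.q l) - (p 0).qs (s.fb.q 0) * s.mat p j l) 1) =
      vd (fun l => r.qs ((p 0).qs (s.fb.q l)) - r.qs ((p 0).qs (s.fb.q 0)) * (s.mat p).map r.qs j l) 1 := by
    intro j
    rw [← r.qs_vd]
    apply vd_congr
    intro l
    rw [map_sub, map_mul]
    rfl
  obtain ⟨E, q, P, h1, h2, h3⟩ := poly_slopeK (K := 2 * k) (fun a => r.qs (s.drs p a)) ((s.mat p).map r.qs)
    (fun i j => by
      rw [Matrix.map_apply, r.qs_dg, hU]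
      exact r.map_mono (s.mat_le p i j))
    (fun i => by rw [Matrix.map_apply, mat_zero, map_one])
    (by
      have h := hdet.map r.qs
      rw [RingHom.map_det] at h
      exact h)
    (fun j => r.qs ((p 0).qs (s.fb.q j)))
    (by
      rw [hU]
      exact (s.q_rl hs hq hp 0).pull r)
    (r.qs ((p i).qs (s.c m.succ)))
    (fun j => by
      have e := r.map_mono (s.line_le hp 0 j)
      rw [r.map_sup, hl j, ← hU] at e
      by_cases hij : i = j
      · subst hij
        have e1 : dg (r.qs ((p i).qs (s.c m.succ))) 1 ≤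
            vd (fun l => r.qs ((p 0).qs (s.fb.q l)) - r.qs ((p 0).qs (s.fb.q 0)) * (s.mat p).map r.qs i l) 1 ⊔
              vd (fun a => r.qs (s.drs p a)) 1 := by
          rw [r.qs_dg]
          exact (r.map_mono hF).trans e
        refine ⟨fun n => if n = 0 then r.qs ((p i).qs (s.c m.succ)) else 0, ?_, ?_⟩
        · unfold pe
          rw [Finset.sum_eq_single 0]
          · beta_reduce
            rw [if_pos rfl, Fin.val_zero, pow_zero, mul_one]
          · intro n _ hn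
            beta_reduce
            rw [if_neg hn, zero_mul]
          · intro h
            exact absurd (Finset.mem_univ _) h
        · rw [vd_le]
          intro n
          show dg (if n = 0 then r.qs ((p i).qs (s.c m.succ)) else 0) 1 ≤ _
          by_cases hn : n = 0
          · rw [if_pos hn]
            exact e1
          · rw [if_neg hn]
            exact (Kn V 1 le_rfl _).zero_mem
      · obtain ⟨Ψ, a1, a2⟩ := hr j hij
        have e1 : r.map ((p j).map s.fb.iL ⊔ (p i).map s.fb.iX) ≤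
            vd (fun l => r.qs ((p 0).qs (s.fb.q l)) - r.qs ((p 0).qs (s.fb.q 0)) * (s.mat p).map r.qs j l) 1 ⊔
              vd (fun a => r.qs (s.drs p a)) 1 := by
          rw [r.map_sup]
          apply sup_le e
          refine le_trans ?_ le_sup_right
          rw [hU, s.vd_drs p]
          exact r.map_mono (Finset.le_sup (f := fun i => (p i).map s.fb.iX) (Finset.mem_univ i))
        refine ⟨Ψ m, ?_, (a1 m).trans e1⟩
        have e3 : (p 0).qs (s.fb.q 0) = (p i).qs s.t := hp.com 0 i (Sum.inl 0)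
        rw [a2 m, e3])
  refine ⟨E, q, P, ?_, h2, ?_⟩
  · rw [Pj.comp_map, ← hU]
    exact h1
  · rw [Pj.comp_qs, h3]
    exact congrArg (fun g => MvPolynomial.eval g _) (funext fun j => (Pj.comp_qs _ _ _).symm)

/-- SLOPES OF CURVED LINES (50b, sections 4 and 7): all coefficients of all lines of a star of `d + 1` lines in
general position are polynomials in the point with coefficients known to the directions -/
theorem slopesK (s : CB S d k) (hs : s.Hyp) (hq : Rl s.fb.q ⊥) {a0 c : ℝ} (hc : 0 < c) (ha : a0 < 1)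
    (hu : UnS s.fb.z (s.fb.iT ⊔ s.fb.iY) a0 c) {W : Sp} {p : Fin (d + 1) → Pj W S}
    (hp : IsStar s.fb.fQ p) (hdet : IsUnit (s.mat p).det) (V : Sp) (r : Pj V W) :
    ∃ (V' : Sp) (q : Pj V' V), ∀ i m, s.SlQ p i m V' (q.comp r) := by
  classical
  rcases Nat.eq_zero_or_pos k with rfl | hk
  · exact ⟨V, Pj.id V, fun i m => m.elim0⟩
  obtain ⟨W1, q1, h1⟩ := ext_all (Finset.univ : Finset (Fin (d + 1) × Fin (d + 1)))
    (fun a V' t => a.1 ≠ a.2 → s.PrQ p a.1 a.2 V' (t.comp r))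
    (fun a V' t V'' t' h hij => by
      rw [comp_assoc']
      exact (h hij).up t')
    (fun a V' t => by
      by_cases hij : a.1 = a.2
      · exact ⟨V', Pj.id V', fun h => absurd hij h⟩
      · obtain ⟨V'', t', h⟩ := s.exists_prQ hk hs hc ha hu hp hij V' (t.comp r)
        exact ⟨V'', t', fun _ => h⟩)
  obtain ⟨W2, q2, h2⟩ := ext_all (Finset.univ : Finset (Fin (d + 1) × Fin k))
    (fun a V' t => s.SlQ p a.1 a.2 V' (t.comp (q1.comp r)))
    (fun a V' t V'' t' h => by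
      rw [comp_assoc']
      exact h.up t')
    (fun a V' t => by
      obtain ⟨V'', t', h⟩ := s.exists_slQ hs hq hp hdet a.1 a.2 V' (t.comp (q1.comp r))
        (fun j hij => (h1 (a.1, j) (Finset.mem_univ _) hij).up t)
      exact ⟨V'', t', h⟩)
  exact ⟨W2, q2.comp q1, fun i m => h2 (i, m) (Finset.mem_univ _)⟩

end CB

end

end Pool.Agent.Helper50.CV
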