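import Mathlib

/-! Equal power sums: the monic polynomials are equal. -/

set_option autoImplicit false

namespace Pool.Agent.Helper50.CV

open Finset MvPolynomial

theorem esymm_eq_of_psum {R : Type*} [CommRing R] {k : ℕ} (hu : ∀ j : ℕ, 0 < j → IsUnit (j : R)) (a b : Fin k → R)
    (h : ∀ j : ℕ, 0 < j → j ≤ k → ∑ l, a l ^ j = ∑ l, b l ^ j) :
    ∀ j : ℕ, j ≤ k → aeval a (esymm (Fin k) ℤ j) = aeval b (esymm (Fin k) ℤ j) := by
  intro j
  induction j using Nat.strong_induction_on with
  | _ j ih =>
    intro hj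
    rcases Nat.eq_zero_or_pos j with rfl | hj0
    · rw [esymm_zero, map_one, map_one]
    · have h1 := congrArg (aeval a) (mul_esymm_eq_sum (Fin k) ℤ j)
      have h2 := congrArg (aeval b) (mul_esymm_eq_sum (Fin k) ℤ j)
      rw [map_mul, map_mul, map_natCast, map_sum] at h1 h2
      have h3 : ∑ x ∈ antidiagonal j with x.1 < j, aeval a ((-1) ^ x.1 * esymm (Fin k) ℤ x.1 * psum (Fin k) ℤ x.2) =
          ∑ x ∈ antidiagonal j with x.1 < j, aeval b ((-1) ^ x.1 * esymm (Fin k) ℤ x.1 * psum (Fin k) ℤ x.2) := by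
        apply Finset.sum_congr rfl
        intro x hx
        rw [Finset.mem_filter, Finset.HasAntidiagonal.mem_antidiagonal] at hx
        have h4 := ih x.1 hx.2 (by omega)
        have h5 := h x.2 (by omega) (by omega)
        have h6 : aeval a (psum (Fin k) ℤ x.2) = aeval b (psum (Fin k) ℤ x.2) := by
          unfold psum
          rw [map_sum, map_sum]
          simp only [map_pow, aeval_X]
          exact h5
        simp only [map_mul, map_pow, map_neg, map_one, h4, h6]
      rw [h3] at h1
      have h7 : ((j : ℕ) : R) * aeval a (esymm (Fin k) ℤ j) = (j : R) * aeval b (esymm (Fin k) ℤ j) := by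
        rw [h1, h2]
        simp only [map_pow, map_neg, map_one]
      exact (hu j hj0).mul_left_cancel h7

theorem prod_eq_of_psum {R : Type*} [CommRing R] {k : ℕ} (hu : ∀ j : ℕ, 0 < j → IsUnit (j : R)) (a b : Fin k → R)
    (h : ∀ j : ℕ, 0 < j → j ≤ k → ∑ l, a l ^ j = ∑ l, b l ^ j) (y : R) : ∏ l, (y - a l) = ∏ l, (y - b l) := by
  have key : ∀ c : Fin k → R, ∏ l, (y - c l) =
      ∑ j ∈ Finset.range (k + 1), (-1) ^ j * (aeval c (esymm (Fin k) ℤ j) * y ^ (k - j)) := by
    intro c
    have h1 := Multiset.prod_X_sub_X_eq_sum_esymm (Finset.univ.val.map c)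
    have h2 := congrArg (Polynomial.eval y) h1
    rw [Multiset.map_map, Multiset.card_map] at h2
    have h3 : (Multiset.map ((fun t => Polynomial.X - Polynomial.C t) ∘ c) Finset.univ.val).prod =
        ∏ l, (Polynomial.X - Polynomial.C (c l)) := rfl
    rw [h3, Polynomial.eval_prod, Polynomial.eval_finsetSum] at h2
    simp only [Polynomial.eval_sub, Polynomial.eval_X, Polynomial.eval_C, Polynomial.eval_mul, Polynomial.eval_pow,
      Polynomial.eval_neg, Polynomial.eval_one] at h2
    rw [h2]
    have h4 : Multiset.card (Finset.univ : Finset (Fin k)).val = k := by simp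
    rw [h4]
    apply Finset.sum_congr rfl
    intro j _
    rw [aeval_esymm_eq_multiset_esymm]
  rw [key a, key b]
  apply Finset.sum_congr rfl
  intro j hj
  rw [Finset.mem_range] at hj
  rw [esymm_eq_of_psum hu a b h j (by omega)]

end Pool.Agent.Helper50.CV
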