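import Pool.Agent.Helper50.CV.Root
import Pool.Agent.Helper50.CV.Psum
import Pool.Agent.Helper38.NS.Blk

/-! Exact entropy calculus: power sums of real variables are real. -/

set_option autoImplicit false

namespace Pool.Agent.Helper50.CV

open Finset Filter Topology Pool.Agent.Helper69.RK Pool.Agent.Helper31.EC

noncomputable section

open Sp

variable {S : Sp}

/-- positive integers are units -/
theorem isUnit_nat (j : ℕ) (hj : 0 < j) : IsUnit ((j : ℕ) : QS S) := by
  have h1 : ((j : ℕ) : QS S) = QS.mk ((j : ℕ) : TR S) := (map_natCast QS.mk j).symm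
  rw [h1, QS.isUnit_mk]
  refine ⟨fun _ => 1, S.Sub_const zero_le_one, ?_⟩
  apply Typ_true.mono
  refine Eventually.of_forall fun k ω _ _ => ?_
  have h2 : TR.ev ((j : ℕ) : TR S) k ω = j := by
    have h3 := map_natCast (TR.evh k ω) j
    rw [TR.evh_apply] at h3
    exact h3
  rw [h2, one_mul, abs_of_nonneg (Nat.cast_nonneg j)]
  exact_mod_cast hj

/-- power sums of a family with unit differences determine the family -/
theorem vd_le_psum {k : ℕ} (t : Fin k → QS S) (hu : ∀ i j, i ≠ j → IsUnit (t i - t j)) :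
    QS.vd t 1 ≤ QS.vd (fun j : Fin k => ∑ l, t l ^ ((j : ℕ) + 1)) 1 := by
  rcases Nat.eq_zero_or_pos k with rfl | hk
  · rw [QS.vd_le]
    intro i
    exact i.elim0
  obtain ⟨D, p1, p2, h1, h2, h3⟩ := Helper38.NS.exists_copyS (fun j : Fin k => ∑ l, t l ^ ((j : ℕ) + 1))
  rw [QS.vd_le]
  intro i
  have e1 : ∀ y : QS D, ∏ l, (y - p1.qs (t l)) = ∏ l, (y - p2.qs (t l)) := by
    apply prod_eq_of_psum (fun j hj => isUnit_nat j hj)
    intro j hj hjk
    have h4 := h1 ⟨j - 1, by omega⟩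
    have h5 : j - 1 + 1 = j := by omega
    simp only [h5, map_sum, map_pow] at h4
    exact h4
  have e2 : QS.dg (p2.qs (t i)) 1 ≤ QS.vd (fun l => p1.qs (t l)) 1 := by
    apply root_known hk
    · intro a b hab
      have h6 := (hu a b hab).map p1.qs
      rw [map_sub] at h6
      exact h6
    · rw [e1]
      exact Finset.prod_eq_zero (Finset.mem_univ i) (sub_self _)
  rw [p1.qs_vd, p2.qs_dg] at e2
  have e3 := h2 (QS.vd t 1) (QS.dg (t i) 1)
  have e4 : p2.map (QS.dg (t i) 1) ≤ p1.map (QS.vd (fun j : Fin k => ∑ l, t l ^ ((j : ℕ) + 1)) 1) :=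
    le_of_markov (e2.trans le_sup_left) le_sup_left e3
  rw [h3] at e4
  exact p2.map_le.mp e4

/-- POWER SUMS ARE REAL -/
theorem rl_psum {k : ℕ} {t : Fin k → QS S} {A : S.L} (ht : QS.Rl t A) :
    QS.Rl (fun j : Fin k => ∑ l, t l ^ ((j : ℕ) + 1)) A := by
  apply QS.Rl.of_ge
  have h1 := vd_le_psum t (fun i j hij => ht.isUnit_sub hij)
  have h2 : Helper31.EC.h (QS.vd t 1) A ≤ Helper31.EC.h (QS.vd (fun j : Fin k => ∑ l, t l ^ ((j : ℕ) + 1)) 1) A := h_mono h1
  have h3 : Helper31.EC.h (QS.vd t 1) A = Fintype.card (Fin k) := ht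
  rw [← h3]
  exact h2

/-- real families plus known families are real -/
theorem rl_add {ι : Type} [Fintype ι] {x r : ι → QS S} {A : S.L} (hx : QS.Rl x A) (hr : QS.vd r 1 ≤ A) :
    QS.Rl (fun i => x i + r i) A := by
  apply QS.Rl.of_ge
  have h1 : QS.vd x 1 ≤ QS.vd (fun i => x i + r i) 1 ⊔ A := by
    rw [QS.vd_le]
    intro i
    have h2 := QS.dg_sub_le (x i + r i) (r i) le_rfl
    rw [add_sub_cancel_right] at h2
    refine h2.trans (sup_le_sup (QS.dg_le_vd (fun i => x i + r i) 1 i) ((QS.dg_le_vd r 1 i).trans hr))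
  have h3 : Helper31.EC.h (QS.vd x 1) A = Fintype.card ι := hx
  rw [← h3]
  have h4 : Helper31.EC.h (QS.vd x 1) A ≤ Helper31.EC.h (QS.vd (fun i => x i + r i) 1 ⊔ A) A := h_mono h1
  rwa [h_sup_right_of_le le_rfl] at h4

/-- SIGNED POWER SUMS ARE REAL: a finite family `t`, at least `k` members of which have coefficient `1` -/
theorem rl_spsum {ι : Type} [Fintype ι] [DecidableEq ι] {t : ι → QS S} {A : S.L} (ht : QS.Rl t A) (ε : ι → QS S)
    (hε : ∀ i, QS.dg (ε i) 1 = ⊥) {k : ℕ} (f : Fin k ↪ ι) (hf : ∀ l, ε (f l) = 1) :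
    QS.Rl (fun j : Fin k => ∑ i, ε i * t i ^ ((j : ℕ) + 1)) A := by
  classical
  set s : Finset ι := Finset.univ.map f with hs
  set B : S.L := QS.sd t sᶜ ⊔ A with hB
  have h1 : QS.Rl (fun l => t (f l)) B := by
    apply QS.Rl.of_ge
    have h2 := ht.sub (s := s) (t := sᶜ) disjoint_compl_right
    have h3 : QS.sd t s ≤ QS.vd (fun l => t (f l)) 1 := by
      rw [QS.sd_le]
      intro i hi
      rw [hs, Finset.mem_map] at hi
      obtain ⟨l, _, rfl⟩ := hi
      exact QS.dg_le_vd (fun l => t (f l)) 1 l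
    have h4 : (s.card : ℝ) ≤ Helper31.EC.h (QS.vd (fun l => t (f l)) 1) B := by
      rw [← h2]
      exact h_mono h3
    rw [hs, Finset.card_map] at h4
    exact h4
  have h5 := rl_psum h1
  set r : Fin k → QS S := fun j => ∑ i ∈ sᶜ, ε i * t i ^ ((j : ℕ) + 1) with hr
  have h6 : QS.vd r 1 ≤ B := by
    rw [QS.vd_le]
    intro j
    have h7 : r j ∈ QS.Kn S 1 le_rfl B := by
      apply Subring.sum_mem
      intro i hi
      apply Subring.mul_mem
      · rw [QS.mem_Kn, hε]
        exact bot_le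
      · apply Subring.pow_mem
        rw [QS.mem_Kn]
        exact (QS.dg_le_sd t hi).trans le_sup_left
    exact h7
  have h8 := rl_add h5 h6
  have h9 : (fun j : Fin k => (∑ l, t (f l) ^ ((j : ℕ) + 1)) + r j) =
      fun j : Fin k => ∑ i, ε i * t i ^ ((j : ℕ) + 1) := by
    funext j
    rw [← Finset.sum_add_sum_compl s (fun i => ε i * t i ^ ((j : ℕ) + 1)), hs, Finset.sum_map]
    congr 1
    apply Finset.sum_congr rfl
    intro l _
    rw [hf, one_mul]
  rw [h9] at h8
  exact h8.anti le_sup_right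

end

end Pool.Agent.Helper50.CV
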