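import Pool.Agent.Helper50.CV.CfA
import Pool.Agent.Helper50.CV.Power
import Pool.Agent.Helper61.EC.WGK

/-! Exact entropy calculus: rigidity of blocks of powers: the coefficients of the powers of the height on the right
side are polynomials in the height of the left side. -/

set_option autoImplicit false

namespace Pool.Agent.Helper50.CV

open Pool.Agent.Helper31.EC QS Pool.Agent.Helper38.NS

noncomputable section

theorem dg_int {S : Sp} (n : ℤ) : dg ((n : ℤ) : QS S) 1 = ⊥ :=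
  le_bot_iff.mp (intCast_mem (Kn S 1 le_rfl ⊥) n)

theorem int_mem {S : Sp} (A : S.L) (n : ℤ) : ((n : ℤ) : QS S) ∈ Kn S 1 le_rfl A := intCast_mem (Kn S 1 le_rfl A) n

section

variable {S : Sp} {k : ℕ} {ιB ιP ιQ : Type} [Fintype ιB] [Fintype ιP] [Fintype ιQ]

theorem Bk.rigid {β : Bk S (Fin k ⊕ Fin k) ιB ιP ιQ} (ok : β.Ok) (hk : 0 < k) (t τ : QS S) (A C : Fin k → QS S)
    (hu : β.u = Sum.elim (fun i : Fin k => t ^ ((i : ℕ) + 1)) (fun i => -A i))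
    (hv : β.v = Sum.elim C (fun i : Fin k => τ ^ ((i : ℕ) + 1)))
    (ht : h (dg t 1) β.B = 1) (hτ : h (dg τ 1) β.B = 1) (un : Helper61.EC.Uns β.z β.B) :
    ∃ (W : Sp) (p : Pj W S) (Φ : Fin k → Fin (k + 1) → QS W), (∀ i, vd (Φ i) 1 ≤ p.map β.B) ∧
      ∀ i, p.qs (A i) = pe (Φ i) (p.qs t) := by
  classical
  obtain ⟨c, hc1, hc2⟩ := Cf.exists_cf β ok k
  obtain ⟨f, hf⟩ := hc1
  obtain ⟨f', hf'⟩ := hc2
  obtain ⟨i0, hi0⟩ : ∃ i0 : Fin k, i0 = ⟨0, hk⟩ := ⟨_, rfl⟩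
  have tP : dg t 1 ≤ β.P := by
    have h1 := dg_le_vd β.pf 1 (Sum.inl (Sum.inl i0))
    have h2 : β.pf (Sum.inl (Sum.inl i0)) = t := by
      show β.u (Sum.inl i0) = t
      rw [hu, hi0]
      show t ^ (0 + 1) = t
      ring
    rw [h2] at h1
    exact h1
  have τQ : dg τ 1 ≤ β.Q := by
    have h1 := dg_le_vd β.qf 1 (Sum.inl (Sum.inr i0))
    have h2 : β.qf (Sum.inl (Sum.inr i0)) = τ := by
      show β.v (Sum.inr i0) = τ
      rw [hv, hi0]
      show τ ^ (0 + 1) = τ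
      ring
    rw [h2] at h1
    exact h1
  have AP : ∀ j, dg (A j) 1 ≤ β.P := by
    intro j
    have h1 := dg_le_vd β.pf 1 (Sum.inl (Sum.inr j))
    have h2 : β.pf (Sum.inl (Sum.inr j)) = -A j := by
      show β.u (Sum.inr j) = _
      rw [hu]
      rfl
    rw [h2] at h1
    have h3 : -A j ∈ Kn S 1 le_rfl β.P := h1
    have h4 := (Kn S 1 le_rfl β.P).neg_mem h3
    rw [neg_neg] at h4
    exact h4
  have CQ' : ∀ j, dg (C j) 1 ≤ β.Q := by
    intro j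
    have h1 := dg_le_vd β.qf 1 (Sum.inl (Sum.inl j))
    have h2 : β.qf (Sum.inl (Sum.inl j)) = C j := by
      show β.v (Sum.inl j) = _
      rw [hv]
      rfl
    rw [h2] at h1
    exact h1
  obtain ⟨X, hX⟩ : ∃ X : Fin k → QS c.W, X = fun j : Fin k => ∑ l, ((c.ε l : ℤ) : QS c.W) * (c.p l).qs t ^ ((j : ℕ) + 1) :=
    ⟨_, rfl⟩
  obtain ⟨Y, hY⟩ : ∃ Y : Fin k → QS c.W, Y = fun j : Fin k => ∑ m, ((c.δ m : ℤ) : QS c.W) * (c.q m).qs τ ^ ((j : ℕ) + 1) :=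
    ⟨_, rfl⟩
  obtain ⟨AA, hAA⟩ : ∃ AA : Fin k → QS c.W, AA = fun j => ∑ l, ((c.ε l : ℤ) : QS c.W) * (c.p l).qs (A j) := ⟨_, rfl⟩
  obtain ⟨CC, hCC⟩ : ∃ CC : Fin k → QS c.W, CC = fun j => ∑ m, ((c.δ m : ℤ) : QS c.W) * (c.q m).qs (C j) := ⟨_, rfl⟩
  have rX : Rl X (c.r.map β.B) := by
    rw [hX]
    exact rl_spsum (c.rl_left (tP.trans le_sup_left) ht) (fun l => ((c.ε l : ℤ) : QS c.W)) (fun l => dg_int _) f
      (fun l => by rw [hf, Int.cast_one])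
  have rY : Rl Y (c.r.map β.B) := by
    rw [hY]
    exact rl_spsum (c.rl_right (τQ.trans le_sup_left) hτ) (fun m => ((c.δ m : ℤ) : QS c.W)) (fun m => dg_int _) f'
      (fun l => by rw [hf', Int.cast_one])
  have pP : ∀ l (x : QS S), dg x 1 ≤ β.P → dg ((c.p l).qs x) 1 ≤ vd c.Pf 1 := by
    intro l x hx
    rw [(c.p l).qs_dg, c.Pf_eq]
    exact ((c.p l).map_mono hx).trans (Finset.le_sup (f := fun l => (c.p l).map β.P) (Finset.mem_univ l))
  have qQ : ∀ m (x : QS S), dg x 1 ≤ β.Q → dg ((c.q m).qs x) 1 ≤ vd c.Qf 1 := by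
    intro m x hx
    rw [(c.q m).qs_dg, c.Qf_eq]
    exact ((c.q m).map_mono hx).trans (Finset.le_sup (f := fun m => (c.q m).map β.Q) (Finset.mem_univ m))
  have kX : ∀ j, dg (X j) 1 ≤ vd c.Pf 1 := by
    intro j
    rw [hX]
    exact (Kn c.W 1 le_rfl _).sum_mem fun l _ => (Kn c.W 1 le_rfl _).mul_mem (int_mem _ _)
      ((Kn c.W 1 le_rfl _).pow_mem (pP l t tP) _)
  have kY : ∀ j, dg (Y j) 1 ≤ vd c.Qf 1 := by
    intro j
    rw [hY]
    exact (Kn c.W 1 le_rfl _).sum_mem fun m _ => (Kn c.W 1 le_rfl _).mul_mem (int_mem _ _)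
      ((Kn c.W 1 le_rfl _).pow_mem (qQ m τ τQ) _)
  have kA : ∀ j, dg (AA j) 1 ≤ vd c.Pf 1 := by
    intro j
    rw [hAA]
    exact (Kn c.W 1 le_rfl _).sum_mem fun l _ => (Kn c.W 1 le_rfl _).mul_mem (int_mem _ _) (pP l _ (AP j))
  have kC : ∀ j, dg (CC j) 1 ≤ vd c.Qf 1 := by
    intro j
    rw [hCC]
    exact (Kn c.W 1 le_rfl _).sum_mem fun m _ => (Kn c.W 1 le_rfl _).mul_mem (int_mem _ _) (qQ m _ (CQ' j))
  obtain ⟨γ, γz, γx, γC, γA, γy, γa, γb, γF, γP, γQ⟩ : ∃ γ : Helper61.EC.Blk c.W k k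
      (c.M × ((Fin k ⊕ Fin k) ⊕ (Unit ⊕ ιQ))) (c.Λ × ((Fin k ⊕ Fin k) ⊕ (Unit ⊕ ιP))) ιB,
      γ.z = c.r.qs β.z ∧ γ.x = X ∧ γ.C = CC ∧ γ.A = AA ∧ γ.y = Y ∧ γ.a = c.b ∧ γ.b = c.a ∧
      γ.F = c.r.map β.B ∧ γ.Pv = c.Qf ∧ γ.Qv = c.Pf := ⟨
    { z := c.r.qs β.z
      x := X
      C := CC
      A := AA
      y := Y
      a := c.b
      b := c.a
      Pv := c.Qf
      Qv := c.Pf
      Fv := fun i => c.r.qs (β.fB i) }, rfl, rfl, rfl, rfl, rfl, rfl, rfl, c.r.qs_vd _ _, rfl, rfl⟩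
  have gP : γ.P ≤ vd c.Qf 1 := by
    unfold Helper61.EC.Blk.P
    rw [vd_le]
    rintro (j | j | j | j)
    · show dg (γ.C j) 1 ≤ _
      rw [γC]; exact kC j
    · show dg (γ.y j) 1 ≤ _
      rw [γy]; exact kY j
    · show dg γ.a 1 ≤ _
      rw [γa]; exact c.hb
    · show dg (γ.Pv j) 1 ≤ _
      rw [γP]; exact dg_le_vd c.Qf 1 j
  have gQ : γ.Q ≤ vd c.Pf 1 := by
    unfold Helper61.EC.Blk.Q
    rw [vd_le]
    rintro (j | j | j | j)
    · show dg (γ.x j) 1 ≤ _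
      rw [γx]; exact kX j
    · show dg (γ.A j) 1 ≤ _
      rw [γA]; exact kA j
    · show dg γ.b 1 ≤ _
      rw [γb]; exact c.ha
    · show dg (γ.Qv j) 1 ≤ _
      rw [γQ]; exact dg_le_vd c.Pf 1 j
  have g3 : γ.z3 = c.z3 := by
    have e1 := c.eq
    have e2 : γ.z3 = c.r.qs β.z + Helper61.EC.Yv X CC AA Y c.b c.a := by
      rw [← γz, ← γx, ← γC, ← γA, ← γy, ← γa, ← γb]
      rfl
    rw [e2, e1, Fintype.sum_sum_type, hu, hv]
    unfold Helper61.EC.Yv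
    have e3 : ∑ i : Fin k, (∑ l, ((c.ε l : ℤ) : QS c.W) * (c.p l).qs (Sum.elim (fun i : Fin k => t ^ ((i : ℕ) + 1))
        (fun i => -A i) (Sum.inl i))) * (∑ m, ((c.δ m : ℤ) : QS c.W) * (c.q m).qs (Sum.elim C
        (fun i : Fin k => τ ^ ((i : ℕ) + 1)) (Sum.inl i))) = ∑ i, X i * CC i := by
      apply Finset.sum_congr rfl
      intro i _
      rw [hX, hCC]
      simp only [Sum.elim_inl, map_pow]
    have e4 : ∑ i : Fin k, (∑ l, ((c.ε l : ℤ) : QS c.W) * (c.p l).qs (Sum.elim (fun i : Fin k => t ^ ((i : ℕ) + 1))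
        (fun i => -A i) (Sum.inr i))) * (∑ m, ((c.δ m : ℤ) : QS c.W) * (c.q m).qs (Sum.elim C
        (fun i : Fin k => τ ^ ((i : ℕ) + 1)) (Sum.inr i))) = -∑ i, AA i * Y i := by
      rw [← Finset.sum_neg_distrib]
      apply Finset.sum_congr rfl
      intro i _
      rw [hAA, hY]
      simp only [Sum.elim_inr, map_pow, map_neg, mul_neg, Finset.sum_neg_distrib, neg_mul]
    rw [e3, e4]
    ring
  have gok : γ.Ok := by
    refine ⟨?_, ?_, ?_, ?_, ?_, ?_⟩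
    · rw [γF, γz]
      exact I_zero_mono c.iz le_sup_left (sup_le (gP.trans (le_sup_right.trans le_sup_left))
        (gQ.trans (le_sup_left.trans le_sup_left)))
    · rw [γF, g3]
      exact I_zero_mono c.iz3 le_sup_left (sup_le (gP.trans (le_sup_right.trans le_sup_left))
        (gQ.trans (le_sup_left.trans le_sup_left)))
    · rw [γF, I_comm]
      exact I_zero_mono c.ipq (gQ.trans le_sup_left) (gP.trans le_sup_left)
    · rw [γF, γx]
      exact rX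
    · rw [γF, γy]
      exact rY
    · rw [γF, γz]
      exact un.map c.r
  obtain ⟨W, p, q, Φ, cc, G, -, -, w1, w2, -, -, w3, -⟩ := Helper61.EC.Blk.W gok hk hk
  obtain ⟨l0, hl0⟩ : ∃ l0, l0 = f i0 := ⟨_, rfl⟩
  obtain ⟨g, hg⟩ : ∃ g : Fin k → c.Λ → QS W, g = fun j l => q.qs ((c.p l).qs (A j)) -
    ∑ i : Fin k, Φ j i * q.qs ((c.p l).qs t) ^ ((i : ℕ) + 1) := ⟨_, rfl⟩
  rw [γF] at w1 w2
  have s1 : ∀ j, ∑ l, ((c.ε l : ℤ) : QS W) * g j l = cc j := by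
    intro j
    have e1 := w3 j
    rw [γA, γx, hAA, hX] at e1
    simp only [map_sum, map_mul, map_intCast, map_pow] at e1
    rw [hg]
    simp only [mul_sub]
    rw [Finset.sum_sub_distrib, e1]
    have e2 : ∑ l, ((c.ε l : ℤ) : QS W) * ∑ i : Fin k, Φ j i * q.qs ((c.p l).qs t) ^ ((i : ℕ) + 1) =
        ∑ i : Fin k, Φ j i * ∑ l, ((c.ε l : ℤ) : QS W) * q.qs ((c.p l).qs t) ^ ((i : ℕ) + 1) := by
      simp only [Finset.mul_sum]
      rw [Finset.sum_comm]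
      apply Finset.sum_congr rfl
      intro i _
      apply Finset.sum_congr rfl
      intro l _
      ring
    rw [e2]
    ring
  have kg : ∀ j l, dg (g j l) 1 ≤ q.map ((c.p l).map β.P) ⊔ q.map (c.r.map β.B) := by
    intro j l
    rw [hg]
    refine (Kn W 1 le_rfl _).sub_mem ?_ ((Kn W 1 le_rfl _).sum_mem fun i _ => (Kn W 1 le_rfl _).mul_mem ?_
      ((Kn W 1 le_rfl _).pow_mem ?_ _))
    · rw [mem_Kn, q.qs_dg, (c.p l).qs_dg]
      exact (q.map_mono ((c.p l).map_mono (AP j))).trans le_sup_left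
    · exact (w1 j i).trans le_sup_right
    · rw [mem_Kn, q.qs_dg, (c.p l).qs_dg]
      exact (q.map_mono ((c.p l).map_mono tP)).trans le_sup_left
  have kg2 : ∀ j, dg (g j l0) 1 ≤ q.map ((Finset.univ.erase l0).sup fun l => (c.p l).map β.P) ⊔
      q.map (c.r.map β.B) := by
    intro j
    have e1 := s1 j
    rw [← Finset.add_sum_erase Finset.univ _ (Finset.mem_univ l0), hl0, hf, Int.cast_one, one_mul, ← hl0] at e1
    have e2 : g j l0 = cc j - ∑ l ∈ Finset.univ.erase l0, ((c.ε l : ℤ) : QS W) * g j l := by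
      linear_combination e1
    rw [e2]
    refine (Kn W 1 le_rfl _).sub_mem ((w2 j).trans le_sup_right) ((Kn W 1 le_rfl _).sum_mem fun l hl =>
      (Kn W 1 le_rfl _).mul_mem (int_mem _ _) ?_)
    refine (kg j l).trans (sup_le_sup_right (q.map_mono ?_) _)
    exact Finset.le_sup (f := fun l => (c.p l).map β.P) hl
  have kg3 : ∀ j, dg (g j l0) 1 ≤ q.map (c.r.map β.B) := by
    intro j
    have h1 : I (q.map ((c.p l0).map β.P)) (q.map ((Finset.univ.erase l0).sup fun l => (c.p l).map β.P))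
        (q.map (c.r.map β.B)) = 0 := by
      rw [q.I_map]
      exact c.ip_one l0
    exact le_of_markov (kg j l0) (kg2 j) h1
  refine ⟨W, q.comp (c.p l0), fun j => Fin.cons (g j l0) (Φ j), ?_, ?_⟩
  · intro j
    rw [Pj.comp_map, c.pB', vd_le]
    intro i
    induction i using Fin.cases with
    | zero => exact kg3 j
    | succ i => exact w1 j i
  · intro j
    unfold pe
    rw [Fin.sum_univ_succ, Pj.comp_qs, Pj.comp_qs]
    simp only [Fin.cons_zero, Fin.cons_succ, Fin.val_zero, pow_zero, mul_one, Fin.val_succ]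
    rw [hg]
    ring

end

end

end Pool.Agent.Helper50.CV
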