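import Mathlib

/-! Taylor coefficients. -/

set_option autoImplicit false

namespace Pool.Agent.Helper50.CV

noncomputable section

/-- Taylor coefficients of `∑ e_j X^(j+1)` at `y` -/
def tay {R : Type*} [CommRing R] {k : ℕ} (e : Fin k → R) (y : R) (i : Fin k) : R :=
  ∑ j : Fin k, ((((j : ℕ) + 1).choose ((i : ℕ) + 1) : ℕ) : R) * y ^ ((j : ℕ) - i) * e j

theorem tay_eq {R : Type*} [CommRing R] {k : ℕ} (e : Fin k → R) (x y : R) :
    ∑ j : Fin k, e j * (x + y) ^ ((j : ℕ) + 1) = ∑ i : Fin k, x ^ ((i : ℕ) + 1) * tay e y i +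
      ∑ j : Fin k, e j * y ^ ((j : ℕ) + 1) := by
  have h1 : ∀ j : Fin k, (x + y) ^ ((j : ℕ) + 1) = ∑ i : Fin k, x ^ ((i : ℕ) + 1) *
      (((((j : ℕ) + 1).choose ((i : ℕ) + 1) : ℕ) : R) * y ^ ((j : ℕ) - i)) + y ^ ((j : ℕ) + 1) := by
    intro j
    rw [add_pow, Finset.sum_range_succ']
    simp only [pow_zero, one_mul, Nat.sub_zero, Nat.choose_zero_right, Nat.cast_one, mul_one]
    congr 1
    have h2 : ∑ i : Fin k, x ^ ((i : ℕ) + 1) * (((((j : ℕ) + 1).choose ((i : ℕ) + 1) : ℕ) : R) *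
        y ^ ((j : ℕ) - i)) = ∑ i ∈ Finset.range k, x ^ (i + 1) * (((((j : ℕ) + 1).choose (i + 1) : ℕ) : R) *
        y ^ ((j : ℕ) - i)) :=
      Fin.sum_univ_eq_sum_range (fun i => x ^ (i + 1) * (((((j : ℕ) + 1).choose (i + 1) : ℕ) : R) *
        y ^ ((j : ℕ) - i))) k
    rw [h2]
    have h3 : Finset.range ((j : ℕ) + 1) ⊆ Finset.range k := by
      intro i hi
      rw [Finset.mem_range] at hi ⊢
      have := j.2
      omega
    rw [← Finset.sum_subset h3]
    · apply Finset.sum_congr rfl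
      intro i hi
      have h4 : (j : ℕ) + 1 - (i + 1) = (j : ℕ) - i := by omega
      rw [h4]
      ring
    · intro i _ hi
      rw [Finset.mem_range, not_lt] at hi
      rw [Nat.choose_eq_zero_of_lt (by omega)]
      simp
  have h5 : ∀ j : Fin k, e j * (x + y) ^ ((j : ℕ) + 1) = ∑ i : Fin k, x ^ ((i : ℕ) + 1) *
      (((((j : ℕ) + 1).choose ((i : ℕ) + 1) : ℕ) : R) * y ^ ((j : ℕ) - i) * e j) + e j * y ^ ((j : ℕ) + 1) := by
    intro j
    rw [h1, mul_add, Finset.mul_sum]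
    congr 1
    apply Finset.sum_congr rfl
    intro i _
    ring
  rw [Finset.sum_congr rfl fun j _ => h5 j, Finset.sum_add_distrib, Finset.sum_comm]
  congr 1
  apply Finset.sum_congr rfl
  intro i _
  unfold tay
  rw [Finset.mul_sum]

theorem tay_map {R R' : Type*} [CommRing R] [CommRing R'] (f : R →+* R') {k : ℕ} (e : Fin k → R) (y : R) (i : Fin k) :
    f (tay e y i) = tay (fun j => f (e j)) (f y) i := by
  unfold tay
  rw [map_sum]
  apply Finset.sum_congr rfl
  intro j _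
  rw [map_mul, map_mul, map_natCast, map_pow]

theorem tay_mem {R : Type*} [CommRing R] (A : Subring R) {k : ℕ} {e : Fin k → R} {y : R} (he : ∀ j, e j ∈ A)
    (hy : y ∈ A) (i : Fin k) : tay e y i ∈ A :=
  A.sum_mem fun j _ => A.mul_mem (A.mul_mem (natCast_mem A _) (A.pow_mem hy _)) (he j)

/-- the value from the Taylor coefficients -/
theorem tay_zero {R : Type*} [CommRing R] {k : ℕ} (e : Fin k → R) (y : R) :
    ∑ j : Fin k, e j * y ^ ((j : ℕ) + 1) = ∑ i : Fin k, (-1) ^ (i : ℕ) * y ^ ((i : ℕ) + 1) * tay e y i := by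
  have h1 := tay_eq e (-y) y
  have h2 : ∑ j : Fin k, e j * (-y + y) ^ ((j : ℕ) + 1) = 0 := by
    apply Finset.sum_eq_zero
    intro j _
    rw [neg_add_cancel, pow_succ, mul_zero, mul_zero]
  rw [h2] at h1
  have h3 : ∑ i : Fin k, (-y) ^ ((i : ℕ) + 1) * tay e y i =
      -∑ i : Fin k, (-1) ^ (i : ℕ) * y ^ ((i : ℕ) + 1) * tay e y i := by
    rw [← Finset.sum_neg_distrib]
    apply Finset.sum_congr rfl
    intro i _
    rw [neg_pow, pow_succ (-1 : R)]
    ring
  rw [h3] at h1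
  linear_combination -h1

/-- the Taylor coefficients at `-y` of the Taylor polynomial at `y` -/
theorem tay_tay {R : Type*} [CommRing R] {k : ℕ} (e : Fin k → R) (y : R) (j : Fin k) : tay (tay e y) (-y) j = e j := by
  have h1 := tay_eq (fun j => Polynomial.C (e j)) (Polynomial.X - Polynomial.C y) (Polynomial.C y)
  have h2 := tay_eq (fun j => Polynomial.C (tay e y j)) Polynomial.X (-Polynomial.C y)
  have e1 : ∀ i : Fin k, tay (fun j => Polynomial.C (e j)) (Polynomial.C y) i = Polynomial.C (tay e y i) :=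
    fun i => (tay_map Polynomial.C e y i).symm
  have e2 : ∀ i : Fin k, tay (fun j => Polynomial.C (tay e y j)) (-Polynomial.C y) i =
      Polynomial.C (tay (tay e y) (-y) i) := by
    intro i
    rw [tay_map, map_neg]
  simp only [e1, sub_add_cancel] at h1
  simp only [e2, ← sub_eq_add_neg] at h2
  have h3 : ∑ i : Fin k, (Polynomial.X - Polynomial.C y) ^ ((i : ℕ) + 1) * Polynomial.C (tay e y i) =
      ∑ i : Fin k, Polynomial.C (tay e y i) * (Polynomial.X - Polynomial.C y) ^ ((i : ℕ) + 1) :=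
    Finset.sum_congr rfl fun i _ => mul_comm _ _
  rw [h3, h2] at h1
  have h4 := congrArg (fun P => Polynomial.coeff P ((j : ℕ) + 1)) h1
  have c1 : ∀ f : Fin k → R, (∑ i : Fin k, Polynomial.C (f i) * Polynomial.X ^ ((i : ℕ) + 1)).coeff ((j : ℕ) + 1) =
      f j := by
    intro f
    rw [Polynomial.finsetSum_coeff]
    have c2 : ∀ i : Fin k, (Polynomial.C (f i) * Polynomial.X ^ ((i : ℕ) + 1)).coeff ((j : ℕ) + 1) =
        if i = j then f i else 0 := by
      intro i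
      rw [Polynomial.coeff_C_mul_X_pow]
      by_cases h : i = j
      · rw [if_pos h, if_pos (by rw [h])]
      · rw [if_neg h, if_neg (fun hc => h (Fin.ext (by omega)))]
    rw [Finset.sum_congr rfl fun i _ => c2 i, Finset.sum_ite_eq' Finset.univ, if_pos (Finset.mem_univ _)]
  have c3 : ∀ g : Fin k → R, (∑ i : Fin k, Polynomial.X ^ ((i : ℕ) + 1) * Polynomial.C (g i)).coeff ((j : ℕ) + 1) =
      g j := by
    intro g
    rw [Finset.sum_congr rfl fun i _ => mul_comm _ _]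
    exact c1 g
  have c4 : ∀ (a b : Fin k → R), (∑ i : Fin k, Polynomial.C (a i) * Polynomial.C (b i) ^ ((i : ℕ) + 1)).coeff
      ((j : ℕ) + 1) = 0 := by
    intro a b
    have c5 : ∑ i : Fin k, Polynomial.C (a i) * Polynomial.C (b i) ^ ((i : ℕ) + 1) =
        Polynomial.C (∑ i : Fin k, a i * b i ^ ((i : ℕ) + 1)) := by
      rw [map_sum]
      apply Finset.sum_congr rfl
      intro i _
      rw [map_mul, map_pow]
    rw [c5, Polynomial.coeff_C, if_neg (Nat.succ_ne_zero _)]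
  have c6 : ∑ i : Fin k, Polynomial.C (tay e y i) * (-Polynomial.C y) ^ ((i : ℕ) + 1) =
      ∑ i : Fin k, Polynomial.C (tay e y i) * Polynomial.C (-y) ^ ((i : ℕ) + 1) := by
    apply Finset.sum_congr rfl
    intro i _
    rw [map_neg]
  rw [c6] at h4
  simp only [Polynomial.coeff_add] at h4
  rw [c1 e, c3, c4 (tay e y) (fun _ => -y), c4 e (fun _ => y), add_zero, add_zero] at h4
  exact h4.symm

/-- collecting powers, second form -/
theorem collect2 {R : Type*} [CommRing R] {k : ℕ} (Φ : Fin k → Fin (k + 1) → R) (y : R) (m : Fin k) :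
    ∑ l : Fin k, ((((l : ℕ) + 1).choose ((m : ℕ) + 1) : ℕ) : R) * (-y) ^ ((l : ℕ) - m) *
      ∑ a : Fin (k + 1), Φ l a * y ^ (a : ℕ) =
      ∑ n : Fin (2 * k + 1), (∑ l : Fin k, ∑ a : Fin (k + 1), if (l : ℕ) - m + a = n then
        ((((l : ℕ) + 1).choose ((m : ℕ) + 1) : ℕ) : R) * (-1) ^ ((l : ℕ) - m) * Φ l a else 0) * y ^ (n : ℕ) := by
  simp only [Finset.sum_mul]
  rw [Finset.sum_comm]
  apply Finset.sum_congr rfl
  intro l _
  rw [Finset.sum_comm, Finset.mul_sum]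
  apply Finset.sum_congr rfl
  intro a _
  have h1 : ∀ n : Fin (2 * k + 1), (if (l : ℕ) - m + a = (n : ℕ) then
      ((((l : ℕ) + 1).choose ((m : ℕ) + 1) : ℕ) : R) * (-1) ^ ((l : ℕ) - m) * Φ l a else 0) * y ^ (n : ℕ) =
      if n = ⟨(l : ℕ) - m + a, by have := a.2; have := l.2; omega⟩ then
        ((((l : ℕ) + 1).choose ((m : ℕ) + 1) : ℕ) : R) * (-1) ^ ((l : ℕ) - m) * Φ l a * y ^ (n : ℕ) else 0 := by
    intro n
    by_cases h : (l : ℕ) - m + a = (n : ℕ)
    · rw [if_pos h, if_pos (Fin.ext h.symm)]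
    · rw [if_neg h, if_neg (fun hc => h (congrArg Fin.val hc).symm), zero_mul]
  rw [Finset.sum_congr rfl fun n _ => h1 n, Finset.sum_ite_eq' Finset.univ, if_pos (Finset.mem_univ _)]
  rw [neg_pow, pow_add]
  ring

/-- collecting powers -/
theorem collect {R : Type*} [CommRing R] {k : ℕ} (Φ : Fin k → Fin (k + 1) → R) (y : R) :
    ∑ i : Fin k, (-1) ^ (i : ℕ) * y ^ ((i : ℕ) + 1) * ∑ a : Fin (k + 1), Φ i a * y ^ (a : ℕ) =
      ∑ m : Fin (2 * k + 1), (∑ i : Fin k, ∑ a : Fin (k + 1), if (a : ℕ) + i + 1 = m then (-1) ^ (i : ℕ) * Φ i a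
        else 0) * y ^ (m : ℕ) := by
  simp only [Finset.sum_mul]
  rw [Finset.sum_comm]
  apply Finset.sum_congr rfl
  intro i _
  rw [Finset.sum_comm, Finset.mul_sum]
  apply Finset.sum_congr rfl
  intro a _
  have h1 : ∀ m : Fin (2 * k + 1), (if (a : ℕ) + i + 1 = (m : ℕ) then (-1) ^ (i : ℕ) * Φ i a else 0) * y ^ (m : ℕ) =
      if m = ⟨(a : ℕ) + i + 1, by have := a.2; have := i.2; omega⟩ then (-1) ^ (i : ℕ) * Φ i a * y ^ (m : ℕ) else 0 := by
    intro m
    by_cases h : (a : ℕ) + i + 1 = (m : ℕ)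
    · rw [if_pos h, if_pos (Fin.ext h.symm)]
    · rw [if_neg h, if_neg (fun hc => h (congrArg Fin.val hc).symm), zero_mul]
  rw [Finset.sum_congr rfl fun m _ => h1 m, Finset.sum_ite_eq' Finset.univ, if_pos (Finset.mem_univ _)]
  ring

end

end Pool.Agent.Helper50.CV
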