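import Pool.Agent.Helper50.CV.Cb
import Pool.Agent.Helper50.CV.Tay
import Pool.Agent.Helper50.CV.Rig

/-! Exact entropy calculus: the rectangle of curved lines as a block of absorbed noise. -/

set_option autoImplicit false

namespace Pool.Agent.Helper50.CV

open Pool.Agent.Helper31.EC QS Pool.Agent.Helper38.NS

noncomputable section

namespace CB

variable {S : Sp} {d k : ℕ}

section star

variable {s : CB S d k} (w : s.fb.Star)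

theorem lF (hs : s.Hyp) (j : Fin k) :
    dg (w.p1.qs (s.c j.succ)) 1 ≤ w.p2.map s.fb.iL ⊔ w.p1.map s.fb.iX ⊔ w.p1.map s.fb.iT := by
  rw [w.p1.qs_dg]
  exact (w.p1.map_mono (hs.hF j)).trans w.la

theorem lF2 (hs : s.Hyp) (j : Fin k) : dg (w.p2.qs (s.c j.succ)) 1 ≤ w.p2.map s.fb.iL := by
  rw [w.p2.qs_dg]
  exact w.p2.map_mono (hs.hF j)

end star

/-- rectangle: two Z-shapes with the same second parallel line, the same `u`, the same `tau` -/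
structure Rct {s : CB S d k} {w : s.fb.Star} (v : Zed w) where
  D : Sp
  s1 : Pj D v.D
  s2 : Pj D v.D
  ca : ∀ i, s1.qs (v.q2.qs (w.p2.qs (s.a i))) = s2.qs (v.q2.qs (w.p2.qs (s.a i)))
  cx : ∀ i, s1.qs (v.q2.qs (w.p2.qs (s.x i))) = s2.qs (v.q2.qs (w.p2.qs (s.x i)))
  cc : ∀ j, s1.qs (v.q2.qs (w.p2.qs (s.c j))) = s2.qs (v.q2.qs (w.p2.qs (s.c j)))
  cu : ∀ i, s1.qs (v.q1.qs (w.p1.qs (s.x i))) = s2.qs (v.q1.qs (w.p1.qs (s.x i)))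
  ct : s1.qs v.tau = s2.qs v.tau
  ci : ∀ x y, I (s1.map x) (s2.map y) (s1.map (v.K' ⊔ v.U ⊔ dg v.tau 1)) = 0

theorem exists_rct {s : CB S d k} (hs : s.Hyp) {w : s.fb.Star} (v : Zed w) : Nonempty (Rct v) := by
  obtain ⟨D, s1, s2, c, i, -⟩ := exists_copyS
    (Sum.elim (fun i => v.q2.qs (w.p2.qs (s.a i))) (Sum.elim (fun i => v.q2.qs (w.p2.qs (s.x i)))
      (Sum.elim (fun j => v.q2.qs (w.p2.qs (s.c j)))
          (Sum.elim (fun i => v.q1.qs (w.p1.qs (s.x i))) (fun _ : Unit => v.tau)))))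
  refine ⟨⟨D, s1, s2, fun j => c (Sum.inl j), fun j => c (Sum.inr (Sum.inl j)),
    fun j => c (Sum.inr (Sum.inr (Sum.inl j))),
    fun j => c (Sum.inr (Sum.inr (Sum.inr (Sum.inl j)))),
    c (Sum.inr (Sum.inr (Sum.inr (Sum.inr ())))), ?_⟩⟩
  rw [vd_sum, vd_sum, vd_sum, vd_sum, vd_unit, v.q2.qs_vd, v.q2.qs_vd, v.q2.qs_vd,
    v.q1.qs_vd, w.p2.qs_vd, w.p2.qs_vd, w.p2.qs_vd, w.p1.qs_vd] at i
  have h1 : v.q2.map (w.p2.map (vd s.c 1)) ≤ v.q2.map (w.p2.map (s.fb.iL ⊔ s.fb.iB)) :=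
    v.q2.map_mono (w.p2.map_mono hs.vc)
  have h1' : v.q2.map (w.p2.map s.fb.iB) ≤ v.q2.map (w.p2.map (vd s.c 1)) :=
    v.q2.map_mono (w.p2.map_mono s.iB_le)
  have h3 : v.q2.map (w.p2.map s.fb.iL) =
      v.q2.map (w.p2.map (vd s.a 1)) ⊔ v.q2.map (w.p2.map (vd s.x 1)) := by
    unfold FB.iL
    rw [w.p2.map_sup, v.q2.map_sup]
    rfl
  have h4 : v.K' = v.q2.map (w.p2.map s.fb.iL) ⊔ v.q2.map (w.p2.map s.fb.iB) := by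
    unfold Zed.K'
    rw [w.p2.map_sup, v.q2.map_sup]
  have h4' : v.q2.map (w.p2.map (s.fb.iL ⊔ s.fb.iB)) = v.K' := rfl
  have h5 : v.U = v.q1.map (w.p1.map (vd s.x 1)) := rfl
  have h2 : v.q2.map (w.p2.map (vd s.a 1)) ⊔ (v.q2.map (w.p2.map (vd s.x 1)) ⊔
      (v.q2.map (w.p2.map (vd s.c 1)) ⊔ (v.q1.map (w.p1.map (vd s.x 1)) ⊔ dg v.tau 1))) =
      v.K' ⊔ v.U ⊔ dg v.tau 1 := by
    rw [h4'] at h1
    rw [h5]
    order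
  rw [h2] at i
  exact i

namespace Rct

variable {s : CB S d k} {w : s.fb.Star} {v : Zed w} (g : Rct v)

def T0 : g.D.L := g.s1.map v.T0
def T1 : g.D.L := g.s2.map v.T0
def U : g.D.L := g.s1.map v.U
def K0 : g.D.L := g.s1.map v.K
def K1 : g.D.L := g.s2.map v.K
def L : g.D.L := g.s1.map (v.q1.map (w.p2.map s.fb.iL))
def tau : QS g.D := g.s1.qs v.tau
def V3 : g.D.L := g.s1.map (v.K' ⊔ v.U ⊔ dg v.tau 1)

theorem eU : g.s2.map v.U = g.U := by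
  unfold U Zed.U FB.iX
  rw [← w.p1.qs_vd, ← v.q1.qs_vd, ← g.s1.qs_vd, ← g.s2.qs_vd]
  exact (vd_congr g.cu 1).symm

theorem etau : g.s2.map (dg v.tau 1) = dg g.tau 1 := by
  unfold tau
  rw [g.ct, g.s2.qs_dg]

theorem etau1 : g.s1.map (dg v.tau 1) = dg g.tau 1 := by
  unfold tau
  rw [g.s1.qs_dg]

theorem ax (i : Fin d) : g.s1.qs (v.q1.qs (w.p2.qs (s.x i))) =
    g.s2.qs (v.q1.qs (w.p2.qs (s.x i))) := by
  rw [v.cx i, g.cx i]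

theorem aa (i : Fin d) : g.s1.qs (v.q1.qs (w.p2.qs (s.a i))) =
    g.s2.qs (v.q1.qs (w.p2.qs (s.a i))) := by
  rw [v.za i]
  simp only [map_sub, map_mul]
  rw [g.ca i, g.cx i, g.cu i, g.ct]

theorem eL : g.s2.map (v.q1.map (w.p2.map s.fb.iL)) = g.L := by
  unfold L FB.iL
  rw [w.p2.map_sup, v.q1.map_sup, g.s1.map_sup, g.s2.map_sup]
  rw [← w.p2.qs_vd, ← w.p2.qs_vd, ← v.q1.qs_vd, ← v.q1.qs_vd, ← g.s1.qs_vd, ← g.s1.qs_vd,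
    ← g.s2.qs_vd, ← g.s2.qs_vd]
  have h1 : vd (fun i => g.s2.qs (v.q1.qs (w.p2.qs (s.fb.a i)))) 1 =
      vd (fun i => g.s1.qs (v.q1.qs (w.p2.qs (s.fb.a i)))) 1 := (vd_congr g.aa 1).symm
  have h2 : vd (fun i => g.s2.qs (v.q1.qs (w.p2.qs (s.fb.x i)))) 1 =
      vd (fun i => g.s1.qs (v.q1.qs (w.p2.qs (s.fb.x i)))) 1 := (vd_congr g.ax 1).symm
  rw [h1, h2]

theorem K0_eq : g.K0 = g.L ⊔ dg (g.s1.qs (v.q1.qs (w.p2.qs (s.c 0)))) 1 := by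
  unfold K0 Zed.K L FB.iB
  rw [w.p2.map_sup, v.q1.map_sup, g.s1.map_sup, ← w.p2.qs_dg, ← v.q1.qs_dg, ← g.s1.qs_dg]
  rfl

theorem K1_eq : g.K1 = g.L ⊔ dg (g.s2.qs (v.q1.qs (w.p2.qs (s.c 0)))) 1 := by
  have h := g.eL
  unfold K1 Zed.K FB.iB
  rw [w.p2.map_sup, v.q1.map_sup, g.s2.map_sup, ← w.p2.qs_dg, ← v.q1.qs_dg, ← g.s2.qs_dg, h]
  rfl

theorem V3_eq : g.V3 = g.s1.map v.K' ⊔ g.U ⊔ dg g.tau 1 := by
  unfold V3 U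
  rw [g.s1.map_sup, g.s1.map_sup, g.etau1]

theorem f1 (hs : s.Hyp) (y : v.D.L) : I g.T0 (g.V3 ⊔ g.s2.map y) ⊥ = 0 := by
  have h1 := g.s1.I_map v.T0 (v.K' ⊔ v.U ⊔ dg v.tau 1) ⊥
  rw [v.e4 hs, g.s1.map_bot] at h1
  exact ind_add h1 (g.ci v.T0 y) (by rw [sup_bot_eq]; rfl)

theorem f1' (hs : s.Hyp) (x : v.D.L) : I g.T1 (g.V3 ⊔ g.s1.map x) ⊥ = 0 := by
  have h1 := g.s2.I_map v.T0 (v.K' ⊔ v.U ⊔ dg v.tau 1) ⊥
  rw [v.e4 hs, g.s2.map_bot] at h1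
  have h2 : g.s2.map (v.K' ⊔ v.U ⊔ dg v.tau 1) = g.V3 := by
    rw [g.V3_eq, g.s2.map_sup, g.s2.map_sup, g.eU, g.etau]
    have h3 : g.s2.map v.K' = g.s1.map v.K' := by
      unfold Zed.K' FB.iL FB.iB
      rw [w.p2.map_sup, w.p2.map_sup, v.q2.map_sup, v.q2.map_sup, g.s1.map_sup, g.s1.map_sup,
        g.s2.map_sup, g.s2.map_sup]
      rw [← w.p2.qs_vd, ← w.p2.qs_vd, ← w.p2.qs_dg, ← v.q2.qs_vd, ← v.q2.qs_vd, ← v.q2.qs_dg,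
        ← g.s1.qs_vd, ← g.s1.qs_vd, ← g.s1.qs_dg, ← g.s2.qs_vd, ← g.s2.qs_vd, ← g.s2.qs_dg]
      have e1 : vd (fun i => g.s2.qs (v.q2.qs (w.p2.qs (s.fb.a i)))) 1 =
          vd (fun i => g.s1.qs (v.q2.qs (w.p2.qs (s.fb.a i)))) 1 := (vd_congr g.ca 1).symm
      have e2 : vd (fun i => g.s2.qs (v.q2.qs (w.p2.qs (s.fb.x i)))) 1 =
          vd (fun i => g.s1.qs (v.q2.qs (w.p2.qs (s.fb.x i)))) 1 := (vd_congr g.cx 1).symm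
      have e3 : g.s2.qs (v.q2.qs (w.p2.qs s.fb.b)) = g.s1.qs (v.q2.qs (w.p2.qs s.fb.b)) := (g.cc 0).symm
      rw [e1, e2, e3]
    rw [h3]
  rw [h2] at h1
  exact ind_add h1 (ind_symm (g.ci x v.T0)) (by rw [sup_bot_eq]; rfl)

theorem f2 (hs : s.Hyp) : I (dg g.tau 1) (g.K0 ⊔ g.U ⊔ g.T0) ⊥ = 0 := by
  have h1 := g.s1.I_map (dg v.tau 1) (v.K ⊔ v.U ⊔ v.T0) ⊥
  rw [v.e5 hs, g.s1.map_bot, g.s1.map_sup, g.s1.map_sup, g.etau1] at h1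
  exact h1

theorem f2' (hs : s.Hyp) : I (dg g.tau 1) (g.K1 ⊔ g.U ⊔ g.T1) ⊥ = 0 := by
  have h1 := g.s2.I_map (dg v.tau 1) (v.K ⊔ v.U ⊔ v.T0) ⊥
  rw [v.e5 hs, g.s2.map_bot, g.s2.map_sup, g.s2.map_sup, g.etau, g.eU] at h1
  exact h1

theorem f3 (hs : s.Hyp) : I g.T1 (g.K1 ⊔ g.U) ⊥ = 0 := by
  have h1 := g.s2.I_map v.T0 (v.K ⊔ v.U) ⊥
  rw [v.e3' hs, g.s2.map_bot, g.s2.map_sup, g.eU] at h1
  exact h1

/-- `T1` is independent of the first Z-shape -/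
theorem f4 (hs : s.Hyp) : I g.T1 (g.K0 ⊔ g.U ⊔ g.T0 ⊔ dg g.tau 1) ⊥ = 0 := by
  have h1 := g.f1' hs (v.K ⊔ v.U ⊔ v.T0 ⊔ dg v.tau 1)
  rw [g.s1.map_sup, g.s1.map_sup, g.s1.map_sup, g.etau1] at h1
  exact ind_of h1 le_rfl bot_le le_sup_left (by unfold K0 U T0; order)

theorem f4' (hs : s.Hyp) : I g.T0 (g.K1 ⊔ g.U ⊔ g.T1 ⊔ dg g.tau 1) ⊥ = 0 := by
  have h1 := g.f1 hs (v.K ⊔ v.U ⊔ v.T0 ⊔ dg v.tau 1)
  rw [g.s2.map_sup, g.s2.map_sup, g.s2.map_sup, g.etau, g.eU] at h1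
  exact ind_of h1 le_rfl bot_le le_sup_left (by unfold K1 T1; order)

/-- the base of the block -/
def B : g.D.L := g.L ⊔ g.U ⊔ g.T0

theorem c1 (hs : s.Hyp) :
    I (dg (g.s1.qs (v.q1.qs (w.p2.qs (s.c 0)))) 1) (dg g.tau 1 ⊔ g.T1) g.B = 0 := by
  have hK := g.K0_eq
  have hB : g.B = g.L ⊔ g.U ⊔ g.T0 := rfl
  refine ind_add (C' := dg g.tau 1 ⊔ g.B) (ind_symm ?_) (ind_symm ?_) rfl
  · exact ind_of (g.f2 hs) bot_le (by order) le_sup_left (by order)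
  · exact ind_of (g.f4 hs) bot_le (by order) le_sup_left (by order)

theorem c2 (hs : s.Hyp) :
    I (dg (g.s2.qs (v.q1.qs (w.p2.qs (s.c 0)))) 1) (dg g.tau 1 ⊔ g.T1) g.B = 0 := by
  have hK := g.K1_eq
  have hB : g.B = g.L ⊔ g.U ⊔ g.T0 := rfl
  have h1 : I (dg (g.s2.qs (v.q1.qs (w.p2.qs (s.c 0)))) 1) g.T1 (g.L ⊔ g.U) = 0 :=
    ind_symm (ind_of (g.f3 hs) bot_le (by order) le_sup_left (by order))
  have h2 : I (dg (g.s2.qs (v.q1.qs (w.p2.qs (s.c 0)))) 1) (dg g.tau 1) (g.T1 ⊔ (g.L ⊔ g.U)) = 0 :=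
    ind_symm (ind_of (g.f2' hs) bot_le (by order) le_sup_left (by order))
  have h3 : I (dg (g.s2.qs (v.q1.qs (w.p2.qs (s.c 0)))) 1) g.T0
      (g.T1 ⊔ dg g.tau 1 ⊔ (g.L ⊔ g.U)) = 0 :=
    ind_symm (ind_of (g.f4' hs) bot_le (by order) le_sup_left (by order))
  have h4 := ind_add (ind_add h1 h2 rfl) h3 rfl
  exact ind_of h4 (by order) (by order) le_sup_left (by order)

theorem c3 (hs : s.Hyp) : I g.T1 (dg g.tau 1) g.B = 0 := by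
  have hK := g.K0_eq
  have hB : g.B = g.L ⊔ g.U ⊔ g.T0 := rfl
  exact ind_of (g.f4 hs) bot_le (by order) le_sup_left (by order)

theorem c4 (hs : s.Hyp) : I g.T1 g.B ⊥ = 0 := by
  have hK := g.K0_eq
  have hB : g.B = g.L ⊔ g.U ⊔ g.T0 := rfl
  exact ind_of (g.f4 hs) le_rfl bot_le le_sup_left (by order)

theorem c5 (hs : s.Hyp) : I (dg g.tau 1) g.B ⊥ = 0 := by
  have hK := g.K0_eq
  have hB : g.B = g.L ⊔ g.U ⊔ g.T0 := rfl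
  exact ind_of (g.f2 hs) le_rfl bot_le le_sup_left (by order)

theorem HT1 (hs : s.Hyp) : H g.T1 = 1 := by
  unfold T1
  rw [g.s2.H_map, v.HT0 hs]

/-- heights and coefficients as functions -/
def t0 : QS g.D := g.s1.qs (v.q1.qs (w.p1.qs s.t))
def t1 : QS g.D := g.s2.qs (v.q1.qs (w.p1.qs s.t))
def cr0 (j : Fin k) : QS g.D := g.s1.qs (v.q1.qs (w.p1.qs (s.c j.succ)))
def cr1 (j : Fin k) : QS g.D := g.s2.qs (v.q1.qs (w.p1.qs (s.c j.succ)))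
def cx0 (j : Fin k) : QS g.D := g.s1.qs (v.q1.qs (w.p2.qs (s.c j.succ)))
def cx1 (j : Fin k) : QS g.D := g.s2.qs (v.q1.qs (w.p2.qs (s.c j.succ)))
def cz (j : Fin k) : QS g.D := g.s1.qs (v.q2.qs (w.p2.qs (s.c j.succ)))
def b0 : QS g.D := g.s1.qs (v.q1.qs (w.p2.qs (s.c 0)))
def b1 : QS g.D := g.s2.qs (v.q1.qs (w.p2.qs (s.c 0)))

theorem T0_eq : g.T0 = dg g.t0 1 := by
  unfold T0 t0
  rw [v.T0_eq, ← g.s1.qs_dg]

theorem T1_eq : g.T1 = dg g.t1 1 := by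
  unfold T1 t1
  rw [v.T0_eq, ← g.s2.qs_dg]

theorem ht1 (hs : s.Hyp) : h (dg g.t1 1) g.B = 1 := by
  have h1 := I_zero_iff_h.mp (g.c4 hs)
  rw [sup_bot_eq, h_bot, g.HT1 hs, g.T1_eq] at h1
  exact h1

theorem htau (hs : s.Hyp) : h (dg g.tau 1) g.B = 1 := by
  have h1 := I_zero_iff_h.mp (g.c5 hs)
  have h2 : H (dg g.tau 1) = 1 := by
    unfold tau
    rw [g.s1.qs_dg, g.s1.H_map]
    exact v.Htau hs
  rw [sup_bot_eq, h_bot, h2] at h1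
  exact h1

theorem lcr0 (hs : s.Hyp) (j : Fin k) : dg (g.cr0 j) 1 ≤ g.L ⊔ g.U ⊔ g.T0 := by
  have h1 := g.s1.map_mono (v.q1.map_mono (lF w hs j))
  rw [v.q1.map_sup, v.q1.map_sup, g.s1.map_sup, g.s1.map_sup] at h1
  unfold cr0
  rw [g.s1.qs_dg, v.q1.qs_dg]
  exact h1

theorem lcr1 (hs : s.Hyp) (j : Fin k) : dg (g.cr1 j) 1 ≤ g.L ⊔ g.U ⊔ g.T1 := by
  have h1 := g.s2.map_mono (v.q1.map_mono (lF w hs j))
  rw [v.q1.map_sup, v.q1.map_sup, g.s2.map_sup, g.s2.map_sup, g.eL] at h1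
  have h2 : g.s2.map (v.q1.map (w.p1.map s.fb.iX)) = g.U := g.eU
  rw [h2] at h1
  unfold cr1
  rw [g.s2.qs_dg, v.q1.qs_dg]
  exact h1

theorem lcx0 (hs : s.Hyp) (j : Fin k) : dg (g.cx0 j) 1 ≤ g.L := by
  have h1 := g.s1.map_mono (v.q1.map_mono (lF2 w hs j))
  unfold cx0
  rw [g.s1.qs_dg, v.q1.qs_dg]
  exact h1

theorem lcx1 (hs : s.Hyp) (j : Fin k) : dg (g.cx1 j) 1 ≤ g.L := by
  have h1 := g.s2.map_mono (v.q1.map_mono (lF2 w hs j))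
  rw [g.eL] at h1
  unfold cx1
  rw [g.s2.qs_dg, v.q1.qs_dg]
  exact h1

theorem lcz (hs : s.Hyp) (j : Fin k) : dg (g.cz j) 1 ≤ g.L ⊔ g.U ⊔ dg g.tau 1 := by
  have h1 := g.s1.map_mono (v.q2.map_mono (lF2 w hs j))
  have h2 : g.s1.map (v.q2.map (w.p2.map s.fb.iL)) ≤ g.L ⊔ g.U ⊔ dg g.tau 1 := by
    have e1 : g.s1.map (v.q2.map (w.p2.map (vd s.x 1))) ≤ g.L := by
      have e2 : v.q2.map (w.p2.map (vd s.x 1)) = v.q1.map (w.p2.map (vd s.x 1)) := v.eX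
      rw [e2]
      unfold L FB.iL
      exact g.s1.map_mono (v.q1.map_mono (w.p2.map_mono le_sup_right))
    have e3 : g.s1.map (v.q2.map (w.p2.map (vd s.a 1))) ≤ g.L ⊔ g.U ⊔ dg g.tau 1 := by
      rw [← w.p2.qs_vd, ← v.q2.qs_vd, ← g.s1.qs_vd, vd_le]
      intro i
      have a0 := congrArg g.s1.qs (v.za i)
      simp only [map_sub, map_mul] at a0
      have a1 : g.s1.qs (v.q2.qs (w.p2.qs (s.a i))) = g.s1.qs (v.q1.qs (w.p2.qs (s.a i))) +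
          g.tau * (g.s1.qs (v.q1.qs (w.p1.qs (s.x i))) - g.s1.qs (v.q2.qs (w.p2.qs (s.x i)))) := by
        unfold tau
        linear_combination -a0
      rw [a1]
      have b1 := dg_add_le (g.s1.qs (v.q1.qs (w.p2.qs (s.a i)))) (g.tau *
        (g.s1.qs (v.q1.qs (w.p1.qs (s.x i))) - g.s1.qs (v.q2.qs (w.p2.qs (s.x i))))) (r := 1) le_rfl
      have b2 := dg_mul_le g.tau (g.s1.qs (v.q1.qs (w.p1.qs (s.x i))) -
        g.s1.qs (v.q2.qs (w.p2.qs (s.x i)))) (r := 1) le_rfl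
      have b3 := dg_sub_le (g.s1.qs (v.q1.qs (w.p1.qs (s.x i))))
        (g.s1.qs (v.q2.qs (w.p2.qs (s.x i)))) (r := 1) le_rfl
      have b4 : dg (g.s1.qs (v.q2.qs (w.p2.qs (s.x i)))) 1 ≤ g.L := by
        refine le_trans ?_ e1
        rw [← w.p2.qs_vd, ← v.q2.qs_vd, ← g.s1.qs_vd]
        exact dg_le_vd (fun i => g.s1.qs (v.q2.qs (w.p2.qs (s.x i)))) 1 i
      have b5 : dg (g.s1.qs (v.q1.qs (w.p1.qs (s.x i)))) 1 ≤ g.U := by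
        unfold U Zed.U FB.iX
        rw [← w.p1.qs_vd, ← v.q1.qs_vd, ← g.s1.qs_vd]
        exact dg_le_vd (fun i => g.s1.qs (v.q1.qs (w.p1.qs (s.x i)))) 1 i
      have b6 : dg (g.s1.qs (v.q1.qs (w.p2.qs (s.a i)))) 1 ≤ g.L := by
        unfold L FB.iL
        refine le_trans ?_ (g.s1.map_mono (v.q1.map_mono (w.p2.map_mono le_sup_left)))
        rw [← w.p2.qs_vd, ← v.q1.qs_vd, ← g.s1.qs_vd]
        exact dg_le_vd (fun i => g.s1.qs (v.q1.qs (w.p2.qs (s.a i)))) 1 i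
      order
    have e4 : g.s1.map (v.q2.map (w.p2.map s.fb.iL)) = g.s1.map (v.q2.map (w.p2.map (vd s.a 1))) ⊔
        g.s1.map (v.q2.map (w.p2.map (vd s.x 1))) := by
      unfold FB.iL
      rw [w.p2.map_sup, v.q2.map_sup, g.s1.map_sup]
      rfl
    rw [e4]
    order
  unfold cz
  rw [g.s1.qs_dg, v.q2.qs_dg]
  exact h1.trans h2

/-- the left and right coefficients -/
def A (i : Fin k) : QS g.D := tay g.cr1 g.t1 i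
def C (i : Fin k) : QS g.D := tay g.cz g.tau i
def ta : QS g.D := -∑ j, g.cx1 j * g.t1 ^ ((j : ℕ) + 1)
def tb : QS g.D := ∑ j, g.cz j * g.tau ^ ((j : ℕ) + 1) - ∑ j, g.cz j * (g.t0 + g.tau) ^ ((j : ℕ) + 1) +
  (∑ j, g.cr0 j * (g.t0 + g.tau) ^ ((j : ℕ) + 1) - ∑ j, g.cr0 j * g.t0 ^ ((j : ℕ) + 1)) +
  ∑ j, g.cx0 j * g.t0 ^ ((j : ℕ) + 1)

theorem pe_succ {R : Sp} (e : Fin (k + 1) → QS R) (x : QS R) :
    pe e x = e 0 + ∑ j : Fin k, e j.succ * x ^ ((j : ℕ) + 1) := by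
  unfold pe
  rw [Fin.sum_univ_succ]
  simp only [Fin.val_zero, pow_zero, mul_one, Fin.val_succ]

/-- the identity of the rectangle -/
theorem rect_eq : g.b1 = g.b0 + (∑ i : Fin k, g.t1 ^ ((i : ℕ) + 1) * g.C i + ∑ i : Fin k, -g.A i * g.tau ^ ((i : ℕ) + 1)) +
    g.ta + g.tb := by
  have h1 := congrArg g.s1.qs v.zc
  have h2 := congrArg g.s2.qs v.zc
  simp only [map_sub, map_add, pe_map] at h1 h2
  have h3 : (fun j => g.s2.qs (v.q2.qs (w.p2.qs (s.c j)))) = fun j => g.s1.qs (v.q2.qs (w.p2.qs (s.c j))) :=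
    funext fun j => (g.cc j).symm
  rw [h3, ← g.ct] at h2
  rw [pe_succ, pe_succ, pe_succ, pe_succ] at h1 h2
  have e1 := tay_eq g.cz g.t1 g.tau
  have e2 := tay_eq g.cr1 g.tau g.t1
  rw [add_comm g.tau g.t1] at e2
  have e3 : ∑ i : Fin k, -g.A i * g.tau ^ ((i : ℕ) + 1) = -∑ i : Fin k, g.tau ^ ((i : ℕ) + 1) * tay g.cr1 g.t1 i := by
    rw [← Finset.sum_neg_distrib]
    apply Finset.sum_congr rfl
    intro i _
    unfold A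
    ring
  have e4 : ∑ i : Fin k, g.t1 ^ ((i : ℕ) + 1) * g.C i = ∑ i : Fin k, g.t1 ^ ((i : ℕ) + 1) * tay g.cz g.tau i := rfl
  rw [e3, e4]
  unfold ta tb
  have u1 : g.s1.qs (v.q1.qs (w.p2.qs (s.c 0))) = g.b0 := rfl
  have u2 : g.s2.qs (v.q1.qs (w.p2.qs (s.c 0))) = g.b1 := rfl
  have u3 : g.s1.qs (v.q1.qs (w.p1.qs s.t)) = g.t0 := rfl
  have u4 : g.s2.qs (v.q1.qs (w.p1.qs s.t)) = g.t1 := rfl
  have u5 : g.s1.qs v.tau = g.tau := rfl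
  have u6 : ∀ j : Fin k, g.s1.qs (v.q2.qs (w.p2.qs (s.c j.succ))) = g.cz j := fun _ => rfl
  have u7 : ∀ j : Fin k, g.s1.qs (v.q1.qs (w.p2.qs (s.c j.succ))) = g.cx0 j := fun _ => rfl
  have u8 : ∀ j : Fin k, g.s2.qs (v.q1.qs (w.p2.qs (s.c j.succ))) = g.cx1 j := fun _ => rfl
  have u9 : ∀ j : Fin k, g.s1.qs (v.q1.qs (w.p1.qs (s.c j.succ))) = g.cr0 j := fun _ => rfl
  have u10 : ∀ j : Fin k, g.s2.qs (v.q1.qs (w.p1.qs (s.c j.succ))) = g.cr1 j := fun _ => rfl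
  simp only [u1, u2, u3, u4, u5, u6, u7, u8, u9, u10] at h1 h2
  linear_combination h2 - h1 + e1 - e2

/-- the base of the block -/
def fB : (Fin d ⊕ Fin d ⊕ Fin d) ⊕ (Unit ⊕ Fin k ⊕ Fin k) → QS g.D :=
  Sum.elim (Sum.elim (fun i => g.s1.qs (v.q1.qs (w.p2.qs (s.a i))))
    (Sum.elim (fun i => g.s1.qs (v.q1.qs (w.p2.qs (s.x i))))
      (fun i => g.s1.qs (v.q1.qs (w.p1.qs (s.x i))))))
    (Sum.elim (fun _ => g.t0) (Sum.elim g.cr0 g.cx0))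

theorem LU_eq : vd (fun i => g.fB (Sum.inl i)) 1 = g.L ⊔ g.U := by
  have e : (fun i => g.fB (Sum.inl i)) = Sum.elim (fun i => g.s1.qs (v.q1.qs (w.p2.qs (s.a i))))
    (Sum.elim (fun i => g.s1.qs (v.q1.qs (w.p2.qs (s.x i))))
      (fun i => g.s1.qs (v.q1.qs (w.p1.qs (s.x i))))) := rfl
  rw [e, vd_sum, vd_sum]
  have h1 : g.L = vd (fun i => g.s1.qs (v.q1.qs (w.p2.qs (s.a i)))) 1 ⊔
      vd (fun i => g.s1.qs (v.q1.qs (w.p2.qs (s.x i)))) 1 := by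
    unfold L FB.iL
    rw [w.p2.map_sup, v.q1.map_sup, g.s1.map_sup, ← w.p2.qs_vd, ← w.p2.qs_vd, ← v.q1.qs_vd,
      ← v.q1.qs_vd, ← g.s1.qs_vd, ← g.s1.qs_vd]
    rfl
  have h2 : g.U = vd (fun i => g.s1.qs (v.q1.qs (w.p1.qs (s.x i)))) 1 := by
    unfold U Zed.U FB.iX
    rw [← w.p1.qs_vd, ← v.q1.qs_vd, ← g.s1.qs_vd]
    rfl
  rw [h1, h2, sup_assoc]

theorem vd_fB (hs : s.Hyp) : vd g.fB 1 = g.B := by
  have e1 : vd g.fB 1 = vd (fun i => g.fB (Sum.inl i)) 1 ⊔ vd (fun i => g.fB (Sum.inr i)) 1 := by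
    rw [← vd_sum]
    apply vd_congr
    intro i
    rcases i with i | i <;> rfl
  have e2 : (fun i => g.fB (Sum.inr i)) = Sum.elim (fun _ : Unit => g.t0) (Sum.elim g.cr0 g.cx0) := rfl
  rw [e1, e2, g.LU_eq, vd_sum, vd_sum, vd_unit, ← g.T0_eq]
  have a1 : vd g.cr0 1 ≤ g.L ⊔ g.U ⊔ g.T0 := (vd_le _ _ _).mpr (g.lcr0 hs)
  have a2 : vd g.cx0 1 ≤ g.L := (vd_le _ _ _).mpr (g.lcx0 hs)
  have hB : g.B = g.L ⊔ g.U ⊔ g.T0 := rfl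
  order

/-- the block -/
def blk : Bk g.D (Fin k ⊕ Fin k) ((Fin d ⊕ Fin d ⊕ Fin d) ⊕ (Unit ⊕ Fin k ⊕ Fin k)) (Fin 0) (Fin 0) where
  fB := g.fB
  fP := fun i => i.elim0
  fQ := fun i => i.elim0
  u := Sum.elim (fun i : Fin k => g.t1 ^ ((i : ℕ) + 1)) (fun i => -g.A i)
  v := Sum.elim g.C (fun i : Fin k => g.tau ^ ((i : ℕ) + 1))
  a := g.ta
  b := g.tb
  z := g.b0

theorem blk_z3 : g.blk.z3 = g.b1 := by
  rw [g.rect_eq]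
  unfold Bk.z3
  rw [Fintype.sum_sum_type]
  rfl

theorem A_le (hs : s.Hyp) (i : Fin k) : dg (g.A i) 1 ≤ g.L ⊔ g.U ⊔ g.T1 :=
  tay_mem (Kn g.D 1 le_rfl (g.L ⊔ g.U ⊔ g.T1)) (g.lcr1 hs) (by
    rw [mem_Kn, ← g.T1_eq]
    exact le_sup_right) i

theorem P_le (hs : s.Hyp) : g.blk.P ≤ g.T1 ⊔ g.B := by
  have hB : g.B = g.L ⊔ g.U ⊔ g.T0 := rfl
  have a0 := g.T1_eq
  have kt : g.t1 ∈ Kn g.D 1 le_rfl (g.T1 ⊔ g.B) := by
    rw [mem_Kn]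
    order
  unfold Bk.P
  rw [vd_le]
  rintro ((i | i) | i | i)
  · exact (Kn g.D 1 le_rfl (g.T1 ⊔ g.B)).pow_mem kt _
  · refine (Kn g.D 1 le_rfl (g.T1 ⊔ g.B)).neg_mem ?_
    rw [mem_Kn]
    have a1 := g.A_le hs i
    order
  · refine (Kn g.D 1 le_rfl (g.T1 ⊔ g.B)).neg_mem ((Kn g.D 1 le_rfl (g.T1 ⊔ g.B)).sum_mem fun j _ =>
      (Kn g.D 1 le_rfl (g.T1 ⊔ g.B)).mul_mem ?_ ((Kn g.D 1 le_rfl (g.T1 ⊔ g.B)).pow_mem kt _))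
    rw [mem_Kn]
    have a1 := g.lcx1 hs j
    order
  · exact i.elim0

theorem Q_le (hs : s.Hyp) : g.blk.Q ≤ dg g.tau 1 ⊔ g.B := by
  have hB : g.B = g.L ⊔ g.U ⊔ g.T0 := rfl
  have a0 := g.T0_eq
  have kt : g.tau ∈ Kn g.D 1 le_rfl (dg g.tau 1 ⊔ g.B) := by
    rw [mem_Kn]
    order
  have kt0 : g.t0 ∈ Kn g.D 1 le_rfl (dg g.tau 1 ⊔ g.B) := by
    rw [mem_Kn]
    order
  have kz : ∀ j, g.cz j ∈ Kn g.D 1 le_rfl (dg g.tau 1 ⊔ g.B) := by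
    intro j
    rw [mem_Kn]
    have a1 := g.lcz hs j
    order
  have kr : ∀ j, g.cr0 j ∈ Kn g.D 1 le_rfl (dg g.tau 1 ⊔ g.B) := by
    intro j
    rw [mem_Kn]
    have a1 := g.lcr0 hs j
    order
  have kx : ∀ j, g.cx0 j ∈ Kn g.D 1 le_rfl (dg g.tau 1 ⊔ g.B) := by
    intro j
    rw [mem_Kn]
    have a1 := g.lcx0 hs j
    order
  have key : ∀ (e : Fin k → QS g.D) (y : QS g.D), (∀ j, e j ∈ Kn g.D 1 le_rfl (dg g.tau 1 ⊔ g.B)) →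
      y ∈ Kn g.D 1 le_rfl (dg g.tau 1 ⊔ g.B) → ∑ j, e j * y ^ ((j : ℕ) + 1) ∈ Kn g.D 1 le_rfl (dg g.tau 1 ⊔ g.B) := by
    intro e y he hy
    exact (Kn g.D 1 le_rfl _).sum_mem fun j _ => (Kn g.D 1 le_rfl _).mul_mem (he j) ((Kn g.D 1 le_rfl _).pow_mem hy _)
  unfold Bk.Q
  rw [vd_le]
  rintro ((i | i) | i | i)
  · exact tay_mem (Kn g.D 1 le_rfl (dg g.tau 1 ⊔ g.B)) kz kt i
  · exact (Kn g.D 1 le_rfl (dg g.tau 1 ⊔ g.B)).pow_mem kt _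
  · refine (Kn g.D 1 le_rfl _).add_mem ((Kn g.D 1 le_rfl _).add_mem ((Kn g.D 1 le_rfl _).sub_mem ?_ ?_)
      ((Kn g.D 1 le_rfl _).sub_mem ?_ ?_)) ?_
    · exact key _ _ kz kt
    · exact key _ _ kz ((Kn g.D 1 le_rfl _).add_mem kt0 kt)
    · exact key _ _ kr ((Kn g.D 1 le_rfl _).add_mem kt0 kt)
    · exact key _ _ kr kt0
    · exact key _ _ kx kt0
  · exact i.elim0

theorem blk_B (hs : s.Hyp) : g.blk.B = g.B := g.vd_fB hs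

theorem blk_ok (hs : s.Hyp) : g.blk.Ok := by
  have a1 := g.P_le hs
  have a2 := g.Q_le hs
  refine ⟨?_, ?_, ?_⟩
  · rw [g.blk_B hs]
    have h1 : dg g.blk.z 1 = dg (g.s1.qs (v.q1.qs (w.p2.qs (s.c 0)))) 1 := rfl
    rw [h1]
    exact I_zero_mono (g.c1 hs) le_sup_left (by order)
  · rw [g.blk_B hs, g.blk_z3]
    have h1 : dg g.b1 1 = dg (g.s2.qs (v.q1.qs (w.p2.qs (s.c 0)))) 1 := rfl
    rw [h1]
    exact I_zero_mono (g.c2 hs) le_sup_left (by order)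
  · rw [g.blk_B hs]
    exact I_zero_mono (g.c3 hs) a1 a2

end Rct

end CB

end

end Pool.Agent.Helper50.CV
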