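import Pool.Agent.Helper36.CV.StmtsE

set_option autoImplicit false

/-! cv_mods E10: dead configurations occur on a dense set of couplings. -/

namespace Pool.Agent.Helper50.CV.E10

open Pool.Agent.Helper36.CV
open Complex Filter Topology MeasureTheory Set Pointwise

noncomputable section

/-- small powers -/
theorem pow95 (ε : ℝ) (h0 : 0 < ε) (h1 : ε ≤ 1 / 10 ^ 6) : ε ^ (9 / 5 : ℝ) ≤ ε / 10 ^ 4 := by
  have e1 : ε ^ (9 / 5 : ℝ) = ε * ε ^ (4 / 5 : ℝ) := by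
    have : (9 / 5 : ℝ) = 1 + 4 / 5 := by norm_num
    rw [this, Real.rpow_add h0, Real.rpow_one]
  have e2 : ε ^ (4 / 5 : ℝ) ≤ 1 / 10 ^ 4 := by
    have h2 : ε ≤ (1 / 10 : ℝ) ^ (5 : ℝ) := by
      have : (1 / 10 : ℝ) ^ (5 : ℝ) = 1 / 10 ^ 5 := by
        have h3 : (5 : ℝ) = ((5 : ℕ) : ℝ) := by norm_num
        rw [h3, Real.rpow_natCast]
        norm_num
      rw [this]
      refine h1.trans ?_
      norm_num
    have h3 := Real.rpow_le_rpow h0.le h2 (by norm_num : (0 : ℝ) ≤ 4 / 5)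
    rw [← Real.rpow_mul (by norm_num)] at h3
    have h4 : (5 : ℝ) * (4 / 5) = ((4 : ℕ) : ℝ) := by norm_num
    rw [h4, Real.rpow_natCast] at h3
    refine h3.trans ?_
    norm_num
  rw [e1]
  have := mul_le_mul_of_nonneg_left e2 h0.le
  linarith

/-- bounds for the value `1 / √2` -/
theorem rr : ∃ r : ℝ, r = 1 / Real.sqrt 2 ∧ r ^ 2 = 1 / 2 ∧ 7071 / 10000 ≤ r ∧ r ≤ 70711 / 100000 := by
  refine ⟨_, rfl, ?_, ?_, ?_⟩
  · rw [div_pow, Real.sq_sqrt (by norm_num)]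
    norm_num
  · rw [le_div_iff₀ (by positivity)]
    have : Real.sqrt 2 ≤ 14142136 / 10000000 := by
      rw [Real.sqrt_le_left (by norm_num)]
      norm_num
    linarith
  · rw [div_le_iff₀ (by positivity)]
    have : 1414213 / 1000000 ≤ Real.sqrt 2 := by
      apply Real.le_sqrt_of_sq_le
      norm_num
    linarith

/-- crude bounds for the distance of the centres -/
theorem crude (ε cK j L0 m1 : ℝ) (hε : 0 < ε) (hs : ε ≤ 1 / 10 ^ 6) (hc0 : 1 ≤ cK)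
    (hc : cK * ε ≤ 1 / 10 ^ 4) (hj : 0 < j)
    (hL0 : |L0 - ε * (1 - 2 * ε) * j| ≤ cK * ε ^ 3 * j)
    (hm : |m1 + 3 / 4 * ε * j| ≤ cK * ε ^ 2 * j) :
    49 / 100 * j ≤ m1 + j / 2 - L0 / 2 ∧ m1 + j / 2 - L0 / 2 ≤ j / 2 := by
  rw [abs_le] at hL0 hm
  have h5 : 0 < ε * j := by positivity
  have h1 : cK * ε ^ 2 * j ≤ 1 / 10 ^ 4 * (ε * j) := by
    have : cK * ε ^ 2 * j = (cK * ε) * (ε * j) := by ring
    rw [this]
    exact mul_le_mul_of_nonneg_right hc h5.le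
  have h3 : 0 ≤ cK * ε ^ 2 * j := by positivity
  have h2 : cK * ε ^ 3 * j ≤ 1 / 10 ^ 4 * (ε * j) := by
    have : cK * ε ^ 3 * j = (cK * ε ^ 2 * j) * ε := by ring
    rw [this]
    have h9 := mul_le_mul_of_nonneg_left hs h3
    linarith
  have h4 : ε * j ≤ 1 / 10 ^ 6 * j := mul_le_mul_of_nonneg_right hs hj.le
  have h7 : 0 ≤ 2 * ε * (ε * j) := by positivity
  have h8 : 2 * ε * (ε * j) ≤ 1 / 10 ^ 5 * (ε * j) := by
    apply mul_le_mul_of_nonneg_right _ h5.le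
    linarith
  constructor <;> linarith [hL0.1, hL0.2, hm.1, hm.2]

/-- the lengths in terms of `j` -/
theorem coreA (ε ε1 cK j L0 L1 L2 D m1 : ℝ)
    (hε : 0 < ε) (hs : ε ≤ 1 / 10 ^ 6) (hc0 : 1 ≤ cK) (hc : cK * ε ≤ 1 / 10 ^ 4)
    (h1 : |ε1 - ε| ≤ ε ^ 2) (hj : 0 < j)
    (hL0 : |L0 - ε1 * (1 - 2 * ε1) * j| ≤ cK * ε1 ^ 3 * j)
    (hL2 : |L2 - ε1 * (1 + 2 * ε1) * j| ≤ cK * ε1 ^ 3 * j)
    (hL1 : |L1 - 4 * ε1 ^ 2 * j| ≤ cK * ε1 ^ 3 * j)
    (hm : |m1 + 3 / 4 * ε1 * j| ≤ cK * ε1 ^ 2 * j)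
    (hM : m1 + j / 2 - L0 / 2 = D) :
    L0 ≤ (ε - 98 / 100 * ε ^ 2) * j ∧ 0 ≤ L0 ∧ L2 ≤ 10002 / 10000 * ε * j ∧
      L1 ≤ 4001 / 1000 * ε ^ 2 * j ∧ (1 / 2 - 12502 / 10000 * ε) * j ≤ D ∧
      D ≤ (1 / 2 - 12495 / 10000 * ε) * j := by
  rw [abs_le] at h1 hL0 hL1 hL2 hm
  obtain ⟨h1a, h1b⟩ := h1
  obtain ⟨hL0a, hL0b⟩ := hL0
  obtain ⟨-, hL1b⟩ := hL1
  obtain ⟨-, hL2b⟩ := hL2
  obtain ⟨hma, hmb⟩ := hm
  have hε2 : ε ^ 2 ≤ 1 / 10 ^ 6 * ε := by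
    rw [pow_two]
    exact mul_le_mul_of_nonneg_right hs hε.le
  have hε20 : 0 < ε ^ 2 := by positivity
  have a1 : ε1 ≤ ε + ε ^ 2 := by linarith
  have a2 : ε - ε ^ 2 ≤ ε1 := by linarith
  have a3 : 0 < ε1 := by linarith
  have a4 : ε1 ≤ 1000001 / 1000000 * ε := by linarith
  have a5 : 999999 / 1000000 * ε ≤ ε1 := by linarith
  have b0 : ε1 ^ 2 ≤ 100001 / 100000 * ε ^ 2 := by
    have h3 := pow_le_pow_left₀ a3.le a4 2
    rw [mul_pow] at h3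
    refine h3.trans (mul_le_mul_of_nonneg_right (by norm_num) hε20.le)
  have b0' : 999998 / 1000000 * ε ^ 2 ≤ ε1 ^ 2 := by
    have h3 := pow_le_pow_left₀ (by positivity) a5 2
    rw [mul_pow] at h3
    refine le_trans (mul_le_mul_of_nonneg_right (by norm_num) hε20.le) h3
  have b1 : cK * ε1 ^ 2 ≤ 11 / 10 ^ 5 * ε := by
    have h3 : cK * ε1 ^ 2 ≤ cK * (100001 / 100000 * ε ^ 2) :=
      mul_le_mul_of_nonneg_left b0 (by linarith)
    have h4 : cK * (100001 / 100000 * ε ^ 2) = 100001 / 100000 * ((cK * ε) * ε) := by ring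
    rw [h4] at h3
    have h5 := mul_le_mul_of_nonneg_right hc hε.le
    linarith
  have b2 : cK * ε1 ^ 3 ≤ 12 / 10 ^ 5 * ε ^ 2 := by
    have h3 : cK * ε1 ^ 3 = cK * ε1 ^ 2 * ε1 := by ring
    rw [h3]
    have h4 : cK * ε1 ^ 2 * ε1 ≤ (11 / 10 ^ 5 * ε) * (1000001 / 1000000 * ε) :=
      mul_le_mul b1 a4 a3.le (by positivity)
    have h5 : (11 / 10 ^ 5 * ε) * (1000001 / 1000000 * ε) =
        (11 / 10 ^ 5 * (1000001 / 1000000)) * ε ^ 2 := by ring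
    rw [h5] at h4
    exact h4.trans (mul_le_mul_of_nonneg_right (by norm_num) hε20.le)
  have b1j : cK * ε1 ^ 2 * j ≤ 11 / 10 ^ 5 * ε * j := mul_le_mul_of_nonneg_right b1 hj.le
  have b2j : cK * ε1 ^ 3 * j ≤ 12 / 10 ^ 5 * ε ^ 2 * j := mul_le_mul_of_nonneg_right b2 hj.le
  have c1 : ε1 * (1 - 2 * ε1) ≤ ε - 99 / 100 * ε ^ 2 := by
    have h3 : ε1 * (1 - 2 * ε1) = ε1 - 2 * ε1 ^ 2 := by ring
    rw [h3]
    linarith
  have c2 : 99999 / 100000 * ε ≤ ε1 * (1 - 2 * ε1) := by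
    have h3 : ε1 * (1 - 2 * ε1) = ε1 - 2 * ε1 ^ 2 := by ring
    rw [h3]
    linarith
  have c1j := mul_le_mul_of_nonneg_right c1 hj.le
  have c2j := mul_le_mul_of_nonneg_right c2 hj.le
  have hε2j : ε ^ 2 * j ≤ 1 / 10 ^ 6 * ε * j := mul_le_mul_of_nonneg_right hε2 hj.le
  have hεj : 0 < ε * j := by positivity
  have hε2j0 : 0 < ε ^ 2 * j := by positivity
  have d1 : L0 ≤ (ε - 98 / 100 * ε ^ 2) * j := by
    have h3 : (ε - 98 / 100 * ε ^ 2) * j = (ε - 99 / 100 * ε ^ 2) * j + 1 / 100 * (ε ^ 2 * j) := by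
      ring
    rw [h3]
    linarith
  have d2 : 9999 / 10000 * (ε * j) ≤ L0 := by linarith
  have d1' : L0 ≤ ε * j := by
    have h3 : (ε - 98 / 100 * ε ^ 2) * j = ε * j - 98 / 100 * (ε ^ 2 * j) := by ring
    rw [h3] at d1
    linarith
  have c3 : ε1 * (1 + 2 * ε1) ≤ 10001 / 10000 * ε := by
    have h3 : ε1 * (1 + 2 * ε1) = ε1 + 2 * ε1 ^ 2 := by ring
    rw [h3]
    linarith
  have c3j := mul_le_mul_of_nonneg_right c3 hj.le
  have d3 : L2 ≤ 10002 / 10000 * ε * j := by linarith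
  have d4 : L1 ≤ 4001 / 1000 * ε ^ 2 * j := by
    have h3 := mul_le_mul_of_nonneg_right b0 hj.le
    linarith
  have e1 : 3 / 4 * ε1 * j ≤ 75001 / 100000 * (ε * j) := by
    have := mul_le_mul_of_nonneg_right a4 hj.le
    linarith
  have e2 : 74999 / 100000 * (ε * j) ≤ 3 / 4 * ε1 * j := by
    have := mul_le_mul_of_nonneg_right a5 hj.le
    linarith
  refine ⟨d1, by linarith, d3, d4, ?_, ?_⟩
  · linarith
  · linarith

/-- `D` in terms of `E` -/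
theorem coreB (ε E D α r : ℝ) (hε : 0 < ε) (hs : ε ≤ 1 / 10 ^ 6) (hE : 0 < E)
    (hD : |D - (1 - α ^ 2) * E| ≤ ε / 10 ^ 4 * E)
    (hr2 : r ^ 2 = 1 / 2) (hr3 : 7071 / 10000 ≤ r) (hr4 : r ≤ 70711 / 100000)
    (hα1 : r - 129 / 10 * ε ≤ α) (hα2 : α ≤ r + 1 / 10 * ε) :
    D ≤ (1 / 2 + 18246 / 1000 * ε) * E ∧ (1 / 2 - 143 / 1000 * ε) * E ≤ D := by
  rw [abs_le] at hD
  have hα0 : 0 ≤ α := by linarith
  have hε20 : 0 < ε ^ 2 := by positivity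
  have hε2 : ε ^ 2 ≤ 1 / 10 ^ 6 * ε := by
    rw [pow_two]
    exact mul_le_mul_of_nonneg_right hs hε.le
  have hrε : r * ε ≤ 70711 / 100000 * ε := mul_le_mul_of_nonneg_right hr4 hε.le
  have g1 : α ^ 2 ≤ 1 / 2 + 142 / 1000 * ε := by
    have h3 : α ^ 2 ≤ (r + 1 / 10 * ε) ^ 2 := pow_le_pow_left₀ hα0 hα2 2
    have h4 : (r + 1 / 10 * ε) ^ 2 = r ^ 2 + 1 / 5 * (r * ε) + 1 / 100 * ε ^ 2 := by ring
    rw [h4, hr2] at h3
    linarith
  have g2 : 1 / 2 - 18245 / 1000 * ε ≤ α ^ 2 := by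
    have h3 : (r - 129 / 10 * ε) ^ 2 ≤ α ^ 2 := pow_le_pow_left₀ (by linarith) hα1 2
    have h4 : (r - 129 / 10 * ε) ^ 2 = r ^ 2 - 129 / 5 * (r * ε) + (129 / 10) ^ 2 * ε ^ 2 := by ring
    rw [h4, hr2] at h3
    have h5 : 0 ≤ (129 / 10 : ℝ) ^ 2 * ε ^ 2 := by positivity
    linarith
  have g1E := mul_le_mul_of_nonneg_right g1 hE.le
  have g2E := mul_le_mul_of_nonneg_right g2 hE.le
  have hεE : 0 < ε * E := by positivity
  constructor <;> linarith [hD.1, hD.2]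

/-- the comparison of the lengths -/
theorem core (ε K' E j L0 L1 L2 D α α' Vs Gs : ℝ)
    (hε : 0 < ε) (hs : ε ≤ 1 / 10 ^ 6) (hK' : K' * ε ≤ 1 / 10 ^ 4) (hE : 0 < E) (hj : 0 < j)
    (d1 : L0 ≤ (ε - 98 / 100 * ε ^ 2) * j) (d3 : L2 ≤ 10002 / 10000 * ε * j)
    (d4 : L1 ≤ 4001 / 1000 * ε ^ 2 * j) (f1 : (1 / 2 - 12502 / 10000 * ε) * j ≤ D)
    (f2 : D ≤ (1 / 2 - 12495 / 10000 * ε) * j)
    (f3 : D ≤ (1 / 2 + 18246 / 1000 * ε) * E) (f4 : (1 / 2 - 143 / 1000 * ε) * E ≤ D)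
    (hα : 7070 / 10000 ≤ α) (hα' : |α'| ≤ 17 / 100 / ε)
    (hVs : ε * (1 + 41 * ε) * E ≤ Vs) (hGs0 : 0 < Gs) (hGs : ε * α * (1 - K' * ε) * E ≤ |α'| * Gs) :
    L0 < Vs ∧ L1 < Gs ∧ E + L0 / 2 + L2 < j ∧ L0 / 2 < E := by
  have hεE : 0 < ε * E := by positivity
  have hε20 : 0 < ε ^ 2 := by positivity
  have hε2 : ε ^ 2 ≤ 1 / 10 ^ 6 * ε := by
    rw [pow_two]
    exact mul_le_mul_of_nonneg_right hs hε.le
  -- j in terms of E
  have hu : j ≤ (1 + 391 / 10 * ε) * E := by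
    by_contra hcon
    push Not at hcon
    have h3 : 0 < 1 / 2 - 12502 / 10000 * ε := by linarith
    have h4 := mul_lt_mul_of_pos_left hcon h3
    have h5 : (1 / 2 - 12502 / 10000 * ε) * ((1 + 391 / 10 * ε) * E) =
        (1 / 2 + (391 / 20 - 12502 / 10000) * ε) * E - 12502 / 10000 * (391 / 10) * ε * (ε * E) := by
      ring
    have h6 : 12502 / 10000 * (391 / 10) * ε * (ε * E) ≤ 1 / 10 ^ 4 * (ε * E) := by
      apply mul_le_mul_of_nonneg_right _ hεE.le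
      linarith
    rw [h5] at h4
    linarith
  have hl : (1 + 22 / 10 * ε) * E ≤ j := by
    by_contra hcon
    push Not at hcon
    have h3 : 0 < 1 / 2 - 12495 / 10000 * ε := by linarith
    have h4 := mul_lt_mul_of_pos_left hcon h3
    have h5 : (1 / 2 - 12495 / 10000 * ε) * ((1 + 22 / 10 * ε) * E) =
        (1 / 2 + (22 / 20 - 12495 / 10000) * ε) * E - 12495 / 10000 * (22 / 10) * ε * (ε * E) := by
      ring
    have h6 : 0 ≤ 12495 / 10000 * (22 / 10) * ε * (ε * E) := by positivity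
    rw [h5] at h4
    linarith
  have hεEj : ε * j ≤ ε * ((1 + 391 / 10 * ε) * E) := mul_le_mul_of_nonneg_left hu hε.le
  have hε2j0 : 0 < ε ^ 2 * j := by positivity
  refine ⟨?_, ?_, ?_, ?_⟩
  · refine lt_of_lt_of_le ?_ hVs
    refine lt_of_le_of_lt d1 ?_
    have h3 : 0 ≤ ε - 98 / 100 * ε ^ 2 := by linarith
    have h4 := mul_le_mul_of_nonneg_left hu h3
    refine lt_of_le_of_lt h4 ?_
    have h5 : ε * (1 + 41 * ε) * E - (ε - 98 / 100 * ε ^ 2) * ((1 + 391 / 10 * ε) * E) =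
        (ε * E) * ((41 - 391 / 10 + 98 / 100) * ε + 98 / 100 * (391 / 10) * ε ^ 2) := by ring
    have h6 : 0 < (ε * E) * ((41 - 391 / 10 + 98 / 100) * ε + 98 / 100 * (391 / 10) * ε ^ 2) := by
      apply mul_pos hεE
      positivity
    linarith
  · have h3 : |α'| * Gs ≤ 17 / 100 / ε * Gs := mul_le_mul_of_nonneg_right hα' hGs0.le
    have h4 : ε * (17 / 100 / ε * Gs) = 17 / 100 * Gs := by
      field_simp
    have h5 : ε * (ε * α * (1 - K' * ε) * E) ≤ 17 / 100 * Gs := by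
      rw [← h4]
      exact mul_le_mul_of_nonneg_left (hGs.trans h3) hε.le
    have h6 : 7069 / 10000 ≤ α * (1 - K' * ε) := by
      have h7 : (7070 / 10000 : ℝ) * (1 - 1 / 10 ^ 4) ≤ α * (1 - K' * ε) :=
        mul_le_mul hα (by linarith) (by norm_num) (by linarith)
      refine le_trans ?_ h7
      norm_num
    have h7 : 7069 / 10000 * (ε ^ 2 * E) ≤ ε * (ε * α * (1 - K' * ε) * E) := by
      have h8 : ε * (ε * α * (1 - K' * ε) * E) = (α * (1 - K' * ε)) * (ε ^ 2 * E) := by ring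
      rw [h8]
      exact mul_le_mul_of_nonneg_right h6 (by positivity)
    have h9 : ε ^ 2 * j ≤ ε ^ 2 * ((1 + 391 / 10 * ε) * E) :=
      mul_le_mul_of_nonneg_left hu (by positivity)
    have h10 : ε ^ 2 * ((1 + 391 / 10 * ε) * E) ≤ 10001 / 10000 * (ε ^ 2 * E) := by
      have h11 : ε ^ 2 * ((1 + 391 / 10 * ε) * E) = (1 + 391 / 10 * ε) * (ε ^ 2 * E) := by ring
      rw [h11]
      apply mul_le_mul_of_nonneg_right _ (by positivity)
      linarith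
    have h12 : 0 < ε ^ 2 * E := by positivity
    linarith
  · have h3 : E + L0 / 2 + L2 ≤ E + 15003 / 10000 * (ε * j) := by
      have h4 : (ε - 98 / 100 * ε ^ 2) * j = ε * j - 98 / 100 * (ε ^ 2 * j) := by ring
      rw [h4] at d1
      linarith
    refine lt_of_le_of_lt h3 ?_
    have h4 : 0 < 1 - 15003 / 10000 * ε := by linarith
    have h5 := mul_le_mul_of_nonneg_left hl h4.le
    have h6 : (1 - 15003 / 10000 * ε) * ((1 + 22 / 10 * ε) * E) =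
        E + (22 / 10 - 15003 / 10000) * (ε * E) - 15003 / 10000 * (22 / 10) * ε * (ε * E) := by ring
    have h7 : 15003 / 10000 * (22 / 10) * ε * (ε * E) ≤ 1 / 10 ^ 4 * (ε * E) := by
      apply mul_le_mul_of_nonneg_right _ hεE.le
      linarith
    rw [h6] at h5
    linarith
  · have h3 : ε * j ≤ 1 / 10 ^ 5 * E := by
      refine hεEj.trans ?_
      have h4 : ε * ((1 + 391 / 10 * ε) * E) ≤ ε * (2 * E) := by
        apply mul_le_mul_of_nonneg_left _ hε.le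
        apply mul_le_mul_of_nonneg_right _ hE.le
        linarith
      have h5 := mul_le_mul_of_nonneg_right hs hE.le
      linarith
    have h4 : (ε - 98 / 100 * ε ^ 2) * j = ε * j - 98 / 100 * (ε ^ 2 * j) := by ring
    rw [h4] at d1
    linarith

/-- gaps with the same label are equal -/
theorem gap_eq (hP2 : ST_P2) {Hm Hp : ℝ} {C : Set ℝ} {cd : CD Hm Hp C} (hHm : 0 < Hm)
    (V W : Gap cd) (h : V.N = W.N) : V = W := by
  obtain ⟨-, -, -, -, h5, h6, -⟩ := hP2 Hm Hp C cd hHm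
  rcases lt_trichotomy V.a W.a with h1 | h1 | h1
  · exact absurd h (h5 V W h1).2.ne
  · exact h6 V W h1
  · exact absurd h.symm (h5 W V h1).2.ne

theorem gap_out {Hm Hp : ℝ} {C : Set ℝ} {cd : CD Hm Hp C} (V : Gap cd) (y : ℝ)
    (h : |y - V.c| < V.s / 2) : y ∉ C := by
  apply V.out
  unfold Gap.c Gap.s at h
  rw [abs_lt] at h
  constructor <;> linarith [h.1, h.2]

theorem phi3 : phi ^ 3 ≤ 442 / 100 := by
  have h5 : Real.sqrt 5 ^ 2 = 5 := Real.sq_sqrt (by norm_num)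
  have h6 : Real.sqrt 5 ≤ 224 / 100 := by
    rw [Real.sqrt_le_left (by norm_num)]
    norm_num
  have h7 : phi ^ 3 = Real.sqrt 5 + 2 := by
    unfold phi
    have : ((Real.sqrt 5 + 1) / 2) ^ 3 =
        (Real.sqrt 5 ^ 2 * Real.sqrt 5 + 3 * Real.sqrt 5 ^ 2 + 3 * Real.sqrt 5 + 1) / 8 := by ring
    rw [this, h5]
    ring
  rw [h7]
  linarith

/-- the parameter near the centre -/
theorem near (ls l : ℝ) (h1 : 1 ≤ ls) (h : |l - ls| ≤ 1 / 4) :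
    |1 / (2 * l) - 1 / (2 * ls)| ≤ (1 / (2 * ls)) ^ 2 := by
  rw [abs_le] at h
  have hl : 0 < l := by linarith [h.1]
  have hls : 0 < ls := by linarith
  have e1 : 1 / (2 * l) - 1 / (2 * ls) = (ls - l) / (2 * l * ls) := by
    field_simp
  have e2 : (1 / (2 * ls)) ^ 2 = (l / (2 * ls)) / (2 * l * ls) := by
    field_simp
  rw [e1, e2, abs_div, abs_of_pos (by positivity : 0 < 2 * l * ls)]
  apply div_le_div_of_nonneg_right _ (by positivity)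
  have e3 : 1 / 4 ≤ l / (2 * ls) := by
    rw [le_div_iff₀ (by positivity)]
    linarith [h.1]
  rw [abs_le]
  constructor <;> linarith [h.1, h.2]

/-- the facts on a piece and its children at a coupling -/
theorem kd_facts {ε cK : ℝ} {K : Set ℝ} {ι : Type} {lo hi t : ι → ℝ} {g : Fin 3 → ι → ι}
    (h : IsKD ε cK K lo hi t g) (j : ι) (ht : t j = -1) :
    0 < hi j - lo j ∧
    |(hi (g 0 j) - lo (g 0 j)) - ε * (1 - 2 * ε) * (hi j - lo j)| ≤ cK * ε ^ 3 * (hi j - lo j) ∧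
    |(hi (g 2 j) - lo (g 2 j)) - ε * (1 + 2 * ε) * (hi j - lo j)| ≤ cK * ε ^ 3 * (hi j - lo j) ∧
    |(hi (g 1 j) - lo (g 1 j)) - 4 * ε ^ 2 * (hi j - lo j)| ≤ cK * ε ^ 3 * (hi j - lo j) ∧
    |((hi (g 1 j) + lo (g 1 j)) / 2 - (hi j + lo j) / 2) + 3 / 4 * ε * (hi j - lo j)| ≤
      cK * ε ^ 2 * (hi j - lo j) ∧
    (hi (g 1 j) + lo (g 1 j)) / 2 - (hi (g 0 j) + lo (g 0 j)) / 2 =
      ((hi (g 1 j) + lo (g 1 j)) / 2 - (hi j + lo j) / 2) + (hi j - lo j) / 2 -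
        (hi (g 0 j) - lo (g 0 j)) / 2 := by
  have h1 := h.nL j
  have h2 := h.nR j
  have h3 := h.nA j
  have h4 := h.cA j
  have h5 := h.lL j
  rw [ht] at h1 h2 h4
  refine ⟨by linarith [h.lt j], ?_, ?_, h3, ?_, ?_⟩
  · have e : 1 - 2 * ε = 1 + 2 * ε * -1 := by ring
    rw [e]
    exact h1
  · have e : 1 + 2 * ε = 1 - 2 * ε * -1 := by ring
    rw [e]
    exact h2
  · have e : (hi (g 1 j) + lo (g 1 j)) / 2 - (hi j + lo j) / 2 + 3 / 4 * ε * (hi j - lo j) =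
        (hi (g 1 j) + lo (g 1 j)) / 2 - (hi j + lo j) / 2 - 3 / 4 * -1 * ε * (hi j - lo j) := by ring
    rw [e]
    exact h4
  · rw [h5]
    ring

/-- the left child is at most half as long -/
theorem kd_half {ε cK : ℝ} {K : Set ℝ} {ι : Type} {lo hi t : ι → ℝ} {g : Fin 3 → ι → ι}
    (h : IsKD ε cK K lo hi t g) (hε : 0 < ε) (hs : ε ≤ 1 / 10 ^ 6)     (hc : cK * ε ≤ 1 / 10 ^ 4) (j : ι) :
    hi (g 0 j) - lo (g 0 j) ≤ 1 / 2 * (hi j - lo j) := by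
  have h1 := h.nL j
  have hp : 0 < hi j - lo j := by linarith [h.lt j]
  rw [abs_le] at h1
  have h2 : ε * (1 + 2 * ε * t j) ≤ 1 / 4 := by
    have h3 : 1 + 2 * ε * t j ≤ 2 := by
      rcases h.tv j with h4 | h4 | h4 <;> rw [h4] <;> linarith
    have h5 := mul_le_mul_of_nonneg_left h3 hε.le
    linarith
  have h6 : cK * ε ^ 3 ≤ 1 / 4 := by
    have h7 : cK * ε ^ 3 = (cK * ε) * (ε * ε) := by ring
    rw [h7]
    have h8 : ε * ε ≤ 1 * 1 := mul_le_mul (by linarith) (by linarith) hε.le (by norm_num)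
    have h9 : (cK * ε) * (ε * ε) ≤ (1 / 10 ^ 4) * (1 * 1) :=
      mul_le_mul hc h8 (by positivity) (by norm_num)
    linarith
  have h10 := mul_le_mul_of_nonneg_right h2 hp.le
  have h11 := mul_le_mul_of_nonneg_right h6 hp.le
  linarith [h1.2]

theorem st_E10 (hP2 : ST_P2) (hE5 : ST_E5) (hE7 : ST_E7) (hE8 : ST_E8) (hE9 : ST_E9) :
    ST_E10 := by
  intro cK hcK
  obtain ⟨K, ε5, hK, hε5, h5⟩ := hE5
  obtain ⟨ε7, hε7, h7⟩ := hE7 K hK
  obtain ⟨K', ε8, hK', hε8, h8⟩ := hE8 K hK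
  refine ⟨min ε5 (min ε7 (min ε8 (min (1 / 10 ^ 6) (min (1 / (10 ^ 4 * cK))
    (1 / (10 ^ 4 * K')))))), ?_, ?_⟩
  · refine lt_min hε5 (lt_min hε7 (lt_min hε8 (lt_min (by norm_num) (lt_min ?_ ?_))))
    · positivity
    · positivity
  intro Hm Hp C cd A0 B0 Kf hA0 hε0 hPar F e w η a b hη ha hab hb
  simp only [le_min_iff] at hε0
  obtain ⟨q5, q7, q8, q6, qc, qk⟩ := hε0
  -- the parameter at a coupling
  have hpar : ∀ l ∈ Ioo A0 B0, 0 < 1 / (2 * l) ∧ 1 / (2 * l) ≤ 1 / (2 * A0) := by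
    intro l hl
    have h0 : 0 < l := hA0.trans hl.1
    refine ⟨by positivity, ?_⟩
    apply one_div_le_one_div_of_le (by positivity)
    linarith [hl.1]
  have hsm : ∀ l ∈ Ioo A0 B0, 0 < 1 / (2 * l) ∧ 1 / (2 * l) ≤ 1 / 10 ^ 6 ∧
      cK * (1 / (2 * l)) ≤ 1 / 10 ^ 4 := by
    intro l hl
    obtain ⟨h1, h2⟩ := hpar l hl
    refine ⟨h1, h2.trans q6, ?_⟩
    have h3 := mul_le_mul_of_nonneg_left (h2.trans qc) (by linarith : 0 ≤ cK)
    refine h3.trans (le_of_eq ?_)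
    field_simp
  obtain ⟨ls, hls⟩ : ∃ ls : ℝ, ls = (a + b) / 2 := ⟨_, rfl⟩
  have hlsI : ls ∈ Ioo A0 B0 := ⟨by linarith, by linarith⟩
  obtain ⟨ε, hεd⟩ : ∃ ε : ℝ, ε = 1 / (2 * ls) := ⟨_, rfl⟩
  obtain ⟨hε, hs, hc⟩ := hsm ls hlsI
  have hpls := (hpar ls hlsI).2
  have hP2e := hPar ls hlsI
  rw [← hεd] at hε hs hc hpls hP2e
  have hk : K' * ε ≤ 1 / 10 ^ 4 := by
    have h3 := mul_le_mul_of_nonneg_left (hpls.trans qk) (by linarith : 0 ≤ K')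
    refine h3.trans (le_of_eq ?_)
    field_simp
  have hls0 : 0 < ls := hA0.trans hlsI.1
  have hls1 : 1 ≤ ls := by
    have h1 : 1 / (2 * ls) ≤ 1 / 10 ^ 6 := by rw [← hεd]; exact hs
    have h2 : (10 : ℝ) ^ 6 ≤ 2 * ls := (one_div_le_one_div (by positivity) (by norm_num)).1 h1
    linarith
  have hHm : 0 < Hm := by
    have h1 := hP2e.2.2
    have h2 : 0 < ε * (1 + 42 * ε) := by positivity
    have h3 : 0 < 4 * Real.sqrt 5 := by positivity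
    have h4 : 0 < 4 * Real.sqrt 5 * Hm := lt_of_lt_of_le h2 h1
    exact (mul_pos_iff_of_pos_left h3).1 h4
  have hPe : Par ε Hm Hp := ⟨hε, hHm, hP2e.2.1⟩
  obtain ⟨r, hr, hr2, hr3, hr4⟩ := rr
  -- the numbers
  obtain ⟨z, hz1, hz2, hz3, hz4⟩ := hE9.2 (r - 129 / 10 * ε) (13 * ε) (-(17 / 100 / ε))
    (34 / 100 / ε) (by positivity) (by positivity) (by
      have h1 : 13 * ε * (34 / 100 / ε) = 442 / 100 := by
        field_simp
        norm_num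
      rw [h1]
      exact phi3)
  have hα2 : zv z ≤ r + 1 / 10 * ε := by linarith
  have hα' : |zc z| ≤ 17 / 100 / ε := by
    rw [abs_le]
    refine ⟨hz3, hz4.trans (le_of_eq ?_)⟩
    ring
  have hzα : |zv z - 1 / Real.sqrt 2| ≤ 20 * ε := by
    rw [← hr, abs_le]
    constructor <;> linarith
  have hzα' : 5 * ε * |zc z| ≤ 1 := by
    have h1 := mul_le_mul_of_nonneg_left hα' (by positivity : 0 ≤ 5 * ε)
    have h2 : 5 * ε * (17 / 100 / ε) = 85 / 100 := by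
      field_simp
      norm_num
    rw [h2] at h1
    linarith
  -- the gaps
  obtain ⟨n0, hn0⟩ := h7 ε Hm Hp C cd hP2e (hpls.trans q7) e
    (h5 ε Hm Hp C cd hPe (hpls.trans q5) e) (η / 2) (by linarith)
  have hn1 := fun i : ℕ => hn0 (n0 + i) (Nat.le_add_right _ _)
  choose V V' A hV using hn1
  have hG1 := fun i : ℕ => h8 ε Hm Hp C cd hP2e (hpls.trans q8) e (n0 + i) ((V i).c - e.c) (A i)
    (hV i).2.2.2.2.1 (hV i).2.2.2.2.2.1 (hV i).2.2.2.2.2.2.1 z hzα hzα'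
  choose G hG using hG1
  obtain ⟨E, hE⟩ : ∃ E : ℕ → ℝ, ∀ i, E i = (V i).c - e.c := ⟨_, fun i => rfl⟩
  obtain ⟨D, hD⟩ : ∃ D : ℕ → ℝ, ∀ i, D i = (V i).c - (G i).c := ⟨_, fun i => rfl⟩
  have hE0 : ∀ i, 0 < E i := fun i => by rw [hE]; linarith [(hV i).2.2.1]
  have hEη : ∀ i, E i < η / 2 := fun i => by rw [hE]; exact (hV i).2.2.2.1
  have hVV : ∀ i, V' i = V (i + 1) := by
    intro i
    apply gap_eq hP2 hHm
    rw [(hV i).2.1, (hV (i + 1)).1]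
    rfl
  have hEs : ∀ i, 3 / 10 * E i ≤ E (i + 1) ∧ E (i + 1) ≤ 9 / 20 * E i := by
    intro i
    have h1 := (hV i).2.2.2.2.2.2.2.2
    rw [hVV i] at h1
    rw [hE, hE]
    exact h1
  have hDB : ∀ i, D i ≤ (1 / 2 + 18246 / 1000 * ε) * E i ∧ (1 / 2 - 143 / 1000 * ε) * E i ≤ D i := by
    intro i
    refine coreB ε (E i) (D i) (zv z) r hε hs (hE0 i) ?_ hr2 hr3 hr4 hz1 hα2
    have h1 := (hG i).2.1
    have h2 := pow95 ε hε hs
    rw [← hE] at h1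
    have h3 := mul_le_mul_of_nonneg_right h2 (hE0 i).le
    have h4 : D i - (1 - zv z ^ 2) * E i = -((G i).c - e.c - zv z ^ 2 * E i) := by
      rw [hD]
      have := hE i
      linarith
    rw [h4, abs_neg]
    exact h1.trans h3
  have hDB' : ∀ i, D i ≤ 51 / 100 * E i ∧ 49 / 100 * E i ≤ D i := by
    intro i
    obtain ⟨h1, h2⟩ := hDB i
    have h3 : ε * E i ≤ 1 / 10 ^ 6 * E i := mul_le_mul_of_nonneg_right hs (hE0 i).le
    have h4 := hE0 i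
    constructor <;> linarith
  have hD0 : ∀ i, 0 < D i := fun i => by linarith [(hDB' i).2, hE0 i]
  have hDs : ∀ i, 28 / 100 * D i ≤ D (i + 1) := by
    intro i
    have h1 := (hDB' i).1
    have h2 := (hDB' (i + 1)).2
    have h3 := (hEs i).1
    linarith [hE0 i]
  have hEp : ∀ i, E i ≤ (1 / 2) ^ i * E 0 := by
    intro i
    induction i with
    | zero => simp
    | succ i ih =>
      have h1 := (hEs i).2
      rw [pow_succ]
      linarith [hE0 i]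
  -- the interval of couplings
  obtain ⟨δ0, hδ0⟩ : ∃ δ0 : ℝ, δ0 = min (1 / 4) ((b - a) / 4) := ⟨_, rfl⟩
  have hδ1 : 0 < δ0 := by
    rw [hδ0]
    exact lt_min (by norm_num) (by linarith)
  have hδ2 : δ0 ≤ 1 / 4 := by rw [hδ0]; exact min_le_left _ _
  have hδ3 : δ0 ≤ (b - a) / 4 := by rw [hδ0]; exact min_le_right _ _
  have hI : ∀ l ∈ Icc (ls - δ0) (ls + δ0), l ∈ Ioo a b ∧ l ∈ Ioo A0 B0 ∧
      |1 / (2 * l) - ε| ≤ ε ^ 2 := by
    intro l hl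
    have h1 : a < l := by linarith [hl.1]
    have h2 : l < b := by linarith [hl.2]
    refine ⟨⟨h1, h2⟩, ⟨ha.trans h1, h2.trans hb⟩, ?_⟩
    rw [hεd]
    apply near ls l hls1
    rw [abs_le]
    constructor <;> linarith [hl.1, hl.2]
  -- the pieces
  obtain ⟨W, hW⟩ : ∃ W : ℕ → F.ι, ∀ m, W m = (F.g 0)^[m] w := ⟨_, fun m => rfl⟩
  have hWs : ∀ m, W (m + 1) = F.g 0 (W m) := by
    intro m
    rw [hW, hW, Function.iterate_succ_apply']
  have hW0 : W 0 = w := by rw [hW]; rfl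
  have hWt : ∀ m, 1 ≤ m → F.t (W m) = -1 := by
    intro m hm
    obtain ⟨m', rfl⟩ : ∃ m', m = m' + 1 := ⟨m - 1, by omega⟩
    rw [hWs, (F.kd ls hlsI).tc]
    norm_num
  have hWl : ∀ l ∈ Ioo A0 B0, ∀ m, F.lo (W m) l = F.lo w l := by
    intro l hl m
    induction m with
    | zero => rw [hW0]
    | succ m ih =>
      rw [hWs]
      exact ((F.kd l hl).lL (W m)).trans ih
  obtain ⟨M, hM⟩ : ∃ M : ℕ → ℝ → ℝ, ∀ m l, M m l = (F.hi (F.g 1 (W m)) l + F.lo (F.g 1 (W m)) l) / 2 -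
    (F.hi (F.g 0 (W m)) l + F.lo (F.g 0 (W m)) l) / 2 := ⟨_, fun m l => rfl⟩
  have hMc : ∀ l ∈ Ioo A0 B0, ∀ m, 1 ≤ m → 0 < F.hi (W m) l - F.lo (W m) l ∧
      49 / 100 * (F.hi (W m) l - F.lo (W m) l) ≤ M m l ∧
      M m l ≤ (F.hi (W m) l - F.lo (W m) l) / 2 := by
    intro l hl m hm
    obtain ⟨h1, h2, h3⟩ := hsm l hl
    obtain ⟨k0, k1, -, -, k4, k5⟩ := kd_facts (F.kd l hl) (W m) (hWt m hm)
    have h6 := crude (1 / (2 * l)) cK _ _ _ h1 h2 hcK h3 k0 k1 k4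
    rw [hM, k5]
    exact ⟨k0, h6.1, h6.2⟩
  have ha1 : ls - δ0 ∈ Icc (ls - δ0) (ls + δ0) := ⟨le_refl _, by linarith⟩
  have hb1 : ls + δ0 ∈ Icc (ls - δ0) (ls + δ0) := ⟨by linarith, le_refl _⟩
  obtain ⟨-, ha1I, -⟩ := hI _ ha1
  obtain ⟨-, hb1I, -⟩ := hI _ hb1
  obtain ⟨m0, hm0⟩ := F.g1 w (ls - δ0) (ls + δ0) ha1I.1 (by linarith) hb1I.2 (Real.log 5)
  have hja : ∀ m, F.hi (W m) (ls - δ0) - F.lo (W m) (ls - δ0) ≤
      (1 / 2) ^ m * (F.hi w (ls - δ0) - F.lo w (ls - δ0)) := by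
    intro m
    induction m with
    | zero => rw [hW0]; simp
    | succ m ih =>
      obtain ⟨h1, h2, h3⟩ := hsm _ ha1I
      have h4 := kd_half (F.kd _ ha1I) h1 h2 h3 (W m)
      rw [hWs, pow_succ]
      linarith
  have hjw : 0 < F.hi w (ls - δ0) - F.lo w (ls - δ0) := by
    have := (F.kd _ ha1I).lt w
    linarith
  obtain ⟨m1, hm1⟩ : ∃ m1 : ℕ, (1 / 2 : ℝ) ^ m1 < 2 * D 0 / (F.hi w (ls - δ0) - F.lo w (ls - δ0)) :=
    exists_pow_lt_of_lt_one (div_pos (by linarith [hD0 0]) hjw) (by norm_num)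
  obtain ⟨m, hmm0, hmm1, hm⟩ : ∃ m : ℕ, m0 ≤ m ∧ m1 ≤ m ∧ 1 ≤ m :=
    ⟨max m0 (max m1 1), le_max_left _ _, le_trans (le_max_left _ _) (le_max_right _ _),
      le_trans (le_max_right _ _) (le_max_right _ _)⟩
  obtain ⟨ja0, ja1, ja2⟩ := hMc _ ha1I m hm
  obtain ⟨jb0, jb1, jb2⟩ := hMc _ hb1I m hm
  have hMa : M m (ls - δ0) ≤ D 0 := by
    have h1 := hja m
    have h2 : (1 / 2 : ℝ) ^ m ≤ (1 / 2) ^ m1 :=
      pow_le_pow_of_le_one (by norm_num) (by norm_num) hmm1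
    have h3 := mul_le_mul_of_nonneg_right h2 hjw.le
    rw [lt_div_iff₀ hjw] at hm1
    linarith
  have h5j : 5 * (F.hi (W m) (ls + δ0) - F.lo (W m) (ls + δ0)) ≤
      F.hi (W m) (ls - δ0) - F.lo (W m) (ls - δ0) := by
    have h1 := hm0 m hmm0
    rw [← hW] at h1
    have h2 : Real.log 5 + Real.log (F.hi (W m) (ls + δ0) - F.lo (W m) (ls + δ0)) ≤
        Real.log (F.hi (W m) (ls - δ0) - F.lo (W m) (ls - δ0)) := by linarith
    rw [← Real.log_mul (by norm_num) jb0.ne'] at h2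
    exact (Real.log_le_log_iff (by positivity) ja0).1 h2
  have hMb : M m (ls + δ0) ≤ 28 / 100 * M m (ls - δ0) := by linarith
  have hMa0 : 0 < M m (ls - δ0) := by linarith
  -- the choice of the index
  have hex : ∃ i, D i ≤ M m (ls - δ0) := by
    obtain ⟨i, hi⟩ : ∃ i : ℕ, (1 / 2 : ℝ) ^ i < M m (ls - δ0) / E 0 :=
      exists_pow_lt_of_lt_one (div_pos hMa0 (hE0 0)) (by norm_num)
    refine ⟨i, ?_⟩
    rw [lt_div_iff₀ (hE0 0)] at hi
    have h1 := hEp i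
    have h2 := (hDB' i).1
    linarith [hE0 i]
  obtain ⟨i, hi1, hi2⟩ : ∃ i, D i ≤ M m (ls - δ0) ∧ M m (ls + δ0) ≤ D i := by
    classical
    refine ⟨Nat.find hex, Nat.find_spec hex, ?_⟩
    rcases Nat.eq_zero_or_pos (Nat.find hex) with h0 | h0
    · rw [h0]
      linarith
    · obtain ⟨i', hi'⟩ : ∃ i', Nat.find hex = i' + 1 := ⟨Nat.find hex - 1, by omega⟩
      have h1 : ¬ D i' ≤ M m (ls - δ0) := Nat.find_min hex (by omega)
      push Not at h1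
      rw [hi']
      have h2 := hDs i'
      linarith
  -- the coupling
  have hcont : ContinuousOn (M m) (Icc (ls - δ0) (ls + δ0)) := by
    have hsub : Icc (ls - δ0) (ls + δ0) ⊆ Ioo A0 B0 := fun l hl => (hI l hl).2.1
    have e1 : M m = fun l => (F.hi (F.g 1 (W m)) l + F.lo (F.g 1 (W m)) l) / 2 -
        (F.hi (F.g 0 (W m)) l + F.lo (F.g 0 (W m)) l) / 2 := funext fun l => hM m l
    rw [e1]
    exact ((((F.chh _).mono hsub).add ((F.cl _).mono hsub)).div_const 2).sub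
      ((((F.chh _).mono hsub).add ((F.cl _).mono hsub)).div_const 2)
  obtain ⟨l1, hl1, hl1M⟩ := intermediate_value_Icc' (by linarith : ls - δ0 ≤ ls + δ0) hcont
    ⟨hi2, hi1⟩
  obtain ⟨hl1ab, hl1I, hl1ε⟩ := hI l1 hl1
  obtain ⟨k0, k1, k2, k3, k4, k5⟩ := kd_facts (F.kd l1 hl1I) (W m) (hWt m hm)
  have hMD : ((F.hi (F.g 1 (W m)) l1 + F.lo (F.g 1 (W m)) l1) / 2 -
      (F.hi (W m) l1 + F.lo (W m) l1) / 2) + (F.hi (W m) l1 - F.lo (W m) l1) / 2 -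
        (F.hi (F.g 0 (W m)) l1 - F.lo (F.g 0 (W m)) l1) / 2 = D i := by
    rw [← k5, ← hM]
    exact hl1M
  obtain ⟨d1, d2, d3, d4, f1, f2⟩ := coreA ε (1 / (2 * l1)) cK _ _ _ _ (D i) _ hε hs hcK hc hl1ε k0
    k1 k2 k3 k4 hMD
  obtain ⟨f3, f4⟩ := hDB i
  have hVs := (hV i).2.2.2.2.2.2.2.1
  have hGs := (hG i).2.2
  rw [← hE] at hVs hGs
  have hGs0 : 0 < (G i).s := by
    unfold Gap.s
    linarith [(G i).lt]
  obtain ⟨r1, r2, r3, r4⟩ := core ε K' (E i) _ _ _ _ (D i) (zv z) (zc z) (V i).s (G i).s hε hs hk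
    (hE0 i) k0 d1 d3 d4 f1 f2 f3 f4 (by linarith) hα' hVs hGs0 hGs
  have hL2 : 0 < F.hi (F.g 2 (W m)) l1 - F.lo (F.g 2 (W m)) l1 := by
    have := (F.kd l1 hl1I).lt (F.g 2 (W m))
    linarith
  have s0 : F.lo (F.g 0 (W m)) l1 = F.lo (W m) l1 := (F.kd l1 hl1I).lL (W m)
  have s2 : F.hi (F.g 2 (W m)) l1 = F.hi (W m) l1 := (F.kd l1 hl1I).hR (W m)
  have s1 := hWl l1 hl1I m
  have hGc : (G i).c = ((G i).a + (G i).b) / 2 := rfl
  have hGsd : (G i).s = (G i).b - (G i).a := rfl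
  have hl1D : (F.hi (F.g 1 (W m)) l1 + F.lo (F.g 1 (W m)) l1) / 2 -
      (F.hi (F.g 0 (W m)) l1 + F.lo (F.g 0 (W m)) l1) / 2 = (V i).c - (G i).c := by
    rw [← hM, hl1M, hD]
  have hEi := hE i
  -- openness
  have hnh : Ioo A0 B0 ∈ 𝓝 l1 := Ioo_mem_nhds hl1I.1 hl1I.2
  have cl : ∀ j, ContinuousAt (F.lo j) l1 := fun j => (F.cl j).continuousAt hnh
  have chh : ∀ j, ContinuousAt (F.hi j) l1 := fun j => (F.chh j).continuousAt hnh
  have cm : ContinuousAt (fun l => (V i).c + (F.hi (F.g 0 (W m)) l + F.lo (F.g 0 (W m)) l) / 2) l1 :=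
    continuousAt_const.add (((chh _).add (cl _)).div_const 2)
  have v1 : ∀ᶠ l in 𝓝 l1, F.hi (F.g 0 (W m)) l - F.lo (F.g 0 (W m)) l < (V i).s :=
    ((chh _).sub (cl _)).eventually_lt continuousAt_const r1
  have w2 : (G i).a <
      (V i).c + (F.hi (F.g 0 (W m)) l1 + F.lo (F.g 0 (W m)) l1) / 2 - F.hi (F.g 1 (W m)) l1 := by
    linarith
  have w3 : (V i).c + (F.hi (F.g 0 (W m)) l1 + F.lo (F.g 0 (W m)) l1) / 2 -
      F.lo (F.g 1 (W m)) l1 < (G i).b := by linarith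
  have w4 : (V i).c + (F.hi (F.g 0 (W m)) l1 + F.lo (F.g 0 (W m)) l1) / 2 -
      F.lo (F.g 2 (W m)) l1 < e.c := by linarith
  have w5 : (V i).c + (F.hi (F.g 0 (W m)) l1 + F.lo (F.g 0 (W m)) l1) / 2 -
      F.hi (W m) l1 < e.c := by linarith
  have w6 : (V i).c + (F.hi (F.g 0 (W m)) l1 + F.lo (F.g 0 (W m)) l1) / 2 -
      F.lo w l1 < e.c + η := by linarith [hEη i]
  have v2 : ∀ᶠ l in 𝓝 l1, (G i).a <
      (V i).c + (F.hi (F.g 0 (W m)) l + F.lo (F.g 0 (W m)) l) / 2 - F.hi (F.g 1 (W m)) l :=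
    (continuousAt_const).eventually_lt (cm.sub (chh _)) w2
  have v3 : ∀ᶠ l in 𝓝 l1,
      (V i).c + (F.hi (F.g 0 (W m)) l + F.lo (F.g 0 (W m)) l) / 2 - F.lo (F.g 1 (W m)) l < (G i).b :=
    (cm.sub (cl _)).eventually_lt continuousAt_const w3
  have v4 : ∀ᶠ l in 𝓝 l1,
      (V i).c + (F.hi (F.g 0 (W m)) l + F.lo (F.g 0 (W m)) l) / 2 - F.lo (F.g 2 (W m)) l < e.c :=
    (cm.sub (cl _)).eventually_lt continuousAt_const w4
  have v5 : ∀ᶠ l in 𝓝 l1,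
      (V i).c + (F.hi (F.g 0 (W m)) l + F.lo (F.g 0 (W m)) l) / 2 - F.hi (W m) l < e.c :=
    (cm.sub (chh _)).eventually_lt continuousAt_const w5
  have v6 : ∀ᶠ l in 𝓝 l1,
      (V i).c + (F.hi (F.g 0 (W m)) l + F.lo (F.g 0 (W m)) l) / 2 - F.lo w l < e.c + η :=
    (cm.sub (cl _)).eventually_lt continuousAt_const w6
  have v7 : ∀ᶠ l in 𝓝 l1, l ∈ Ioo a b := Ioo_mem_nhds hl1ab.1 hl1ab.2
  have vall := (v1.and (v2.and (v3.and (v4.and (v5.and (v6.and v7))))))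
  obtain ⟨p, q, hpq, hsub⟩ := mem_nhds_iff_exists_Ioo_subset.1 vall
  refine ⟨max p a, min q b, le_max_right _ _, ?_, min_le_right _ _, ?_⟩
  · exact lt_trans (max_lt hpq.1 hl1ab.1) (lt_min hpq.2 hl1ab.2)
  intro l hl
  have hlpq : l ∈ Ioo p q := ⟨lt_of_le_of_lt (le_max_left _ _) hl.1,
    lt_of_lt_of_le hl.2 (min_le_left _ _)⟩
  obtain ⟨u1, u2, u3, u4, u5, u6, u7⟩ := hsub hlpq
  have hlI : l ∈ Ioo A0 B0 := ⟨ha.trans u7.1, u7.2.trans hb⟩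
  have t0 : F.lo (F.g 0 (W m)) l = F.lo (W m) l := (F.kd l hlI).lL (W m)
  have t1 := hWl l hlI m
  have t3 : F.lo (F.g 0 (W m)) l < F.hi (F.g 0 (W m)) l := (F.kd l hlI).lt (F.g 0 (W m))
  refine ⟨(V i).c + (F.hi (F.g 0 (W m)) l + F.lo (F.g 0 (W m)) l) / 2, ?_, ?_, ?_⟩
  · linarith [hE0 i]
  · linarith
  · intro k hk hk1 hk2
    obtain ⟨i3, h1, h2⟩ := (F.kd l hlI).cv k hk (W m) (by linarith) (by linarith)
    have h3 : i3 = 0 ∨ i3 = 1 ∨ i3 = 2 := by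
      fin_cases i3 <;> simp
    rcases h3 with rfl | rfl | rfl
    · apply gap_out (V i)
      rw [abs_lt]
      constructor <;> linarith
    · apply (G i).out
      constructor <;> linarith
    · exfalso
      linarith

end

end Pool.Agent.Helper50.CV.E10
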