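import Pool.Agent.Helper36.CV.StmtsK

/-!
# Module K4: the tree of bands
-/

set_option autoImplicit false

namespace Pool.Agent.Helper36.CV

open Filter Topology Pointwise

noncomputable section

theorem k4_sta_mono {c c' L0 : ℝ} (hc : c ≤ c') {k : ℕ} {o s t : ℝ} {u E : ℂ → ℂ → ℂ}
    (h : Sta c L0 k o s t u E) : Sta c' L0 k o s t u E where
  toPre := h.toPre
  tt := h.tt
  u1 := fun l z hp => (h.u1 l z hp).trans (by gcongr)
  dist := fun l z hp => (h.dist l z hp).trans (by gcongr)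

theorem k4_chB_mono {c c' L0 : ℝ} (hc : c ≤ c') {k : ℕ} {o s r : ℝ} {u E ζ : ℂ → ℂ → ℂ}
    (h : ChB c L0 k o s r u E ζ) : ChB c' L0 k o s r u E ζ where
  sta := k4_sta_mono hc h.sta
  z1 := fun l z hp => (h.z1 l z hp).trans (by gcongr)
  z2 := h.z2
  d1 := fun l hl => (h.d1 l hl).trans (by gcongr)
  un := h.un

theorem k4_chA_mono {c c' L0 : ℝ} (hc : c ≤ c') {k : ℕ} {o s : ℝ} {u E υ ζ : ℂ → ℂ → ℂ}
    (h : ChA c L0 k o s u E υ ζ) : ChA c' L0 k o s u E υ ζ where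
  sta := k4_sta_mono hc h.sta
  z1 := fun l z hp => (h.z1 l z hp).trans (by gcongr)
  z2 := h.z2
  d1 := fun l hl => (h.d1 l hl).trans (by gcongr)
  un := h.un

/-- a band with its data -/
structure K4Nd (c L0 : ℝ) where
  k : ℕ
  o : ℝ
  s : ℝ
  t : ℝ
  u : ℂ → ℂ → ℂ
  E : ℂ → ℂ → ℂ
  h : Sta c L0 k o s t u E

/-- the relation between a band and its child number `i` -/
structure K4St {c L0 : ℝ} (d : K4Nd c L0) (i : Fin 3) (d' : K4Nd c L0) (ζ : ℂ → ℂ → ℂ) : Prop where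
  eE : d'.E = fun l z => d.E l (ζ l z)
  ek : d'.k = d.k + (if i = 1 then 3 else 2)
  eo : d'.o = if i = 1 then -d.o else (((i : ℕ) : ℝ) - 1) * d.s
  es : d'.s = if i = 1 then -d.s else (((i : ℕ) : ℝ) - 1) * d.o * d.s
  et : d'.t = ((i : ℕ) : ℝ) - 1
  c0 : i = 0 → ChB c L0 d.k d.o d.s (-d.o) d.u d.E ζ ∧ d'.u = ζ
  c1 : i = 1 → ChA c L0 d.k d.o d.s d.u d.E d'.u ζ
  c2 : i = 2 → ChB c L0 d.k d.o d.s d.o d.u d.E ζ ∧ d'.u = ζ

theorem k4_step {c L0 : ℝ}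
    (hB : ∀ (k : ℕ) (o s : ℝ) (u E : ℂ → ℂ → ℂ), Pre L0 k o s u E →
      ∀ r : ℝ, (r = 1 ∨ r = -1) → ∃ ζ : ℂ → ℂ → ℂ, ChB c L0 k o s r u E ζ)
    (hA : ∀ (k : ℕ) (o s : ℝ) (u E : ℂ → ℂ → ℂ), Pre L0 k o s u E →
      ∃ υ ζ : ℂ → ℂ → ℂ, ChA c L0 k o s u E υ ζ) (d : K4Nd c L0) (i : Fin 3) :
    ∃ p : K4Nd c L0 × (ℂ → ℂ → ℂ), K4St d i p.1 p.2 := by
  have hoo : d.o * d.o = 1 := by
    rcases d.h.oo with h | h <;> rw [h] <;> norm_num
  by_cases h1 : i = 1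
  · subst h1
    obtain ⟨υ, ζ, h⟩ := hA d.k d.o d.s d.u d.E d.h.toPre
    refine ⟨(⟨d.k + 3, -d.o, -d.s, 0, υ, fun l z => d.E l (ζ l z), h.sta⟩, ζ), ?_⟩
    exact
      { eE := rfl
        ek := rfl
        eo := by rw [if_pos rfl]
        es := by rw [if_pos rfl]
        et := by norm_num
        c0 := fun h0 => absurd h0 (by decide)
        c1 := fun _ => h
        c2 := fun h0 => absurd h0 (by decide) }
  · by_cases h0 : i = 0
    · subst h0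
      obtain ⟨ζ, h⟩ := hB d.k d.o d.s d.u d.E d.h.toPre (-d.o)
        (by rcases d.h.oo with h | h <;> rw [h] <;> norm_num)
      have e1 : -d.o * d.s * d.o = -d.s := by linear_combination (-d.s) * hoo
      have e2 : -d.o * d.o = -1 := by linear_combination (-1) * hoo
      have hs : Sta c L0 (d.k + 2) (-d.s) (-d.o * d.s) (-1) ζ (fun l z => d.E l (ζ l z)) := by
        have := h.sta
        rw [e1, e2] at this
        exact this
      refine ⟨(⟨d.k + 2, -d.s, -d.o * d.s, -1, ζ, fun l z => d.E l (ζ l z), hs⟩, ζ), ?_⟩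
      exact
        { eE := rfl
          ek := by rw [if_neg (by decide)]
          eo := by rw [if_neg (by decide)]; simp
          es := by rw [if_neg (by decide)]; simp
          et := by norm_num
          c0 := fun _ => ⟨h, rfl⟩
          c1 := fun h0 => absurd h0 (by decide)
          c2 := fun h0 => absurd h0 (by decide) }
    · have h2 : i = 2 := by omega
      subst h2
      obtain ⟨ζ, h⟩ := hB d.k d.o d.s d.u d.E d.h.toPre d.o d.h.oo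
      have e1 : d.o * d.s * d.o = d.s := by linear_combination d.s * hoo
      have hs : Sta c L0 (d.k + 2) d.s (d.o * d.s) 1 ζ (fun l z => d.E l (ζ l z)) := by
        have := h.sta
        rw [e1, hoo] at this
        exact this
      refine ⟨(⟨d.k + 2, d.s, d.o * d.s, 1, ζ, fun l z => d.E l (ζ l z), hs⟩, ζ), ?_⟩
      exact
        { eE := rfl
          ek := by rw [if_neg (by decide)]
          eo := by rw [if_neg (by decide)]; norm_num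
          es := by rw [if_neg (by decide)]; norm_num
          et := by norm_num
          c0 := fun h0 => absurd h0 (by decide)
          c1 := fun h0 => absurd h0 (by decide)
          c2 := fun _ => ⟨h, rfl⟩ }

/-- the bands below a band -/
def k4_node {c L0 : ℝ} (nx : K4Nd c L0 → Fin 3 → K4Nd c L0) (R : K4Nd c L0) : List (Fin 3) → K4Nd c L0
  | [] => R
  | i :: l => nx (k4_node nx R l) i

theorem st_K4 (h1 : ST_K1) (h2 : ST_K2) (h3 : ST_K3) : ST_K4 := by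
  obtain ⟨c1, L1, hc1, hL1, hB⟩ := h1
  obtain ⟨c2, L2, hc2, hL2, hA⟩ := h2
  obtain ⟨c3, L3, hc3, hL3, hR⟩ := h3
  refine ⟨max c1 (max c2 c3), max L1 (max L2 L3), le_max_of_le_left hc1, le_max_of_le_left hL1, ?_⟩
  intro L0 hL0
  obtain ⟨c, hc⟩ : ∃ c, c = max c1 (max c2 c3) := ⟨_, rfl⟩
  rw [← hc]
  have hcc1 : c1 ≤ c := by rw [hc]; exact le_max_left _ _
  have hcc2 : c2 ≤ c := by rw [hc]; exact (le_max_left _ _).trans (le_max_right _ _)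
  have hcc3 : c3 ≤ c := by rw [hc]; exact (le_max_right _ _).trans (le_max_right _ _)
  have hl1 : L1 ≤ L0 := (le_max_left _ _).trans hL0
  have hl2 : L2 ≤ L0 := ((le_max_left _ _).trans (le_max_right _ _)).trans hL0
  have hl3 : L3 ≤ L0 := ((le_max_right _ _).trans (le_max_right _ _)).trans hL0
  have hB' : ∀ (k : ℕ) (o s : ℝ) (u E : ℂ → ℂ → ℂ), Pre L0 k o s u E →
      ∀ r : ℝ, (r = 1 ∨ r = -1) → ∃ ζ : ℂ → ℂ → ℂ, ChB c L0 k o s r u E ζ := by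
    intro k o s u E hP r hr
    obtain ⟨ζ, h⟩ := hB L0 k o s u E hl1 hP r hr
    exact ⟨ζ, k4_chB_mono hcc1 h⟩
  have hA' : ∀ (k : ℕ) (o s : ℝ) (u E : ℂ → ℂ → ℂ), Pre L0 k o s u E →
      ∃ υ ζ : ℂ → ℂ → ℂ, ChA c L0 k o s u E υ ζ := by
    intro k o s u E hP
    obtain ⟨υ, ζ, h⟩ := hA L0 k o s u E hl2 hP
    exact ⟨υ, ζ, k4_chA_mono hcc2 h⟩
  obtain ⟨hP, u0, E0, hS0, hE0⟩ := hR L0 hl3
  obtain ⟨ζ1, hζ1⟩ := hB' 0 1 1 _ _ hP (-1) (Or.inr rfl)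
  obtain ⟨υ2, ζ2, hζ2⟩ := hA' 0 1 1 _ _ hP
  obtain ⟨ζ3, hζ3⟩ := hB' 0 1 1 _ _ hP 1 (Or.inl rfl)
  -- root nodes
  obtain ⟨R0, hR0k, hR0o, hR0s, hR0t, hR0u, hR0E⟩ : ∃ R : K4Nd c L0, R.k = 1 ∧ R.o = -1 ∧ R.s = -1 ∧
      R.t = 0 ∧ R.u = u0 ∧ R.E = E0 :=
    ⟨⟨1, -1, -1, 0, u0, E0, k4_sta_mono hcc3 hS0⟩, rfl, rfl, rfl, rfl, rfl, rfl⟩
  obtain ⟨R1, hR1k, hR1o, hR1s, hR1t, hR1u, hR1E⟩ : ∃ R : K4Nd c L0, R.k = 2 ∧ R.o = -1 ∧ R.s = -1 ∧
      R.t = -1 ∧ R.u = ζ1 ∧ R.E = fun l z => l + 2 * ζ1 l z := by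
    have h := hζ1.sta
    have e1 : (-1 : ℝ) * 1 * 1 = -1 := by norm_num
    have e2 : (-1 : ℝ) * 1 = -1 := by norm_num
    have e3 : 0 + 2 = 2 := rfl
    rw [e1, e2, e3] at h
    exact ⟨⟨2, -1, -1, -1, ζ1, _, h⟩, rfl, rfl, rfl, rfl, rfl, rfl⟩
  obtain ⟨R2, hR2k, hR2o, hR2s, hR2t, hR2u, hR2E⟩ : ∃ R : K4Nd c L0, R.k = 3 ∧ R.o = -1 ∧ R.s = -1 ∧
      R.t = 0 ∧ R.u = υ2 ∧ R.E = fun l z => l + 2 * ζ2 l z := by
    have h := hζ2.sta
    have e3 : 0 + 3 = 3 := rfl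
    rw [e3] at h
    exact ⟨⟨3, -1, -1, 0, υ2, _, h⟩, rfl, rfl, rfl, rfl, rfl, rfl⟩
  obtain ⟨R3, hR3k, hR3o, hR3s, hR3t, hR3u, hR3E⟩ : ∃ R : K4Nd c L0, R.k = 2 ∧ R.o = 1 ∧ R.s = 1 ∧
      R.t = 1 ∧ R.u = ζ3 ∧ R.E = fun l z => l + 2 * ζ3 l z := by
    have h := hζ3.sta
    have e1 : (1 : ℝ) * 1 * 1 = 1 := by norm_num
    have e2 : (1 : ℝ) * 1 = 1 := by norm_num
    have e3 : 0 + 2 = 2 := rfl
    rw [e1, e2, e3] at h
    exact ⟨⟨2, 1, 1, 1, ζ3, _, h⟩, rfl, rfl, rfl, rfl, rfl, rfl⟩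
  obtain ⟨Rr, hRr0, hRr1, hRr2, hRr3⟩ : ∃ Rr : Fin 4 → K4Nd c L0, Rr 0 = R0 ∧ Rr 1 = R1 ∧ Rr 2 = R2 ∧
      Rr 3 = R3 := ⟨![R0, R1, R2, R3], rfl, rfl, rfl, rfl⟩
  have hst := k4_step hB' hA'
  choose st hstp using hst
  obtain ⟨nd, hnd⟩ : ∃ nd : Wd → K4Nd c L0, ∀ w, nd w = k4_node (fun d i => (st d i).1) (Rr w.1) w.2 :=
    ⟨_, fun _ => rfl⟩
  have hch : ∀ i w, nd (ch i w) = (st (nd w) i).1 := by
    intro i w
    rw [hnd, hnd]
    rfl
  have hrt : ∀ r, nd (r, []) = Rr r := by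
    intro r
    rw [hnd]
    rfl
  have ht : ∀ w, (nd w).t = ty w := by
    rintro ⟨r, l⟩
    cases l with
    | nil =>
      rw [hrt]
      change (Rr r).t = rt r
      fin_cases r
      · change (Rr 0).t = 0; rw [hRr0, hR0t]
      · change (Rr 1).t = -1; rw [hRr1, hR1t]
      · change (Rr 2).t = 0; rw [hRr2, hR2t]
      · change (Rr 3).t = 1; rw [hRr3, hR3t]
    | cons i l =>
      have h := hch i (r, l)
      change nd (r, i :: l) = _ at h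
      rw [h, (hstp (nd (r, l)) i).et]
      rfl
  exact ⟨{
    kk := fun w => (nd w).k
    oo := fun w => (nd w).o
    ss := fun w => (nd w).s
    uu := fun w => (nd w).u
    EE := fun w => (nd w).E
    zz := fun i w => (st (nd w) i).2
    sta := fun w => by rw [← ht w]; exact (nd w).h
    ch0 := fun w => ((hstp (nd w) 0).c0 rfl).1
    ch1 := fun w => by
      rw [hch]
      exact (hstp (nd w) 1).c1 rfl
    ch2 := fun w => ((hstp (nd w) 2).c2 rfl).1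
    E0 := fun i w => by rw [hch]; exact (hstp (nd w) i).eE
    u0 := fun w => by rw [hch]; exact ((hstp (nd w) 0).c0 rfl).2
    u2 := fun w => by rw [hch]; exact ((hstp (nd w) 2).c2 rfl).2
    k0 := fun i w => by rw [hch]; exact (hstp (nd w) i).ek
    o0 := fun i w => by rw [hch]; exact (hstp (nd w) i).eo
    s0 := fun i w => by rw [hch]; exact (hstp (nd w) i).es
    r0k := by rw [hrt, hRr0, hR0k]
    r0o := by rw [hrt, hRr0, hR0o]
    r0s := by rw [hrt, hRr0, hR0s]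
    r0 := fun l z hp => by
      rw [hrt, hRr0, hR0E]
      exact ⟨(hE0 l z hp).1, (hE0 l z hp).2.trans (by gcongr)⟩
    ζ1 := ζ1
    ζ2 := ζ2
    ζ3 := ζ3
    r1 := hζ1
    r2 := by rw [hrt, hRr2, hR2u]; exact hζ2
    r3 := hζ3
    r1E := by rw [hrt, hRr1, hR1E]
    r2E := by rw [hrt, hRr2, hR2E]
    r3E := by rw [hrt, hRr3, hR3E]
    r1u := by rw [hrt, hRr1, hR1u]
    r3u := by rw [hrt, hRr3, hR3u]
    r1k := by rw [hrt, hRr1]; exact ⟨hR1k, hR1o, hR1s⟩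
    r2k := by rw [hrt, hRr2]; exact ⟨hR2k, hR2o, hR2s⟩
    r3k := by rw [hrt, hRr3]; exact ⟨hR3k, hR3o, hR3s⟩ }⟩

end

end Pool.Agent.Helper36.CV
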