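import Pool.Agent.Helper50.CV.Dbl
import Pool.Agent.Helper31.EC.Copies
import Pool.Agent.Helper31.EC.Rl

/-! Exact entropy calculus: independence of the copies of a configuration. -/

set_option autoImplicit false

namespace Pool.Agent.Helper50.CV

open Pool.Agent.Helper31.EC QS Pool.Agent.Helper38.NS

noncomputable section

/-- additivity passes to functions -/
theorem h_add_of {L : Type*} [PM L] {Λ : Type*} (s : Finset Λ) (X A : Λ → L) (B : L)
    (hX : h (s.sup X) B = ∑ l ∈ s, h (X l) B) (hA : ∀ l ∈ s, A l ≤ X l ⊔ B) :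
    h (s.sup A) B = ∑ l ∈ s, h (A l) B := by
  apply le_antisymm (h_finsup_le s A B)
  have h1 : h (s.sup X) B ≤ h (s.sup A) B + ∑ l ∈ s, h (X l) (s.sup A ⊔ B) := by
    have e1 := h_finsup_le s X (s.sup A ⊔ B)
    have e2 := h_chain (s.sup A) (s.sup X) B
    have e3 : h (s.sup X) B ≤ h (s.sup A ⊔ s.sup X) B := h_mono le_sup_right
    linarith
  have h2 : ∀ l ∈ s, h (X l) (s.sup A ⊔ B) ≤ h (X l) B - h (A l) B := by
    intro l hl
    have e1 : h (X l) (s.sup A ⊔ B) ≤ h (X l) (A l ⊔ B) := h_anti (sup_le_sup_right (Finset.le_sup hl) B)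
    have e2 := h_chain (A l) (X l) B
    have e3 : h (A l ⊔ X l) B = h (X l) B := by
      apply h_congr_left
      · exact sup_le (hA l hl) le_sup_left
      · exact le_sup_right.trans le_sup_left
    linarith
  have h3 := Finset.sum_le_sum h2
  rw [Finset.sum_sub_distrib] at h3
  linarith

/-- one against the others -/
theorem I_one_of {L : Type*} [PM L] {Λ : Type*} [DecidableEq Λ] (s : Finset Λ) (X : Λ → L) (B : L)
    (hX : h (s.sup X) B = ∑ l ∈ s, h (X l) B) {l : Λ} (hl : l ∈ s) : I (X l) ((s.erase l).sup X) B = 0 := by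
  have h1 : s.sup X = X l ⊔ (s.erase l).sup X := by
    conv_lhs => rw [← Finset.insert_erase hl]
    rw [Finset.sup_insert]
  have h2 := h_chain ((s.erase l).sup X) (X l) B
  rw [sup_comm, ← h1, hX, ← Finset.add_sum_erase s _ hl] at h2
  have h3 := h_finsup_le (s.erase l) X B
  rw [I_zero_iff_h]
  apply le_antisymm (h_anti le_sup_right)
  linarith

section

variable {S : Sp} {κ ιB ιP ιQ : Type} [Fintype κ] [Fintype ιB] [Fintype ιP] [Fintype ιQ]

namespace Cf

variable {β : Bk S κ ιB ιP ιQ} (c : Cf β)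

theorem pB' (l : c.Λ) : (c.p l).map β.B = c.r.map β.B := by
  unfold Bk.B
  rw [← (c.p l).qs_vd, ← c.r.qs_vd]
  exact vd_congr (c.pB l) 1

theorem qB' (m : c.M) : (c.q m).map β.B = c.r.map β.B := c.swap.pB' m

theorem Pf_eq : vd c.Pf 1 = Finset.univ.sup fun l => (c.p l).map β.P := by
  apply le_antisymm
  · rw [vd_le]
    intro x
    refine le_trans ?_ (Finset.le_sup (Finset.mem_univ x.1))
    show dg ((c.p x.1).qs (β.pf x.2)) 1 ≤ _
    rw [(c.p x.1).qs_dg]
    exact (c.p x.1).map_mono (dg_le_vd β.pf 1 x.2)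
  · apply Finset.sup_le
    intro l _
    unfold Bk.P
    rw [← (c.p l).qs_vd, vd_le]
    intro j
    exact dg_le_vd c.Pf 1 (l, j)

theorem Qf_eq : vd c.Qf 1 = Finset.univ.sup fun m => (c.q m).map β.Q := c.swap.Pf_eq

/-- the left copies are independent over the base -/
theorem hP_add : h (Finset.univ.sup fun l => (c.p l).map β.P) (c.r.map β.B) =
    ∑ l, h ((c.p l).map β.P) (c.r.map β.B) := by
  rw [← c.Pf_eq]
  have h1 : ∀ l, h ((c.p l).map β.P) (c.r.map β.B) = h β.P β.B := by
    intro l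
    rw [← c.pB' l, (c.p l).h_map]
  rw [Finset.sum_congr rfl fun l _ => h1 l, Finset.sum_const, Finset.card_univ, nsmul_eq_mul]
  exact c.hp

theorem ip_one [DecidableEq c.Λ] (l : c.Λ) :
    I ((c.p l).map β.P) ((Finset.univ.erase l).sup fun l => (c.p l).map β.P) (c.r.map β.B) = 0 :=
  I_one_of Finset.univ _ _ c.hP_add (Finset.mem_univ l)

/-- real functions of the left side give real families -/
theorem rl_left {x : QS S} (hx : dg x 1 ≤ β.P ⊔ β.B) (h1 : h (dg x 1) β.B = 1) :
    Rl (fun l => (c.p l).qs x) (c.r.map β.B) := by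
  have h2 := h_add_of Finset.univ (fun l => (c.p l).map β.P) (fun l => (c.p l).map (dg x 1)) (c.r.map β.B)
    c.hP_add (fun l _ => by
      rw [← c.pB' l, ← (c.p l).map_sup]
      exact (c.p l).map_mono hx)
  have h3 : vd (fun l => (c.p l).qs x) 1 = Finset.univ.sup fun l => (c.p l).map (dg x 1) := by
    unfold vd
    congr 1
    funext l
    exact (c.p l).qs_dg x 1
  unfold Rl
  rw [h3, h2]
  have h4 : ∀ l, h ((c.p l).map (dg x 1)) (c.r.map β.B) = 1 := by
    intro l
    rw [← c.pB' l, (c.p l).h_map, h1]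
  rw [Finset.sum_congr rfl fun l _ => h4 l, Finset.sum_const, Finset.card_univ, nsmul_eq_mul, mul_one]

theorem rl_right {x : QS S} (hx : dg x 1 ≤ β.Q ⊔ β.B) (h1 : h (dg x 1) β.B = 1) :
    Rl (fun m => (c.q m).qs x) (c.r.map β.B) := c.swap.rl_left hx h1

end Cf

end

end

end Pool.Agent.Helper50.CV
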