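import Pool.Agent.Helper38.NS.Blk

/-! Exact entropy calculus: doubling of blocks of absorbed noise (signed sums of exact copies on both sides). -/

set_option autoImplicit false

namespace Pool.Agent.Helper50.CV

open Pool.Agent.Helper31.EC QS Pool.Agent.Helper38.NS

noncomputable section

/-- a block `z3 = z + ∑ u_i v_i + a(P) + b(Q)` over a base -/
structure Bk (S : Sp) (κ ιB ιP ιQ : Type) [Fintype κ] [Fintype ιB] [Fintype ιP] [Fintype ιQ] where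
  fB : ιB → QS S
  fP : ιP → QS S
  fQ : ιQ → QS S
  u : κ → QS S
  v : κ → QS S
  a : QS S
  b : QS S
  z : QS S

section

variable {S : Sp} {κ ιB ιP ιQ : Type} [Fintype κ] [Fintype ιB] [Fintype ιP] [Fintype ιQ]

namespace Bk

variable (β : Bk S κ ιB ιP ιQ)

/-- data of the two sides -/
def pf : κ ⊕ (Unit ⊕ ιP) → QS S := Sum.elim β.u (Sum.elim (fun _ => β.a) β.fP)

def qf : κ ⊕ (Unit ⊕ ιQ) → QS S := Sum.elim β.v (Sum.elim (fun _ => β.b) β.fQ)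

def P : S.L := vd β.pf 1
def Q : S.L := vd β.qf 1
def B : S.L := vd β.fB 1

/-- the other end -/
def z3 : QS S := β.z + ∑ i, β.u i * β.v i + β.a + β.b

/-- both ends are independent of the two sides, the sides are independent -/
structure Ok : Prop where
  iz : I (dg β.z 1) (β.P ⊔ β.Q) β.B = 0
  iz3 : I (dg β.z3 1) (β.P ⊔ β.Q) β.B = 0
  ipq : I β.P β.Q β.B = 0

def swap : Bk S κ ιB ιQ ιP where
  fB := β.fB
  fP := β.fQ
  fQ := β.fP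
  u := β.v
  v := β.u
  a := β.b
  b := β.a
  z := β.z

theorem swap_z3 : β.swap.z3 = β.z3 := by
  unfold z3 swap
  have h1 : ∑ i, β.v i * β.u i = ∑ i, β.u i * β.v i := Finset.sum_congr rfl fun i _ => mul_comm _ _
  show β.z + ∑ i, β.v i * β.u i + β.b + β.a = _
  rw [h1]
  ring

end Bk

/-- a configuration of copies: signed sums on both sides -/
structure Cf (β : Bk S κ ιB ιP ιQ) where
  W : Sp
  r : Pj W S
  Λ : Type
  M : Type
  fΛ : Fintype Λ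
  fM : Fintype M
  p : Λ → Pj W S
  q : M → Pj W S
  ε : Λ → ℤ
  δ : M → ℤ
  z3 : QS W
  a : QS W
  b : QS W
  pB : ∀ l i, (p l).qs (β.fB i) = r.qs (β.fB i)
  qB : ∀ m i, (q m).qs (β.fB i) = r.qs (β.fB i)
  eq : z3 = r.qs β.z + ∑ i, (∑ l, ((ε l : ℤ) : QS W) * (p l).qs (β.u i)) *
    (∑ m, ((δ m : ℤ) : QS W) * (q m).qs (β.v i)) + a + b
  ha : dg a 1 ≤ vd (fun x : Λ × (κ ⊕ (Unit ⊕ ιP)) => (p x.1).qs (β.pf x.2)) 1
  hb : dg b 1 ≤ vd (fun x : M × (κ ⊕ (Unit ⊕ ιQ)) => (q x.1).qs (β.qf x.2)) 1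
  iz : I (dg (r.qs β.z) 1) (vd (fun x : Λ × (κ ⊕ (Unit ⊕ ιP)) => (p x.1).qs (β.pf x.2)) 1 ⊔
    vd (fun x : M × (κ ⊕ (Unit ⊕ ιQ)) => (q x.1).qs (β.qf x.2)) 1) (r.map β.B) = 0
  iz3 : I (dg z3 1) (vd (fun x : Λ × (κ ⊕ (Unit ⊕ ιP)) => (p x.1).qs (β.pf x.2)) 1 ⊔
    vd (fun x : M × (κ ⊕ (Unit ⊕ ιQ)) => (q x.1).qs (β.qf x.2)) 1) (r.map β.B) = 0
  ipq : I (vd (fun x : Λ × (κ ⊕ (Unit ⊕ ιP)) => (p x.1).qs (β.pf x.2)) 1)
    (vd (fun x : M × (κ ⊕ (Unit ⊕ ιQ)) => (q x.1).qs (β.qf x.2)) 1) (r.map β.B) = 0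
  hp : h (vd (fun x : Λ × (κ ⊕ (Unit ⊕ ιP)) => (p x.1).qs (β.pf x.2)) 1) (r.map β.B) =
    Fintype.card Λ * h β.P β.B
  hq : h (vd (fun x : M × (κ ⊕ (Unit ⊕ ιQ)) => (q x.1).qs (β.qf x.2)) 1) (r.map β.B) =
    Fintype.card M * h β.Q β.B

attribute [instance] Cf.fΛ Cf.fM

namespace Cf

variable {β : Bk S κ ιB ιP ιQ}

/-- data of all copies -/
def Pf (c : Cf β) : c.Λ × (κ ⊕ (Unit ⊕ ιP)) → QS c.W := fun x => (c.p x.1).qs (β.pf x.2)

def Qf (c : Cf β) : c.M × (κ ⊕ (Unit ⊕ ιQ)) → QS c.W := fun x => (c.q x.1).qs (β.qf x.2)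

def swap (c : Cf β) : Cf β.swap where
  W := c.W
  r := c.r
  Λ := c.M
  M := c.Λ
  fΛ := c.fM
  fM := c.fΛ
  p := c.q
  q := c.p
  ε := c.δ
  δ := c.ε
  z3 := c.z3
  a := c.b
  b := c.a
  pB := c.qB
  qB := c.pB
  eq := by
    have h1 := c.eq
    have h2 : ∑ i, (∑ l, ((c.δ l : ℤ) : QS c.W) * (c.q l).qs (β.v i)) *
        (∑ m, ((c.ε m : ℤ) : QS c.W) * (c.p m).qs (β.u i)) =
        ∑ i, (∑ l, ((c.ε l : ℤ) : QS c.W) * (c.p l).qs (β.u i)) *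
        (∑ m, ((c.δ m : ℤ) : QS c.W) * (c.q m).qs (β.v i)) :=
      Finset.sum_congr rfl fun i _ => mul_comm _ _
    show c.z3 = c.r.qs β.z + ∑ i, (∑ l, ((c.δ l : ℤ) : QS c.W) * (c.q l).qs (β.v i)) *
        (∑ m, ((c.ε m : ℤ) : QS c.W) * (c.p m).qs (β.u i)) + c.b + c.a
    rw [h2, h1]
    ring
  ha := c.hb
  hb := c.ha
  iz := by
    have h1 := c.iz
    rw [sup_comm] at h1
    exact h1
  iz3 := by
    have h1 := c.iz3
    rw [sup_comm] at h1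
    exact h1
  ipq := by
    have h1 := c.ipq
    rw [I_comm] at h1
    exact h1
  hp := c.hq
  hq := c.hp

theorem vd_unitProd {ι : Type} [Fintype ι] (f : ι → QS S) (r : ℝ) :
    vd (fun x : Unit × ι => (Pj.id S).qs (f x.2)) r = vd f r := by
  apply le_antisymm
  · rw [vd_le]
    intro x
    rw [Pj.id_qs]
    exact dg_le_vd f r x.2
  · rw [vd_le]
    intro i
    have h1 := dg_le_vd (fun x : Unit × ι => (Pj.id S).qs (f x.2)) r ((), i)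
    beta_reduce at h1
    rw [Pj.id_qs] at h1
    exact h1

/-- the trivial configuration -/
def triv (β : Bk S κ ιB ιP ιQ) (ok : β.Ok) : Cf β where
  W := S
  r := Pj.id S
  Λ := Unit
  M := Unit
  fΛ := inferInstance
  fM := inferInstance
  p := fun _ => Pj.id S
  q := fun _ => Pj.id S
  ε := fun _ => 1
  δ := fun _ => 1
  z3 := β.z3
  a := β.a
  b := β.b
  pB := fun _ _ => rfl
  qB := fun _ _ => rfl
  eq := by
    unfold Bk.z3
    simp only [Finset.univ_unique, Finset.sum_singleton, Int.cast_one, one_mul, Pj.id_qs]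
  ha := by
    rw [vd_unitProd β.pf 1]
    exact dg_le_vd β.pf 1 (Sum.inr (Sum.inl ()))
  hb := by
    rw [vd_unitProd β.qf 1]
    exact dg_le_vd β.qf 1 (Sum.inr (Sum.inl ()))
  iz := by
    rw [vd_unitProd β.pf 1, vd_unitProd β.qf 1, Pj.id_qs, Pj.id_map]
    exact ok.iz
  iz3 := by
    rw [vd_unitProd β.pf 1, vd_unitProd β.qf 1, Pj.id_map]
    exact ok.iz3
  ipq := by
    rw [vd_unitProd β.pf 1, vd_unitProd β.qf 1, Pj.id_map]
    exact ok.ipq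
  hp := by
    rw [vd_unitProd β.pf 1, Pj.id_map, Fintype.card_unit, Nat.cast_one, one_mul]
    rfl
  hq := by
    rw [vd_unitProd β.qf 1, Pj.id_map, Fintype.card_unit, Nat.cast_one, one_mul]
    rfl

/-- many values `s` of a function -/
def _root_.Pool.Agent.Helper50.CV.Pls {Λ : Type} (ε : Λ → ℤ) (s : ℤ) (m : ℕ) : Prop :=
  ∃ f : Fin m ↪ Λ, ∀ l, ε (f l) = s

theorem pls_sum {Λ : Type} {ε : Λ → ℤ} {s : ℤ} {m m' : ℕ} (h1 : Pls ε s m) (h2 : Pls ε (-s) m') :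
    Pls (Sum.elim ε (fun l => -ε l)) s (m + m') := by
  obtain ⟨f, hf⟩ := h1
  obtain ⟨f', hf'⟩ := h2
  refine ⟨(finSumFinEquiv.symm.toEmbedding).trans (Function.Embedding.sumMap f f'), ?_⟩
  intro l
  obtain ⟨x, rfl⟩ := finSumFinEquiv.surjective l
  show Sum.elim ε (fun l => -ε l) (Sum.map f f' (finSumFinEquiv.symm (finSumFinEquiv x))) = s
  rw [Equiv.symm_apply_apply]
  rcases x with x | x
  · exact hf x
  · show -ε (f' x) = s
    rw [hf' x, neg_neg]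

/-- doubling of the left side -/
theorem exists_dbl (c : Cf β) : ∃ c' : Cf β, (∀ m m', Pls c.ε 1 m → Pls c.ε (-1) m' →
      Pls c'.ε 1 (m + m') ∧ Pls c'.ε (-1) (m' + m)) ∧ (∀ s m, Pls c.δ s m → Pls c'.δ s m) := by
  obtain ⟨D, p1, p2, c4, i4, m4⟩ := exists_copyS
    (Sum.elim (fun i => c.r.qs (β.fB i)) (Sum.elim c.Qf (Sum.elim (fun _ : Unit => c.b) (fun _ : Unit => c.z3))))
  have cB : ∀ i, p1.qs (c.r.qs (β.fB i)) = p2.qs (c.r.qs (β.fB i)) := fun i => c4 (Sum.inl i)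
  have cQ : ∀ x, p1.qs (c.Qf x) = p2.qs (c.Qf x) := fun x => c4 (Sum.inr (Sum.inl x))
  have cb : p1.qs c.b = p2.qs c.b := c4 (Sum.inr (Sum.inr (Sum.inl ())))
  have cz : p1.qs c.z3 = p2.qs c.z3 := c4 (Sum.inr (Sum.inr (Sum.inr ())))
  rw [vd_sum, vd_sum, vd_sum, vd_unit, vd_unit, c.r.qs_vd] at i4
  have eB : p2.map (c.r.map β.B) = p1.map (c.r.map β.B) := by
    unfold Bk.B
    rw [← c.r.qs_vd, ← p1.qs_vd, ← p2.qs_vd]
    exact (vd_congr cB 1).symm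
  have eQ : p2.map (vd c.Qf 1) = p1.map (vd c.Qf 1) := by
    rw [← p1.qs_vd, ← p2.qs_vd]
    exact (vd_congr cQ 1).symm
  have ez : p2.map (dg c.z3 1) = p1.map (dg c.z3 1) := by
    rw [← p1.qs_dg, ← p2.qs_dg, cz]
  have lb : p1.map (dg c.b 1) ≤ p1.map (vd c.Qf 1) := p1.map_mono c.hb
  rw [p1.map_sup, p1.map_sup, p1.map_sup] at i4
  have a1 := p1.I_map (dg (c.r.qs β.z) 1) (vd c.Pf 1 ⊔ vd c.Qf 1) (c.r.map β.B)
  rw [show I (dg (c.r.qs β.z) 1) (vd c.Pf 1 ⊔ vd c.Qf 1) (c.r.map β.B) = 0 from c.iz, p1.map_sup] at a1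
  have a2 := p2.I_map (dg (c.r.qs β.z) 1) (vd c.Pf 1 ⊔ vd c.Qf 1) (c.r.map β.B)
  rw [show I (dg (c.r.qs β.z) 1) (vd c.Pf 1 ⊔ vd c.Qf 1) (c.r.map β.B) = 0 from c.iz, p2.map_sup, eB, eQ] at a2
  have a3 := p1.I_map (dg c.z3 1) (vd c.Pf 1 ⊔ vd c.Qf 1) (c.r.map β.B)
  rw [show I (dg c.z3 1) (vd c.Pf 1 ⊔ vd c.Qf 1) (c.r.map β.B) = 0 from c.iz3, p1.map_sup] at a3
  have a4 := p2.I_map (dg c.z3 1) (vd c.Pf 1 ⊔ vd c.Qf 1) (c.r.map β.B)
  rw [show I (dg c.z3 1) (vd c.Pf 1 ⊔ vd c.Qf 1) (c.r.map β.B) = 0 from c.iz3, p2.map_sup, eB, eQ, ez] at a4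
  have a5 := p1.I_map (vd c.Pf 1) (vd c.Qf 1) (c.r.map β.B)
  rw [show I (vd c.Pf 1) (vd c.Qf 1) (c.r.map β.B) = 0 from c.ipq] at a5
  have a6 := p2.I_map (vd c.Pf 1) (vd c.Qf 1) (c.r.map β.B)
  rw [show I (vd c.Pf 1) (vd c.Qf 1) (c.r.map β.B) = 0 from c.ipq, eB, eQ] at a6
  have a7 : h (p1.map (vd c.Pf 1)) (p1.map (c.r.map β.B)) = Fintype.card c.Λ * h β.P β.B := by
    rw [p1.h_map]
    exact c.hp
  have a8 : h (p2.map (vd c.Pf 1)) (p1.map (c.r.map β.B)) = Fintype.card c.Λ * h β.P β.B := by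
    rw [← eB, p2.h_map]
    exact c.hp
  have a9 : h (p1.map (vd c.Qf 1)) (p1.map (c.r.map β.B)) = Fintype.card c.M * h β.Q β.B := by
    rw [p1.h_map]
    exact c.hq
  obtain ⟨B, hB⟩ : ∃ B, B = p1.map (c.r.map β.B) := ⟨_, rfl⟩
  obtain ⟨P1, hP1⟩ : ∃ P, P = p1.map (vd c.Pf 1) := ⟨_, rfl⟩
  obtain ⟨P2, hP2⟩ : ∃ P, P = p2.map (vd c.Pf 1) := ⟨_, rfl⟩
  obtain ⟨Q, hQ⟩ : ∃ Q, Q = p1.map (vd c.Qf 1) := ⟨_, rfl⟩
  obtain ⟨Z1, hZ1⟩ : ∃ Z, Z = p1.map (dg (c.r.qs β.z) 1) := ⟨_, rfl⟩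
  obtain ⟨Z2, hZ2⟩ : ∃ Z, Z = p2.map (dg (c.r.qs β.z) 1) := ⟨_, rfl⟩
  obtain ⟨Z3, hZ3⟩ : ∃ Z, Z = p1.map (dg c.z3 1) := ⟨_, rfl⟩
  have hBB : p1.map (c.r.map (vd β.fB 1)) = B := hB.symm
  rw [hBB, ← hQ, ← hZ3] at i4
  rw [← hZ1, ← hP1, ← hQ, ← hB] at a1
  rw [← hZ2, ← hP2, ← hQ, ← hB] at a2
  rw [← hZ3, ← hP1, ← hQ, ← hB] at a3
  rw [← hZ3, ← hP2, ← hQ, ← hB] at a4
  rw [← hP1, ← hQ, ← hB] at a5
  rw [← hP2, ← hQ, ← hB] at a6
  rw [← hP1, ← hB] at a7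
  rw [← hP2, ← hB] at a8
  rw [← hQ, ← hB] at a9
  rw [← hQ] at lb
  have hV : B ⊔ (Q ⊔ (p1.map (dg c.b 1) ⊔ Z3)) = (Q ⊔ Z3) ⊔ B := by order
  rw [hV] at i4
  have s1 : I P1 (Q ⊔ Z3) B = 0 := by
    refine ind_add a5 (C' := Q ⊔ B) (ind_symm ?_) rfl
    exact ind_of a3 (by order) (by order) (by order) (by order)
  have s1' : I P2 (Q ⊔ Z3) B = 0 := by
    refine ind_add a6 (C' := Q ⊔ B) (ind_symm ?_) rfl
    exact ind_of a4 (by order) (by order) (by order) (by order)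
  have s2 : ∀ x, I P1 ((Q ⊔ Z3) ⊔ p2.map x) B = 0 := by
    intro x
    refine ind_add s1 (C' := (Q ⊔ Z3) ⊔ B) ?_ rfl
    rw [hP1]
    exact i4 _ _
  have s2' : ∀ x, I P2 ((Q ⊔ Z3) ⊔ p1.map x) B = 0 := by
    intro x
    refine ind_add s1' (C' := (Q ⊔ Z3) ⊔ B) ?_ rfl
    rw [hP2]
    exact ind_symm (i4 _ _)
  have t2 := s2 (vd c.Pf 1 ⊔ dg (c.r.qs β.z) 1)
  rw [p2.map_sup, ← hP2, ← hZ2] at t2
  have t2' := s2' (vd c.Pf 1 ⊔ dg (c.r.qs β.z) 1)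
  rw [p1.map_sup, ← hP1, ← hZ1] at t2'
  have g1 : I Z1 ((P1 ⊔ P2) ⊔ Q) B = 0 := by
    have h1 : I Z1 ((P1 ⊔ Q) ⊔ P2) B = 0 := by
      refine ind_add a1 (C' := (P1 ⊔ Q) ⊔ B) (ind_symm ?_) rfl
      exact ind_of t2' (by order) (by order) (by order) (by order)
    exact I_zero_mono h1 (by order) (by order)
  have g2 : I Z2 ((P1 ⊔ P2) ⊔ Q) B = 0 := by
    have h1 : I Z2 ((P2 ⊔ Q) ⊔ P1) B = 0 := by
      refine ind_add a2 (C' := (P2 ⊔ Q) ⊔ B) (ind_symm ?_) rfl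
      exact ind_of t2 (by order) (by order) (by order) (by order)
    exact I_zero_mono h1 (by order) (by order)
  have g3 : I (P1 ⊔ P2) Q B = 0 := by
    refine ind_symm (ind_add (ind_symm a5) (C' := P1 ⊔ B) (ind_symm ?_) rfl)
    exact ind_of t2' (by order) (by order) (by order) (by order)
  have g4 : h (P1 ⊔ P2) B = (Fintype.card c.Λ + Fintype.card c.Λ : ℕ) * h β.P β.B := by
    have h1 : I P2 P1 B = 0 := ind_of t2' (by order) (by order) (by order) (by order)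
    have h2 := I_zero_iff_h.mp h1
    rw [h_chain, h2, a7, a8]
    push_cast
    ring
  have eP : vd (fun x : (c.Λ ⊕ c.Λ) × (κ ⊕ (Unit ⊕ ιP)) =>
      (Sum.elim (fun l => p1.comp (c.p l)) (fun l => p2.comp (c.p l)) x.1).qs (β.pf x.2)) 1 = P1 ⊔ P2 := by
    apply le_antisymm
    · rw [vd_le]
      rintro ⟨l | l, j⟩
      · show dg ((p1.comp (c.p l)).qs (β.pf j)) 1 ≤ _
        rw [Pj.comp_qs, p1.qs_dg]
        refine le_trans ?_ le_sup_left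
        rw [hP1]
        exact p1.map_mono (dg_le_vd c.Pf 1 (l, j))
      · show dg ((p2.comp (c.p l)).qs (β.pf j)) 1 ≤ _
        rw [Pj.comp_qs, p2.qs_dg]
        refine le_trans ?_ le_sup_right
        rw [hP2]
        exact p2.map_mono (dg_le_vd c.Pf 1 (l, j))
    · apply sup_le
      · rw [hP1, ← p1.qs_vd, vd_le]
        intro x
        have h1 := dg_le_vd (fun x : (c.Λ ⊕ c.Λ) × (κ ⊕ (Unit ⊕ ιP)) =>
          (Sum.elim (fun l => p1.comp (c.p l)) (fun l => p2.comp (c.p l)) x.1).qs (β.pf x.2)) 1 (Sum.inl x.1, x.2)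
        have h2 : (Sum.elim (fun l => p1.comp (c.p l)) (fun l => p2.comp (c.p l))
          (Sum.inl x.1 : c.Λ ⊕ c.Λ)).qs (β.pf x.2) = p1.qs (c.Pf x) := Pj.comp_qs _ _ _
        beta_reduce at h1
        rw [h2] at h1
        exact h1
      · rw [hP2, ← p2.qs_vd, vd_le]
        intro x
        have h1 := dg_le_vd (fun x : (c.Λ ⊕ c.Λ) × (κ ⊕ (Unit ⊕ ιP)) =>
          (Sum.elim (fun l => p1.comp (c.p l)) (fun l => p2.comp (c.p l)) x.1).qs (β.pf x.2)) 1 (Sum.inr x.1, x.2)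
        have h2 : (Sum.elim (fun l => p1.comp (c.p l)) (fun l => p2.comp (c.p l))
          (Sum.inr x.1 : c.Λ ⊕ c.Λ)).qs (β.pf x.2) = p2.qs (c.Pf x) := Pj.comp_qs _ _ _
        beta_reduce at h1
        rw [h2] at h1
        exact h1
  have eQ' : vd (fun x : c.M × (κ ⊕ (Unit ⊕ ιQ)) => (p1.comp (c.q x.1)).qs (β.qf x.2)) 1 = Q := by
    rw [hQ, ← p1.qs_vd]
    apply vd_congr
    intro x
    exact Pj.comp_qs _ _ _
  have eB' : (p1.comp c.r).map β.B = B := by rw [Pj.comp_map, ← hB]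
  refine ⟨{
    W := D
    r := p1.comp c.r
    Λ := c.Λ ⊕ c.Λ
    M := c.M
    fΛ := inferInstance
    fM := inferInstance
    p := Sum.elim (fun l => p1.comp (c.p l)) (fun l => p2.comp (c.p l))
    q := fun m => p1.comp (c.q m)
    ε := Sum.elim c.ε (fun l => -c.ε l)
    δ := c.δ
    z3 := p2.qs (c.r.qs β.z)
    a := p1.qs c.a - p2.qs c.a
    b := 0
    pB := ?_
    qB := ?_
    eq := ?_
    ha := ?_
    hb := ?_
    iz := ?_
    iz3 := ?_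
    ipq := ?_
    hp := ?_
    hq := ?_ }, ?_, ?_⟩
  · rintro (l | l) i
    · show (p1.comp (c.p l)).qs (β.fB i) = (p1.comp c.r).qs (β.fB i)
      rw [Pj.comp_qs, Pj.comp_qs, c.pB]
    · show (p2.comp (c.p l)).qs (β.fB i) = (p1.comp c.r).qs (β.fB i)
      rw [Pj.comp_qs, Pj.comp_qs, c.pB, cB]
  · intro m i
    rw [Pj.comp_qs, Pj.comp_qs, c.qB]
  · have e0 := c.eq
    have e1 := congrArg p1.qs e0
    have e2 := congrArg p2.qs e0
    simp only [map_add, map_sum, map_mul, map_intCast] at e1 e2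
    rw [← cz, ← cb] at e2
    have v1 : ∀ i, ∑ m, ((c.δ m : ℤ) : QS D) * p2.qs ((c.q m).qs (β.v i)) =
        ∑ m, ((c.δ m : ℤ) : QS D) * p1.qs ((c.q m).qs (β.v i)) := by
      intro i
      apply Finset.sum_congr rfl
      intro m _
      have h1 : p1.qs ((c.q m).qs (β.v i)) = p2.qs ((c.q m).qs (β.v i)) := cQ (m, Sum.inl i)
      rw [h1]
    have e3 : ∑ i, (∑ l, ((c.ε l : ℤ) : QS D) * p2.qs ((c.p l).qs (β.u i))) *
        (∑ m, ((c.δ m : ℤ) : QS D) * p2.qs ((c.q m).qs (β.v i))) =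
        ∑ i, (∑ l, ((c.ε l : ℤ) : QS D) * p2.qs ((c.p l).qs (β.u i))) *
        (∑ m, ((c.δ m : ℤ) : QS D) * p1.qs ((c.q m).qs (β.v i))) :=
      Finset.sum_congr rfl fun i _ => by rw [v1 i]
    rw [e3] at e2
    have e4 : ∑ i, (∑ l, (((Sum.elim c.ε (fun l => -c.ε l) l : ℤ)) : QS D) *
        (Sum.elim (fun l => p1.comp (c.p l)) (fun l => p2.comp (c.p l)) l).qs (β.u i)) *
        (∑ m, ((c.δ m : ℤ) : QS D) * (p1.comp (c.q m)).qs (β.v i)) =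
        ∑ i, (∑ l, ((c.ε l : ℤ) : QS D) * p1.qs ((c.p l).qs (β.u i))) *
        (∑ m, ((c.δ m : ℤ) : QS D) * p1.qs ((c.q m).qs (β.v i))) -
        ∑ i, (∑ l, ((c.ε l : ℤ) : QS D) * p2.qs ((c.p l).qs (β.u i))) *
        (∑ m, ((c.δ m : ℤ) : QS D) * p1.qs ((c.q m).qs (β.v i))) := by
      rw [← Finset.sum_sub_distrib]
      apply Finset.sum_congr rfl
      intro i _
      rw [← sub_mul, Fintype.sum_sum_type]
      congr 1
      · simp only [Sum.elim_inl, Sum.elim_inr, Pj.comp_qs, Int.cast_neg, neg_mul, Finset.sum_neg_distrib]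
        rw [sub_eq_add_neg]
      · apply Finset.sum_congr rfl
        intro m _
        rw [Pj.comp_qs]
    rw [e4]
    rw [Pj.comp_qs]
    linear_combination e1 - e2
  · rw [eP]
    refine (dg_sub_le _ _ le_rfl).trans ?_
    rw [p1.qs_dg, p2.qs_dg, hP1, hP2]
    exact sup_le_sup (p1.map_mono c.ha) (p2.map_mono c.ha)
  · rw [eQ']
    exact (Kn D 1 le_rfl Q).zero_mem
  · rw [eP, eQ', eB', Pj.comp_qs, p1.qs_dg, ← hZ1]
    exact g1
  · rw [eP, eQ', eB', p2.qs_dg, ← hZ2]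
    exact g2
  · rw [eP, eQ', eB']
    exact g3
  · rw [eP, eB', Fintype.card_sum]
    exact g4
  · rw [eQ', eB']
    exact a9
  · intro m m' h1 h2
    refine ⟨pls_sum h1 h2, pls_sum h2 ?_⟩
    rw [neg_neg]
    exact h1
  · intro s m h1
    exact h1

theorem pls_mono {Λ : Type} {ε : Λ → ℤ} {s : ℤ} {m m' : ℕ} (h : m' ≤ m) (h1 : Pls ε s m) : Pls ε s m' := by
  obtain ⟨f, hf⟩ := h1
  exact ⟨(Fin.castLEEmb h).trans f, fun l => hf _⟩

/-- iterated doubling of the left side -/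
theorem exists_left (c : Cf β) (h0 : Pls c.ε 1 1) : ∀ k : ℕ, ∃ c' : Cf β, Pls c'.ε 1 (k + 1) ∧ Pls c'.ε (-1) (k + 1) ∧
    (∀ s m, Pls c.δ s m → Pls c'.δ s m) := by
  intro k
  induction k with
  | zero =>
    obtain ⟨c', h1, h2⟩ := c.exists_dbl
    have h3 : Pls c.ε (-1) 0 := ⟨⟨fun x => x.elim0, fun x => x.elim0⟩, fun x => x.elim0⟩
    have h4 := h1 1 0 h0 h3
    exact ⟨c', h4.1, pls_mono (by omega) h4.2, h2⟩
  | succ k ih =>
    obtain ⟨c1, a1, a2, a3⟩ := ih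
    obtain ⟨c', h1, h2⟩ := c1.exists_dbl
    have h4 := h1 _ _ a1 a2
    exact ⟨c', pls_mono (by omega) h4.1, pls_mono (by omega) h4.2, fun s m h => h2 s m (a3 s m h)⟩

theorem pls_unit : Pls (fun _ : Unit => (1 : ℤ)) 1 1 :=
  ⟨⟨fun _ => (), fun _ _ _ => Subsingleton.elim _ _⟩, fun _ => rfl⟩

/-- configurations with many positive signs on both sides -/
theorem exists_cf (β : Bk S κ ιB ιP ιQ) (ok : β.Ok) (k : ℕ) : ∃ c : Cf β, Pls c.ε 1 k ∧ Pls c.δ 1 k := by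
  obtain ⟨c1, a1, -, a3⟩ := exists_left (triv β ok) pls_unit k
  obtain ⟨c2, b1, -, b3⟩ := exists_left c1.swap (a3 1 1 pls_unit) k
  exact ⟨c2.swap, b3 1 k (pls_mono (by omega) a1), pls_mono (by omega) b1⟩

end Cf

end

end

end Pool.Agent.Helper50.CV
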