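import Pool.Agent.Helper31.EC.Uns
import Pool.Agent.Helper38.NS.Sg

/-! Exact entropy calculus: variables with few values; roots of known polynomials are known. -/

set_option autoImplicit false

namespace Pool.Agent.Helper50.CV

open Finset Filter Topology Pool.Agent.Helper69.RK Pool.Agent.Helper31.EC

noncomputable section

open Sp

variable {S : Sp}

/-- entropies are at most the logarithm of the number of values -/
theorem rt_le_of_nv {A : ∀ k, Setoid (S.F k).Ω} {C : ℝ} {k : ℕ}
    (hk : ∀ ω, (S.F k).μ ω ≠ 0 → (nv (S.F k) (A k) ω : ℝ) ≤ 2 ^ (C * (S.F k).n)) : S.rt A S.tr k ≤ C := by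
  classical
  have hn := (S.F k).pos
  unfold rt
  rw [div_le_iff₀ hn]
  have h0 : (S.F k).e (A k) (S.tr k ⊓ (S.F k).Z) = CH (S.F k).μ (Quotient.mk (A k)) (Quotient.mk (S.F k).Z) := by
    apply (S.F k).e_congr
    · intro ω ω' _ _
      exact (Quotient.eq (r := A k)).symm
    · intro ω ω' _ _
      constructor
      · intro h
        exact Quotient.sound h.2
      · intro h
        exact ⟨trivial, Quotient.exact h⟩
  rw [h0]
  have h1 := st_E3.1 (S.F k).Ω _ _ (S.F k).μ (Quotient.mk (A k)) (Quotient.mk (S.F k).Z)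
    (fun _ => 2 ^ (C * (S.F k).n)) (S.F k).nn (fun ω hω => hk ω hω)
  have h3 : ∑ ω, (S.F k).μ ω * Real.logb 2 (2 ^ (C * (S.F k).n)) = C * (S.F k).n := by
    rw [← Finset.sum_mul, Real.logb_rpow (by norm_num) (by norm_num)]
    have : ∑ ω, (S.F k).μ ω = 1 := (S.F k).ms
    rw [this, one_mul]
  rw [h3] at h1
  exact h1

/-- a variable with boundedly many values carries no information -/
theorem io_few {α : ℕ → Type} (X : ∀ k, (S.F k).Ω → α k) (T : ∀ k, Finset (α k)) (N : ℕ)
    (h1 : ∀ᶠ k in UF, ∀ ω, (S.F k).μ ω ≠ 0 → X k ω ∈ T k)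
    (h2 : ∀ᶠ k in UF, (T k).card ≤ N) : Bdd X ∧ io X = ⊥ := by
  classical
  have hc : ∀ C : ℝ, 0 < C → ∀ᶠ k in UF, ((T k).card : ℝ) ≤ 2 ^ (C * (S.F k).n) := by
    intro C hC
    have h3 := (S.Sub_const (Nat.cast_nonneg N : (0 : ℝ) ≤ N)).eventually_le hC
    filter_upwards [h2, h3] with k a b
    have h4 : ((T k).card : ℝ) ≤ N := by exact_mod_cast a
    linarith
  have hX : Bdd X := Bdd_of_card X T 1 h1 (hc 1 one_pos)
  refine ⟨hX, ?_⟩
  have hH : ∀ C : ℝ, 0 < C → H (io X) ≤ C := by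
    intro C hC
    rw [H_io hX, ← ul_const C]
    refine ul_mono (UB_rt hX.toInf _) (UB_const C) ?_
    filter_upwards [h1, hc C hC] with k a b
    apply rt_le_of_nv
    intro ω _
    rw [nv_ker]
    refine le_trans ?_ b
    unfold nvf
    norm_cast
    apply Finset.card_le_card
    intro q hq
    obtain ⟨ω', hω', rfl⟩ := e3_mem_image hq
    rw [Finset.mem_filter] at hω'
    exact a ω' hω'.2.1
  have h5 : H (io X) ≤ 0 := le_of_forall_pos_le_add (by
    intro ε hε
    rw [zero_add]
    exact hH ε hε)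
  have h6 : h (io X) ⊥ ≤ 0 := by
    rw [h_bot]
    exact h5
  exact le_antisymm (h_le_zero_iff.mp h6) bot_le

/-- the closest of finitely many separated roots -/
theorem near_root {n : ℕ} (y : ℝ) (x : Fin n → ℝ) (K e : ℝ) (hK : 1 ≤ K)
    (hsep : ∀ i j, i ≠ j → 1 ≤ K * |x i - x j|) (hp : |∏ i, (y - x i)| ≤ e) (hn : 0 < n) :
    ∃ i, |y - x i| ≤ (2 * K) ^ n * e := by
  classical
  have : Nonempty (Fin n) := ⟨⟨0, hn⟩⟩
  obtain ⟨i, _, hi⟩ := Finset.exists_min_image (Finset.univ : Finset (Fin n)) (fun i => |y - x i|) Finset.univ_nonempty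
  refine ⟨i, ?_⟩
  have h1 : ∀ j, j ≠ i → (2 * K)⁻¹ ≤ |y - x j| := by
    intro j hj
    have h2 := hsep j i hj
    have h3 : |x j - x i| ≤ 2 * |y - x j| := by
      have h4 := hi j (Finset.mem_univ j)
      have h5 : x j - x i = (y - x i) - (y - x j) := by ring
      rw [h5]
      have h6 := abs_sub (y - x i) (y - x j)
      linarith
    rw [inv_le_iff_one_le_mul₀ (by linarith)]
    nlinarith
  rw [Finset.abs_prod, ← Finset.mul_prod_erase Finset.univ (fun j => |y - x j|) (Finset.mem_univ i)] at hp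
  have h7 : (2 * K)⁻¹ ^ n ≤ ∏ j ∈ Finset.univ.erase i, |y - x j| := by
    have h8 : (2 * K)⁻¹ ^ (Finset.univ.erase i).card ≤ ∏ j ∈ Finset.univ.erase i, |y - x j| := by
      rw [← Finset.prod_const]
      apply Finset.prod_le_prod
      · intro j _
        positivity
      · intro j hj
        exact h1 j (Finset.ne_of_mem_erase hj)
    refine le_trans ?_ h8
    apply pow_le_pow_of_le_one (by positivity)
    · rw [inv_le_one₀ (by linarith)]
      linarith
    · rw [Finset.card_erase_of_mem (Finset.mem_univ i), Finset.card_univ, Fintype.card_fin]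
      exact Nat.sub_le n 1
  have h9 : |y - x i| * (2 * K)⁻¹ ^ n ≤ e := (mul_le_mul_of_nonneg_left h7 (abs_nonneg _)).trans hp
  have h10 : 0 < (2 * K) ^ n := by positivity
  calc |y - x i| = (2 * K) ^ n * (|y - x i| * (2 * K)⁻¹ ^ n) := by
        rw [inv_pow]
        field_simp
    _ ≤ (2 * K) ^ n * e := mul_le_mul_of_nonneg_left h9 h10.le

end

end Pool.Agent.Helper50.CV
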