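import Pool.Agent.Helper40.NSK.Flat
import Pool.Agent.Helper99.CC.Str
import Pool.Agent.Helper50.CV.SloS

/-!
# The flat theorem for lines of degree `k`

`ST_FLAT d k K N` of helper40's skeleton for all `d`, `k`, for every `N ≥ d` (for `N < d` the hypothesis on the
spanning of the directions is empty), with `K = 2 k (d + 1) + k`, and with `K = d + 2` for straight lines (`k = 1`).
Slopes are polynomials (`CB.slopesK`), potentials exist and their leaf functions are functions of the point and of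
the line (helper99 `CC`), so the label of the leaf is an exact sheet.
-/

set_option autoImplicit false

namespace Pool.Agent.Helper50.CV

open Pool.Agent.Helper69.RK Pool.Agent.Helper31.EC Pool.Agent.Helper31.EC.Sp QS
open Pool.Agent.Helper38.NS Pool.Agent.Helper38.NS.FB Pool.Agent.Helper99.EC Pool.Agent.Helper99.CC
open Pool.Agent.Helper40.NSK

noncomputable section

variable {S : Sp} {d k : ℕ}

/-- slopes of curved lines are polynomials, in the form of helper99 -/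
theorem slo_K (s : CB S d k) (hs : s.Hyp) (hq : Rl s.fb.q ⊥) {a0 c : ℝ} (hc : 0 < c) (ha : a0 < 1)
    (hu : UnS s.fb.z (s.fb.iT ⊔ s.fb.iY) a0 c) : SLO s (2 * k * (d + 1)) := by
  intro W p hst hdet
  obtain ⟨V, q, h⟩ := s.slopesK hs hq hc ha hu hst hdet W (Pj.id W)
  refine ⟨V, q, fun j => ?_⟩
  obtain ⟨P, h1, h2, h3⟩ := h 0 j
  have e1 : ∀ x : QS W, (q.comp (Pj.id W)).qs x = q.qs x := by
    intro x
    rw [Pj.comp_qs, Pj.id_qs]
  have e2 : ∀ x : W.L, (q.comp (Pj.id W)).map x = q.map x := by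
    intro x
    rw [Pj.comp_map, Pj.id_map]
  refine ⟨P, ?_, h2, ?_⟩
  · rw [e2, s.vd_drs, q.map_finsup] at h1
    simp only [Pj.comp_map]
    exact h1
  · simp only [e1] at h3
    simp only [Pj.comp_qs]
    exact h3.symm

/-- a flat corner as a system of curved lines -/
def cbOf (c : FC S d k) : CB S d k := ⟨c.t, c.a, c.x, Fin.cons c.b c.C⟩

variable (c : FC S d k)

theorem cbOf_z : (cbOf c).fb.z = c.z := by
  rw [z_exp]
  unfold FC.z
  show c.b + _ = c.b + _
  congr 1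
  apply Finset.sum_congr rfl
  intro j _
  exact mul_comm _ _

theorem cbOf_q : (cbOf c).fb.q = c.q := rfl

theorem cbOf_v : (cbOf c).fb.v = c.v := rfl

theorem cbOf_fQ : (cbOf c).fb.fQ = c.fB := by
  unfold FB.fQ FC.fB
  rw [cbOf_z]
  rfl

theorem big_unit {f : QS S} (hf : Big f 0) : IsUnit f := by
  by_contra hn
  rw [isUnit_iff] at hn
  have h1 : ∃ δ : ℝ, 0 < δ ∧ ¬ Typ (fun k ω => S.dl δ k ≤ |TR.ev (rep f) k ω|) := by
    by_contra hcon
    push Not at hcon
    exact hn (nd_of_levels hcon)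
  obtain ⟨δ, hδ, hT⟩ := h1
  rcases typ_or (fun k ω => S.dl δ k ≤ |TR.ev (rep f) k ω|) with h | h
  · exact hT h
  · have h2 := hf δ hδ
    have h3 : ul (S.pr fun k ω => ¬ S.dl δ k ≤ |TR.ev (rep f) k ω|) ≤
        ul (S.pr fun k ω => |TR.ev (QS.mk_surj f).choose k ω| ≤ S.dl δ k) := by
      apply ul_mono (UB_pr _) (UB_pr _)
      apply Filter.Eventually.of_forall
      intro k
      apply FSp.pb_mono
      intro ω _ hω
      exact (lt_of_not_ge hω).le
    linarith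

theorem hypOf {N : ℕ} {ρ : ℝ} (h : CorH c N ρ 0) : (cbOf c).Hyp := by
  have hz := cbOf_z c
  refine ⟨?_, ?_, ?_⟩
  · apply le_antisymm (FB.h_dg1 _ _)
    have h1 := h.ht
    rw [sub_zero] at h1
    refine h1.trans (h_anti ?_)
    show c.iL ⊔ QS.dg c.b 1 ≤ c.iL ⊔ (QS.dg c.b 1 ⊔ c.iF)
    order
  · intro j
    have h1 := h_eq_zero_iff.mp (le_antisymm h.hF (h_nonneg _ _))
    exact (dg_le_vd c.C 1 j).trans h1
  · apply le_antisymm _ (I_nonneg _ _ _)
    have h1 := h.hi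
    rw [← hz] at h1
    exact h1

theorem rlOf {N : ℕ} {ρ : ℝ} (h : CorH c N ρ 0) : Rl (cbOf c).fb.q ⊥ := by
  apply Rl.of_ge
  rw [FB.vd_q, h_chain, Fintype.card_fin]
  have h1 := h.ht
  have h2 := h.hy
  rw [sub_zero] at h1 h2
  have h3 : Helper31.EC.h (QS.dg c.t 1) c.iA ≤ Helper31.EC.h (cbOf c).fb.iT ⊥ := h_anti bot_le
  have h4 : Helper31.EC.h (cbOf c).fb.iY ((cbOf c).fb.iT ⊔ ⊥) = Helper31.EC.h (QS.vd c.y 1) (QS.dg c.t 1) := by
    rw [sup_bot_eq]
    rfl
  rw [h4]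
  push_cast
  linarith

theorem unOf {N : ℕ} {ρ : ℝ} (h : CorH c N ρ 0) : UnS (cbOf c).fb.z ((cbOf c).fb.iT ⊔ (cbOf c).fb.iY) 0 ρ := by
  intro T p E hE a b ha hab hb
  have h1 := h.un T p E hE hE.le a b ha hab hb
  rw [add_zero, ← cbOf_z] at h1
  have h2 : c.iQ = (cbOf c).fb.iT ⊔ (cbOf c).fb.iY := sup_comm _ _
  rw [← h2]
  exact h1

theorem gpOf {N : ℕ} (hN : d ≤ N) {ρ : ℝ} (h : CorH c N ρ 0) : HasGP (cbOf c) := by
  obtain ⟨w, hw⟩ := h.st
  refine ⟨Fin (N + 1), inferInstance, w.W, w.p, ⟨fun i j a => ?_, fun i0 A => ?_⟩, ⟨⟨0⟩, fun i => ?_⟩⟩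
  · rw [cbOf_fQ]
    exact w.com i j a
  · rw [cbOf_fQ, w.p_vd i0 1]
    exact w.ind A
  · have hle : d + 1 ≤ N + 1 := by omega
    refine ⟨fun j => Equiv.swap 0 i (Fin.castLE hle j), ?_, ?_⟩
    · exact Equiv.swap_apply_left 0 i
    · apply big_unit
      exact hw _ ((Equiv.injective _).comp (Fin.castLE_injective hle))

/-- tame functions which represent a curved system, as a flat corner -/
def fcOf (tr : FTC S d k) : FC S d k :=
  ⟨QS.mk tr.t, fun i => QS.mk (tr.a i), fun i => QS.mk (tr.x i), QS.mk (tr.c 0), fun j => QS.mk (tr.c j.succ)⟩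

theorem cbOf_fcOf (tr : FTC S d k) : cbOf (fcOf tr) = tr.cb := by
  unfold cbOf fcOf FTC.cb
  congr 1
  funext j
  induction j using Fin.cases with
  | zero => rfl
  | succ j => rfl

/-- every flat corner is represented by tame functions -/
theorem exists_tr (c : FC S d k) : ∃ tr : FTC S d k, fcOf tr = c := by
  refine ⟨⟨rep c.t, fun i => rep (c.a i), fun i => rep (c.x i), Fin.cons (rep c.b) fun j => rep (c.C j)⟩, ?_⟩
  unfold fcOf
  have h1 : ∀ f : QS S, QS.mk (rep f) = f := mk_rep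
  simp only [Fin.cons_zero, Fin.cons_succ, h1]

/-- exact corners: hypotheses of the finite leaf statement -/
theorem tr_hyp {N : ℕ} (hN : d ≤ N) {ρ : ℝ} (tr : FTC S d k) (h : CorH (fcOf tr) N ρ 0) :
    tr.cb.Hyp ∧ Rl tr.cb.fb.q ⊥ ∧ UnS tr.cb.fb.z (tr.cb.fb.iT ⊔ tr.cb.fb.iY) 0 ρ ∧ HasGP tr.cb := by
  rw [← cbOf_fcOf]
  exact ⟨hypOf _ h, rlOf _ h, unOf _ h, gpOf _ hN h⟩

/-- potentials of stars give sheets -/
theorem sh_of {K : ℕ} (hP0 : CPOT (cbOf c) K) (hy : (cbOf c).Hyp) (hq : Rl (cbOf c).fb.q ⊥) {a0 c0 : ℝ}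
    (ha0 : a0 < 1) (hc0 : 0 < c0) (hu : UnS (cbOf c).fb.z ((cbOf c).fb.iT ⊔ (cbOf c).fb.iY) a0 c0)
    (hG : HasGP (cbOf c)) : Sh c K 0 0 := by
  classical
  set s := cbOf c with hs
  have hX : I s.fb.iX s.fb.iP ⊥ = 0 := hy.s1
  obtain ⟨ι, _, W0, p, hst0, hsp0⟩ := hG
  obtain ⟨W, w, ⟨Φ⟩⟩ := hP0 ι inferInstance W0 p hst0 hsp0
  have hst := hst0.pull w
  have hsp := hsp0.pull w
  have hfree := Φ.free hP0 hX hq hst hsp
  obtain ⟨i0⟩ := hsp.ne
  obtain ⟨p0, hp0⟩ : ∃ p0 : Pj W S, p0 = w.comp (p i0) := ⟨_, rfl⟩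
  refine ⟨W, p0, dg (Φ.g i0) 1, Φ.f + MvPolynomial.C (Φ.g i0), ?_, ?_, ?_, ?_, ?_⟩
  · exact (PK _).add_mem (PK_mono bot_le hfree) (C_mem le_rfl)
  · refine (MvPolynomial.totalDegree_add _ _).trans (max_le Φ.deg ?_)
    rw [MvPolynomial.totalDegree_C]
    exact Nat.zero_le _
  · -- the value is a function of the line
    obtain ⟨R, r1, r2, hc, hI, -⟩ := exists_copyS
      (Sum.elim (fun i => p0.qs (s.a i)) (Sum.elim (fun i => p0.qs (s.x i)) (fun j => p0.qs (s.c j))))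
    rw [vd_sum, vd_sum, p0.qs_vd, p0.qs_vd, p0.qs_vd] at hI
    have h1 := Φ.line_agree hy hq hst hsp hfree i0 ha0 hc0 hu r1 r2
      (fun j => by rw [← hp0]; exact hc (Sum.inl j)) (fun j => by rw [← hp0]; exact hc (Sum.inr (Sum.inl j)))
      (fun j => by rw [← hp0]; exact hc (Sum.inr (Sum.inr j)))
    have h2 : r1.map (dg (Φ.g i0) 1) = r2.map (dg (Φ.g i0) 1) := by
      rw [← r1.qs_dg, ← r2.qs_dg, h1.2]
    have h3 : r1.map (dg (Φ.g i0) 1) ≤
        r1.map (p0.map (vd s.a 1) ⊔ (p0.map (vd s.x 1) ⊔ p0.map (vd s.c 1))) := by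
      apply le_of_markov (A := r1.map (dg (Φ.g i0) 1)) (B := r2.map (dg (Φ.g i0) 1)) _ _ (hI _ _)
      · exact le_sup_left
      · rw [h2]
        exact le_sup_left
    have h4 := r1.map_le.mp h3
    have h5 : vd s.c 1 ≤ c.iL ⊔ (dg c.b 1 ⊔ c.iF) := by
      rw [vd_le]
      intro j
      induction j using Fin.cases with
      | zero =>
        show dg c.b 1 ≤ _
        order
      | succ j =>
        show dg (c.C j) 1 ≤ _
        have : dg (c.C j) 1 ≤ c.iF := dg_le_vd c.C 1 j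
        order
    have h6 : vd s.a 1 ⊔ vd s.x 1 ≤ c.iA := le_sup_left
    apply le_of_eq
    rw [h_eq_zero_iff]
    refine h4.trans ?_
    rw [← p0.map_sup, ← p0.map_sup]
    apply p0.map_mono
    unfold FC.iA
    unfold FC.iA at h6
    order
  · -- the value is independent of the base point
    have h1 := Φ.indep hy hst hsp hfree i0
    apply le_of_eq
    have h2 : p0.map c.iQ = vd (fun a => (w.comp (p i0)).qs (s.fb.q a)) 1 := by
      rw [← hp0, p0.qs_vd, FB.vd_q, sup_comm]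
      rfl
    rw [h2, I_comm]
    exact h1
  · have h1 : p0.qs c.z - MvPolynomial.eval (fun i => p0.qs (c.q i)) (Φ.f + MvPolynomial.C (Φ.g i0)) = 0 := by
      rw [map_add, MvPolynomial.eval_C]
      unfold CPot.g
      beta_reduce
      rw [← hp0, ← cbOf_z]
      show p0.qs s.fb.z - (MvPolynomial.eval (fun i => p0.qs (s.fb.q i)) Φ.f +
        (p0.qs s.fb.z - MvPolynomial.eval (fun i => p0.qs (s.fb.q i)) Φ.f)) = 0
      ring
    rw [h1]
    exact Ideal.zero_mem _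

/-- THE FLAT THEOREM for lines of degree `k` -/
theorem flat_K (d k N : ℕ) (hN : d ≤ N) : ST_FLAT d k (2 * k * (d + 1) + k) N := by
  intro S c ρ hρ h
  have hy := hypOf c h
  have hq := rlOf c h
  have hu := unOf c h
  exact sh_of c (cpot (cbOf c) (slo_K (cbOf c) hy hq hρ zero_lt_one hu) hy hq zero_lt_one hρ hu) hy hq zero_lt_one hρ
    hu (gpOf c hN h)

/-- THE FLAT THEOREM for straight lines -/
theorem flat_one (d N : ℕ) (hN : d ≤ N) : ST_FLAT d 1 (d + 2) N := by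
  intro S c ρ hρ h
  have hy := hypOf c h
  have hq := rlOf c h
  have hu := unOf c h
  exact sh_of c (cpot (cbOf c) (slo_one (cbOf c) hy hq hρ hu) hy hq zero_lt_one hρ hu) hy hq zero_lt_one hρ
    hu (gpOf c hN h)

end

end Pool.Agent.Helper50.CV
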