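import Pool.Agent.Helper31.EC.Sep

/-! Exact entropy calculus: coefficients of polynomials in a real variable do not depend on independent data. -/

set_option autoImplicit false

namespace Pool.Agent.Helper50.CV

open Pool.Agent.Helper31.EC QS

noncomputable section

/-- the coefficients are functions of the common base -/
theorem coeff_free {S : Sp} {k : ℕ} {ι : Type} [Fintype ι] (f : ι → QS S) (T : S.L) (Φ : Fin (k + 1) → QS S)
    (g s : QS S) (hΦ : vd Φ 1 ≤ vd f 1 ⊔ T) (hg : dg g 1 ≤ dg s 1 ⊔ vd f 1) (e : g = pe Φ s)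
    (hs : h (dg s 1) (vd f 1 ⊔ T) = 1) : vd Φ 1 ≤ vd f 1 := by
  classical
  have v1 : vd (Sum.elim Φ f) 1 = vd Φ 1 ⊔ vd f 1 := by
    apply le_antisymm
    · rw [vd_le]
      rintro (a | a)
      · exact (dg_le_vd Φ 1 a).trans le_sup_left
      · exact (dg_le_vd f 1 a).trans le_sup_right
    · apply sup_le
      · rw [vd_le]
        exact fun a => dg_le_vd (Sum.elim Φ f) 1 (Sum.inl a)
      · rw [vd_le]
        exact fun a => dg_le_vd (Sum.elim Φ f) 1 (Sum.inr a)
  obtain ⟨C⟩ := exists_CQ (Sum.elim Φ f) (k + 1)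
  have cΦ : ∀ i a, (C.p i).qs (Φ a) = (C.p 0).qs (Φ a) := fun i a => C.com i 0 (Sum.inl a)
  have cf : ∀ i a, (C.p i).qs (f a) = (C.p 0).qs (f a) := fun i a => C.com i 0 (Sum.inr a)
  have cfv : ∀ i, (C.p i).map (vd f 1) = (C.p 0).map (vd f 1) := by
    intro i
    rw [← Pj.qs_vd, ← Pj.qs_vd]
    congr 1
    funext a
    exact cf i a
  have hs1 : h (dg s 1) (vd (Sum.elim Φ f) 1) = 1 := by
    apply le_antisymm (h_dg_le_one _ _)
    refine hs.ge.trans (h_anti ?_)
    rw [v1]
    exact sup_le hΦ le_sup_left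
  have r1 := C.rl_one s hs1
  obtain ⟨X, hX⟩ : ∃ X : Fin (k + 1) → QS C.W, X = fun i => (C.p i.succ).qs s := ⟨_, rfl⟩
  have r2 : Rl X C.v := by
    rw [hX]
    exact r1.comp Fin.succ (Fin.succ_injective _)
  have uX : IsUnit (Matrix.vandermonde X).det := r2.isUnit_vandermonde
  obtain ⟨F, hF⟩ : ∃ F, F = (C.p 0).map (vd f 1) := ⟨_, rfl⟩
  have hv : C.v = (C.p 0).map (vd Φ 1) ⊔ F := by
    show (C.p 0).map (vd (Sum.elim Φ f) 1) = _
    rw [v1, Pj.map_sup, hF]
  -- the coefficients from the copies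
  have k1 : ∀ a, dg ((C.p 0).qs (Φ a)) 1 ≤ vd X 1 ⊔ F := by
    have e1 : ∀ i : Fin (k + 1), (C.p i.succ).qs g = (Matrix.vandermonde X).mulVec (fun a => (C.p 0).qs (Φ a)) i := by
      intro i
      rw [← pe_eq_mulVec, e, pe_map, hX]
      have h4 : (fun a => (C.p i.succ).qs (Φ a)) = fun a => (C.p 0).qs (Φ a) := by
        funext a
        exact cΦ _ a
      rw [h4]
    have e2 : (fun a => (C.p 0).qs (Φ a)) = (Matrix.vandermonde X)⁻¹.mulVec (fun i => (C.p i.succ).qs g) := by
      have e3 : (fun i : Fin (k + 1) => (C.p i.succ).qs g) =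
          (Matrix.vandermonde X).mulVec (fun a => (C.p 0).qs (Φ a)) := funext e1
      rw [e3, Matrix.mulVec_mulVec, Matrix.nonsing_inv_mul _ uX, Matrix.one_mulVec]
    intro a
    have e4 := congrFun e2 a
    rw [e4]
    show dg (∑ i, (Matrix.vandermonde X)⁻¹ a i * (C.p i.succ).qs g) 1 ≤ _
    apply (Kn C.W 1 le_rfl _).sum_mem
    intro i _
    apply (Kn C.W 1 le_rfl _).mul_mem
    · apply inv_mem _ le_rfl _ _ uX
      intro i j
      rw [Matrix.vandermonde_apply]
      exact (Kn C.W 1 le_rfl (vd X 1 ⊔ F)).pow_mem (x := X i) ((dg_le_vd X 1 i).trans le_sup_left) _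
    · rw [mem_Kn, (C.p i.succ).qs_dg]
      refine ((C.p i.succ).map_mono hg).trans ?_
      rw [Pj.map_sup, cfv, ← (C.p i.succ).qs_dg, ← hF]
      apply sup_le_sup_right
      have := dg_le_vd X 1 i
      rw [hX] at this ⊢
      exact this
  have k2 : ∀ a, dg ((C.p 0).qs (Φ a)) 1 ≤ (C.p 0).map T ⊔ F := by
    intro a
    rw [(C.p 0).qs_dg, hF, ← Pj.map_sup]
    apply (C.p 0).map_mono
    refine (dg_le_vd Φ 1 a).trans (hΦ.trans ?_)
    rw [sup_comm]
  have hI : I (vd X 1) ((C.p 0).map T) F = 0 := by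
    have h1 : I (vd X 1) ((C.p 0).map T) C.v = 0 := by
      have h2 := C.I_sup (s := Finset.univ.erase 0) (t := {0}) (by simp) (fun l => if l = 0 then T else dg s 1)
      refine I_zero_mono h2 ?_ ?_
      · refine le_trans ?_ le_sup_left
        rw [vd_le]
        intro i
        have h3 := Finset.le_sup (f := fun i => (C.p i).map (if i = 0 then T else dg s 1))
          (Finset.mem_erase.mpr ⟨Fin.succ_ne_zero i, Finset.mem_univ _⟩ : i.succ ∈ Finset.univ.erase (0 : Fin (k + 1 + 1)))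
        rw [if_neg (Fin.succ_ne_zero i)] at h3
        rw [hX]
        show dg ((C.p i.succ).qs s) 1 ≤ _
        rw [(C.p i.succ).qs_dg]
        exact h3
      · refine le_trans ?_ le_sup_left
        rw [Finset.sup_singleton, if_pos rfl]
    apply le_antisymm _ (I_nonneg _ _ _)
    rw [I_eq]
    have h2 := I_zero_iff_h.mp h1
    have h3 : h (vd X 1) ((C.p 0).map T ⊔ C.v) ≤ h (vd X 1) ((C.p 0).map T ⊔ F) := by
      apply h_anti
      apply sup_le_sup_left
      rw [hv]
      exact le_sup_right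
    have h4 : h (vd X 1) C.v = Fintype.card (Fin (k + 1)) := r2
    have h5 := h_sd_le X Finset.univ F
    rw [sd_univ, Finset.card_univ] at h5
    linarith
  rw [vd_le]
  intro a
  have h1 := le_of_markov (k1 a) (k2 a) hI
  rw [(C.p 0).qs_dg, hF] at h1
  exact (C.p 0).map_le.mp h1

end

end Pool.Agent.Helper50.CV
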