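import Pool.Agent.Helper50.CV.CbR
import Pool.Agent.Helper50.CV.Fre
import Pool.Agent.Helper38.NS.HW
import Pool.Agent.Helper61.EC.GK

/-! Exact entropy calculus: statement (H1_k): along every other line of a bush the increment of the top coordinate of
a curved line is a polynomial in the height. -/

set_option autoImplicit false

namespace Pool.Agent.Helper50.CV

open Pool.Agent.Helper31.EC QS Pool.Agent.Helper38.NS

noncomputable section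

namespace CB

variable {S : Sp} {d k : ℕ}

namespace Rct

variable {s : CB S d k} {w : s.fb.Star} {v : Zed w} (g : Rct v)

theorem un_b0 (hs : s.Hyp) {a0 c : ℝ} (hu : UnS s.fb.z (s.fb.iY ⊔ s.fb.iT) a0 c) : UnS g.b0 g.B a0 c := by
  have h1 := ((hu.pull w.p2).pull v.q1).pull g.s1
  have e1 : g.s1.map (v.q1.map (w.p2.map (s.fb.iY ⊔ s.fb.iT))) ≤ g.B := by
    have h2 : g.s1.map (v.q1.map (w.p2.map (s.fb.iY ⊔ s.fb.iT))) ≤
        g.s1.map (v.q1.map (w.p2.map (s.fb.iL ⊔ s.fb.iT))) :=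
      g.s1.map_mono (v.q1.map_mono (w.p2.map_mono (sup_le s.fb.iY_le le_sup_right)))
    refine h2.trans ?_
    rw [w.p2.map_sup, v.q1.map_sup, g.s1.map_sup, w.eT]
    have hB : g.B = g.L ⊔ g.U ⊔ g.T0 := rfl
    have h3 : g.s1.map (v.q1.map (w.p2.map s.fb.iL)) = g.L := rfl
    have h4 : g.s1.map (v.q1.map (w.p1.map s.fb.iT)) = g.T0 := rfl
    rw [h3, h4]
    order
  have h5 := h1.mono e1
  have e2 : g.b0 = g.s1.qs (v.q1.qs (w.p2.qs s.fb.z)) + -(∑ j, g.cx0 j * g.t0 ^ ((j : ℕ) + 1)) := by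
    rw [s.z_eq, pe_map, pe_map, pe_map, pe_succ]
    have h6 : w.p2.qs s.t = w.p1.qs s.t := w.ct.symm
    rw [h6]
    have u1 : g.s1.qs (v.q1.qs (w.p2.qs (s.c 0))) = g.b0 := rfl
    have u3 : g.s1.qs (v.q1.qs (w.p1.qs s.t)) = g.t0 := rfl
    have u7 : ∀ j : Fin k, g.s1.qs (v.q1.qs (w.p2.qs (s.c j.succ))) = g.cx0 j := fun _ => rfl
    simp only [u1, u3, u7]
    ring
  rw [e2]
  refine UnS.shift ?_ h5
  have hB : g.B = g.L ⊔ g.U ⊔ g.T0 := rfl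
  have kt0 : g.t0 ∈ Kn g.D 1 le_rfl g.B := by
    rw [mem_Kn, ← g.T0_eq]
    order
  refine (Kn g.D 1 le_rfl g.B).neg_mem ((Kn g.D 1 le_rfl g.B).sum_mem fun j _ =>
    (Kn g.D 1 le_rfl g.B).mul_mem ?_ ((Kn g.D 1 le_rfl g.B).pow_mem kt0 _))
  rw [mem_Kn]
  have a1 := g.lcx0 hs j
  order

end Rct

/-- (H1_k) for the Taylor coefficients -/
theorem H1T (hk : 0 < k) (s : CB S d k) (hs : s.Hyp) {a0 c : ℝ} (hc : 0 < c) (ha : a0 < 1)
    (hu : UnS s.fb.z (s.fb.iY ⊔ s.fb.iT) a0 c) (w : s.fb.Star) :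
    ∃ (E : Sp) (p : Pj E w.D) (Φ : Fin k → Fin (k + 1) → QS E),
      (∀ i, vd (Φ i) 1 ≤ p.map (w.p2.map s.fb.iL ⊔ w.p1.map s.fb.iX)) ∧
      ∀ i, p.qs (tay (fun j : Fin k => w.p1.qs (s.c j.succ)) (w.p1.qs s.t) i) = pe (Φ i) (p.qs (w.p1.qs s.t)) := by
  obtain ⟨v⟩ := exists_zed hs w
  obtain ⟨g⟩ := exists_rct hs v
  have un : Helper61.EC.Uns g.blk.z g.blk.B := by
    rw [g.blk_B hs]
    exact Helper61.EC.uns_of hc ha (g.un_b0 hs hu)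
  obtain ⟨W, p, Φ, h1, h2⟩ := Bk.rigid (g.blk_ok hs) hk g.t1 g.tau g.A g.C rfl rfl
    (by rw [g.blk_B hs]; exact g.ht1 hs) (by rw [g.blk_B hs]; exact g.htau hs) un
  rw [g.blk_B hs] at h1
  have hBd : g.B = g.L ⊔ g.U ⊔ g.T0 := rfl
  -- the base `(L, U)` is a family
  have hLU : vd (fun i => p.qs (g.fB (Sum.inl i))) 1 = p.map (g.L ⊔ g.U) := by
    rw [p.qs_vd, g.LU_eq]
  have h3 : ∀ i, vd (Φ i) 1 ≤ p.map (g.L ⊔ g.U) := by
    intro i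
    rw [← hLU]
    refine coeff_free (fun i => p.qs (g.fB (Sum.inl i))) (p.map g.T0) (Φ i) (p.qs (g.A i)) (p.qs g.t1) ?_ ?_ (h2 i) ?_
    · rw [hLU, ← p.map_sup, ← hBd]
      exact h1 i
    · rw [hLU, p.qs_dg, p.qs_dg, ← p.map_sup]
      apply p.map_mono
      have a1 := g.A_le hs i
      have a0 := g.T1_eq
      order
    · rw [hLU, p.qs_dg, ← p.map_sup, ← hBd, p.h_map]
      exact g.ht1 hs
  have eLp : ((p.comp g.s2).comp v.q1).map (w.p2.map s.fb.iL ⊔ w.p1.map s.fb.iX) = p.map (g.L ⊔ g.U) := by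
    rw [Pj.comp_map, Pj.comp_map, v.q1.map_sup, g.s2.map_sup, g.eL]
    have h4 : g.s2.map (v.q1.map (w.p1.map s.fb.iX)) = g.U := g.eU
    rw [h4]
  refine ⟨W, (p.comp g.s2).comp v.q1, Φ, ?_, ?_⟩
  · intro i
    rw [eLp]
    exact h3 i
  · intro i
    rw [Pj.comp_qs, Pj.comp_qs, Pj.comp_qs, Pj.comp_qs]
    have h4 : g.s2.qs (v.q1.qs (tay (fun j : Fin k => w.p1.qs (s.c j.succ)) (w.p1.qs s.t) i)) = g.A i := by
      rw [tay_map, tay_map]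
      rfl
    rw [h4]
    exact h2 i

/-- (H1_k) for the increment of the top coordinate -/
theorem H1K (hk : 0 < k) (s : CB S d k) (hs : s.Hyp) {a0 c : ℝ} (hc : 0 < c) (ha : a0 < 1)
    (hu : UnS s.fb.z (s.fb.iY ⊔ s.fb.iT) a0 c) (w : s.fb.Star) :
    ∃ (E : Sp) (p : Pj E w.D) (Ψ : Fin (2 * k + 1) → QS E),
      vd Ψ 1 ≤ p.map (w.p2.map s.fb.iL ⊔ w.p1.map s.fb.iX) ∧
      p.qs (w.p1.qs (s.fb.z - s.fb.b)) = pe Ψ (p.qs (w.p1.qs s.t)) := by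
  obtain ⟨E, p, Φ, h1, h2⟩ := H1T hk s hs hc ha hu w
  refine ⟨E, p, fun m => ∑ i : Fin k, ∑ a : Fin (k + 1), if (a : ℕ) + i + 1 = m then (-1) ^ (i : ℕ) * Φ i a else 0,
    ?_, ?_⟩
  · rw [vd_le]
    intro m
    refine (Kn E 1 le_rfl _).sum_mem fun i _ => (Kn E 1 le_rfl _).sum_mem fun a _ => ?_
    split_ifs
    · exact (Kn E 1 le_rfl _).mul_mem ((Kn E 1 le_rfl _).pow_mem ((Kn E 1 le_rfl _).neg_mem
        (Kn E 1 le_rfl _).one_mem) _) ((dg_le_vd (Φ i) 1 a).trans (h1 i))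
    · exact (Kn E 1 le_rfl _).zero_mem
  · have e1 : s.fb.z - s.fb.b = ∑ j : Fin k, s.c j.succ * s.t ^ ((j : ℕ) + 1) := by
      rw [s.z_eq, Rct.pe_succ]
      have h3 : s.fb.b = s.c 0 := rfl
      rw [h3]
      ring
    have e2 : p.qs (w.p1.qs (s.fb.z - s.fb.b)) = p.qs (∑ j : Fin k, w.p1.qs (s.c j.succ) *
        (w.p1.qs s.t) ^ ((j : ℕ) + 1)) := by
      rw [e1, map_sum]
      congr 1
      apply Finset.sum_congr rfl
      intro j _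
      rw [map_mul, map_pow]
    rw [e2, tay_zero, map_sum]
    unfold pe
    rw [← collect]
    apply Finset.sum_congr rfl
    intro i _
    rw [map_mul, h2 i, map_mul, map_pow, map_pow, map_neg, map_one]
    rfl

/-- (H1_k) for the coefficients -/
theorem H1C (hk : 0 < k) (s : CB S d k) (hs : s.Hyp) {a0 c : ℝ} (hc : 0 < c) (ha : a0 < 1)
    (hu : UnS s.fb.z (s.fb.iY ⊔ s.fb.iT) a0 c) (w : s.fb.Star) :
    ∃ (E : Sp) (p : Pj E w.D) (Ψ : Fin k → Fin (2 * k + 1) → QS E),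
      (∀ m, vd (Ψ m) 1 ≤ p.map (w.p2.map s.fb.iL ⊔ w.p1.map s.fb.iX)) ∧
      ∀ m, p.qs (w.p1.qs (s.c m.succ)) = pe (Ψ m) (p.qs (w.p1.qs s.t)) := by
  obtain ⟨E, p, Φ, h1, h2⟩ := H1T hk s hs hc ha hu w
  refine ⟨E, p, fun m n => ∑ l : Fin k, ∑ a : Fin (k + 1), if (l : ℕ) - m + a = n then
        ((((l : ℕ) + 1).choose ((m : ℕ) + 1) : ℕ) : QS E) * (-1) ^ ((l : ℕ) - m) * Φ l a else 0, ?_, ?_⟩
  · intro m
    rw [vd_le]
    intro n
    refine (Kn E 1 le_rfl _).sum_mem fun l _ => (Kn E 1 le_rfl _).sum_mem fun a _ => ?_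
    split_ifs
    · exact (Kn E 1 le_rfl _).mul_mem ((Kn E 1 le_rfl _).mul_mem (natCast_mem (Kn E 1 le_rfl _) _)
        ((Kn E 1 le_rfl _).pow_mem ((Kn E 1 le_rfl _).neg_mem (Kn E 1 le_rfl _).one_mem) _))
        ((dg_le_vd (Φ l) 1 a).trans (h1 l))
    · exact (Kn E 1 le_rfl _).zero_mem
  · intro m
    have e1 := tay_tay (fun j : Fin k => w.p1.qs (s.c j.succ)) (w.p1.qs s.t) m
    rw [← e1]
    have e2 : p.qs (tay (tay (fun j : Fin k => w.p1.qs (s.c j.succ)) (w.p1.qs s.t)) (-w.p1.qs s.t) m) =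
        ∑ l : Fin k, ((((l : ℕ) + 1).choose ((m : ℕ) + 1) : ℕ) : QS E) * (-p.qs (w.p1.qs s.t)) ^ ((l : ℕ) - m) *
          ∑ a : Fin (k + 1), Φ l a * p.qs (w.p1.qs s.t) ^ (a : ℕ) := by
      rw [tay_map]
      show ∑ l : Fin k, ((((l : ℕ) + 1).choose ((m : ℕ) + 1) : ℕ) : QS E) * (p.qs (-w.p1.qs s.t)) ^ ((l : ℕ) - m) *
          p.qs (tay (fun j : Fin k => w.p1.qs (s.c j.succ)) (w.p1.qs s.t) l) = _
      apply Finset.sum_congr rfl
      intro l _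
      rw [h2 l, map_neg]
      rfl
    rw [e2]
    unfold pe
    exact collect2 Φ _ m

end CB

end

end Pool.Agent.Helper50.CV
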