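import Pool.Agent.Helper50.CV.Few

/-! Exact entropy calculus: roots of known polynomials with separated roots are known. -/

set_option autoImplicit false

namespace Pool.Agent.Helper50.CV

open Finset Filter Topology Pool.Agent.Helper69.RK Pool.Agent.Helper31.EC

noncomputable section

open Sp

variable {S : Sp}

theorem sub_sum {ι : Type} (s : Finset ι) (K : ι → ℕ → ℝ) (h : ∀ i ∈ s, S.Sub (K i)) :
    S.Sub (fun k => ∑ i ∈ s, K i k) := by
  classical
  induction s using Finset.induction_on with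
  | empty =>
    simp only [Finset.sum_empty]
    exact S.Sub_const le_rfl
  | insert a s ha ih =>
    have h1 := (h a (Finset.mem_insert_self a s)).add (ih fun i hi => h i (Finset.mem_insert_of_mem hi))
    have h2 : (fun k => ∑ i ∈ insert a s, K i k) = fun k => K a k + ∑ i ∈ s, K i k := by
      funext k
      rw [Finset.sum_insert ha]
    rw [h2]
    exact h1

theorem sub_pow {K : ℕ → ℝ} (hK : S.Sub K) (n : ℕ) : S.Sub (fun k => K k ^ n) := by
  induction n with
  | zero =>
    simp only [pow_zero]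
    exact S.Sub_const zero_le_one
  | succ n ih =>
    simp only [pow_succ]
    exact ih.mul hK

theorem typ_fin {ι : Type} (s : Finset ι) (E : ι → ∀ k, (S.F k).Ω → Prop) (h : ∀ i ∈ s, Typ (E i)) :
    Typ (fun k ω => ∀ i ∈ s, E i k ω) := by
  classical
  induction s using Finset.induction_on with
  | empty =>
    apply Typ_true.mono
    exact Eventually.of_forall fun k ω _ _ i hi => absurd hi (Finset.notMem_empty i)
  | insert a s ha ih =>
    have h1 := (h a (Finset.mem_insert_self a s)).and (ih fun i hi => h i (Finset.mem_insert_of_mem hi))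
    apply h1.mono
    refine Eventually.of_forall fun k ω _ hω i hi => ?_
    rcases Finset.mem_insert.mp hi with rfl | hi
    · exact hω.1
    · exact hω.2 i hi

/-- ROOTS: a root of a polynomial with separated roots is known if the roots are known -/
theorem root_known {n : ℕ} (hn : 0 < n) (y : QS S) (x : Fin n → QS S)
    (hu : ∀ i j, i ≠ j → IsUnit (x i - x j)) (hp : ∏ i, (y - x i) = 0) : QS.dg y 1 ≤ QS.vd x 1 := by
  classical
  have : Nonempty (Fin n) := ⟨⟨0, hn⟩⟩
  obtain ⟨f, rfl⟩ := QS.mk_surj y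
  choose g hg using fun i => QS.mk_surj (x i)
  obtain rfl : (fun i => QS.mk (g i)) = x := funext hg
  beta_reduce at hu hp
  have h0 : TR.Ag 1 (∏ i, (f - g i)) 0 := by
    rw [← QS.mk_eq, map_prod, map_zero]
    simp only [map_sub]
    exact hp
  obtain ⟨E0, K0, hE0, hK0, hh0⟩ := h0
  have h1 : ∀ p : Fin n × Fin n, ∃ K : ℕ → ℝ, S.Sub K ∧
      Typ (fun k ω => p.1 ≠ p.2 → 1 ≤ K k * |TR.ev (g p.1 - g p.2) k ω|) := by
    intro p
    by_cases h : p.1 = p.2
    · refine ⟨fun _ => 0, S.Sub_const le_rfl, ?_⟩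
      apply Typ_true.mono
      exact Eventually.of_forall fun k ω _ _ h' => absurd h h'
    · obtain ⟨K, hK, hT⟩ := QS.isUnit_mk.mp (by
        rw [map_sub]
        exact hu p.1 p.2 h : IsUnit (QS.mk (g p.1 - g p.2)))
      refine ⟨K, hK, ?_⟩
      apply hT.mono
      exact Eventually.of_forall fun k ω _ h2 _ => h2
  choose K1 hK1 hT1 using h1
  set K : ℕ → ℝ := fun k => (∑ p ∈ Finset.univ, K1 p k) + 1 with hKdef
  have hK : S.Sub K := (sub_sum Finset.univ K1 fun p _ => hK1 p).add (S.Sub_const zero_le_one)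
  have hT : Typ (fun k ω => ∀ p ∈ (Finset.univ : Finset (Fin n × Fin n)), p.1 ≠ p.2 →
      1 ≤ K1 p k * |TR.ev (g p.1 - g p.2) k ω|) := typ_fin Finset.univ _ fun p _ => hT1 p
  have hpos : ∀ᶠ k in UF, ∀ p ∈ (Finset.univ : Finset (Fin n × Fin n)), 0 ≤ K1 p k := by
    rw [Filter.eventually_all_finset]
    intro p _
    exact (hK1 p).1
  -- the index of the closest root
  set B : ℕ → ℝ := fun k => (2 * K k) ^ n * (K0 k * S.dl 1 k) with hB
  set ix : ∀ k, (S.F k).Ω → Fin n := fun k ω =>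
    if h : ∃ i, |TR.ev f k ω - TR.ev (g i) k ω| ≤ B k then h.choose else ⟨0, hn⟩ with hix
  obtain ⟨hb, hio⟩ := io_few ix (fun _ => Finset.univ) n (Eventually.of_forall fun _ _ _ => Finset.mem_univ _)
    (Eventually.of_forall fun _ => by rw [Finset.card_univ, Fintype.card_fin])
  have hcl : Bdd ((TR.vec g).cellv 1) := (TR.vec g).bdd 1
  have hmain : (TR.vec (fun _ : Fin 1 => f)).dg 1 ≤ io (fun k ω => ((TR.vec g).cellv 1 k ω, ix k ω)) := by
    apply VV.dg_le_io _ 1 (hcl.pair hb) (fun k ω => E0 k ω ∧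
        ∀ p ∈ (Finset.univ : Finset (Fin n × Fin n)), p.1 ≠ p.2 → 1 ≤ K1 p k * |TR.ev (g p.1 - g p.2) k ω|)
        (hE0.and hT) (fun k => 2 * ((2 * K k) ^ n * K0 k) + 1)
        (((S.Sub_const (show (0 : ℝ) ≤ 2 by norm_num)).mul
          ((sub_pow ((S.Sub_const (show (0 : ℝ) ≤ 2 by norm_num)).mul hK) n).mul hK0)).add
          (S.Sub_const zero_le_one))
    filter_upwards [hh0, hpos, hK0.1] with k hk hk1 hk0 ω ω' a b e e' _ hX i
    rw [Prod.mk.injEq] at hX
    have hKk : 1 ≤ K k := by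
      show 1 ≤ (∑ p ∈ Finset.univ, K1 p k) + 1
      have := Finset.sum_nonneg hk1
      linarith
    have key : ∀ ω : (S.F k).Ω, (S.F k).μ ω ≠ 0 → (E0 k ω ∧
        ∀ p ∈ (Finset.univ : Finset (Fin n × Fin n)), p.1 ≠ p.2 → 1 ≤ K1 p k * |TR.ev (g p.1 - g p.2) k ω|) →
        |TR.ev f k ω - TR.ev (g (ix k ω)) k ω| ≤ B k := by
      intro ω a e
      have hex : ∃ i, |TR.ev f k ω - TR.ev (g i) k ω| ≤ B k := by
        apply near_root (TR.ev f k ω) (fun i => TR.ev (g i) k ω) (K k) (K0 k * S.dl 1 k) hKk _ _ hn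
        · intro i j hij
          have h2 := e.2 (i, j) (Finset.mem_univ _) hij
          refine h2.trans (mul_le_mul_of_nonneg_right ?_ (abs_nonneg _))
          have h3 := Finset.single_le_sum hk1 (Finset.mem_univ (i, j))
          show K1 (i, j) k ≤ (∑ p ∈ Finset.univ, K1 p k) + 1
          linarith
        · have h2 := hk ω a e.1
          have h3 : TR.ev (∏ i, (f - g i)) k ω = ∏ i, (TR.ev f k ω - TR.ev (g i) k ω) := by
            have h4 := map_prod (TR.evh k ω) (fun i => f - g i) Finset.univ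
            rw [TR.evh_apply] at h4
            rw [h4]
            rfl
          rw [h3, TR.ev_zero, sub_zero] at h2
          exact h2
      show |TR.ev f k ω - TR.ev (g (if h : ∃ i, |TR.ev f k ω - TR.ev (g i) k ω| ≤ B k then h.choose
        else ⟨0, hn⟩)) k ω| ≤ B k
      rw [dif_pos hex]
      exact hex.choose_spec
    have c1 := key ω a e
    have c2 := key ω' b e'
    have c3 : |(TR.vec g).v k ω (ix k ω) - (TR.vec g).v k ω' (ix k ω)| ≤ S.dl 1 k :=
      (TR.vec g).cellv_close 1 k ω ω' hX.1 (ix k ω)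
    rw [← hX.2] at c2
    have c4 : (TR.vec g).v k ω (ix k ω) = TR.ev (g (ix k ω)) k ω := rfl
    have c5 : (TR.vec g).v k ω' (ix k ω) = TR.ev (g (ix k ω)) k ω' := rfl
    rw [c4, c5] at c3
    show |TR.ev f k ω - TR.ev f k ω'| ≤ (2 * ((2 * K k) ^ n * K0 k) + 1) * S.dl 1 k
    have c6 : B k = (2 * K k) ^ n * K0 k * S.dl 1 k := by
      show (2 * K k) ^ n * (K0 k * S.dl 1 k) = _
      ring
    rw [c6] at c1 c2
    rw [abs_le] at c1 c2 c3 ⊢
    constructor <;> linarith [c1.1, c1.2, c2.1, c2.2, c3.1, c3.2]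
  rw [io_pair hcl hb, hio, sup_bot_eq] at hmain
  rw [QS.dg_mk f le_rfl]
  refine le_trans hmain ?_
  show (TR.vec g).dg 1 ≤ _
  apply TR.vec_dg_le
  intro i
  rw [← QS.dg_mk (g i) le_rfl]
  exact QS.dg_le_vd (fun i => QS.mk (g i)) 1 i

end

end Pool.Agent.Helper50.CV
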