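import Pool.Agent.Helper50.CV.HK
import Pool.Agent.Helper38.NS.Slo
import Pool.Agent.Helper99.EC.Star

/-! Exact entropy calculus: the coefficients of the curved lines of a star are polynomials in the base point, with
coefficients which are functions of the directions. -/

set_option autoImplicit false

namespace Pool.Agent.Helper50.CV

open Pool.Agent.Helper31.EC QS Pool.Agent.Helper38.NS

noncomputable section

/-- a function which is weakly polynomial along all lines of a frame is a polynomial -/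
theorem poly_slopeK {W : Sp} {d K : ℕ} {ι : Type} [Fintype ι] (U : ι → QS W)
    (M : Matrix (Fin (d + 1)) (Fin (d + 1)) (QS W)) (hM : ∀ i j, dg (M i j) 1 ≤ vd U 1)
    (h0 : ∀ i, M i 0 = 1) (hdet : IsUnit M.det) (q : Fin (d + 1) → QS W) (hq : Rl q (vd U 1))
    (F : QS W) (hF : ∀ j, ∃ Φ : Fin (K + 1) → QS W, F = pe Φ (q 0) ∧
      vd Φ 1 ≤ vd (fun k => q k - q 0 * M j k) 1 ⊔ vd U 1) :
    ∃ (E : Sp) (p : Pj E W) (P : MvPolynomial (Fin (d + 1)) (QS E)), P ∈ PK (p.map (vd U 1)) ∧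
      P.totalDegree ≤ K * (d + 1) ∧ p.qs F = MvPolynomial.eval (fun j => p.qs (q j)) P := by
  classical
  have hinv : ∀ i j, dg (M⁻¹ i j) 1 ≤ vd U 1 := inv_mem M le_rfl _ hM hdet
  obtain ⟨σ, hσ⟩ : ∃ σ : Fin (d + 1) → QS W, ∀ i, σ i = ∑ j, M⁻¹ j i * q j :=
    ⟨_, fun _ => rfl⟩
  have e1 : ∀ j, q j = ∑ i, σ i * M i j := by
    intro j
    have h1 : ∀ i, σ i * M i j = ∑ l, q l * (M⁻¹ l i * M i j) := by
      intro i
      rw [hσ, Finset.sum_mul]
      exact Finset.sum_congr rfl fun l _ => by ring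
    rw [Finset.sum_congr rfl fun i _ => h1 i, Finset.sum_comm]
    have h2 : ∀ l, ∑ i, q l * (M⁻¹ l i * M i j) = if l = j then q l else 0 := by
      intro l
      rw [← Finset.mul_sum]
      have h3 : ∑ i, M⁻¹ l i * M i j = (M⁻¹ * M) l j := (Matrix.mul_apply).symm
      rw [h3, Matrix.nonsing_inv_mul _ hdet, Matrix.one_apply, mul_ite, mul_one, mul_zero]
    rw [Finset.sum_congr rfl fun l _ => h2 l, Finset.sum_ite_eq', if_pos (Finset.mem_univ _)]
  have e0 : ∀ j, q 0 = σ j + ∑ i ∈ Finset.univ.erase j, σ i := by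
    intro j
    rw [Finset.add_sum_erase _ _ (Finset.mem_univ j), e1 0]
    exact Finset.sum_congr rfl fun i _ => by rw [h0, mul_one]
  -- the base line
  have eL : ∀ j, vd (fun k => q k - q 0 * M j k) 1 ≤ sd σ (Finset.univ.erase j) ⊔ vd U 1 := by
    intro j
    rw [vd_le]
    intro k
    have h1 : q k - q 0 * M j k = ∑ i ∈ Finset.univ.erase j, σ i * (M i k - M j k) := by
      have h2 : q k - q 0 * M j k = ∑ i, σ i * (M i k - M j k) := by
        have h3 : q 0 * M j k = ∑ i, σ i * M j k := by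
          rw [e1 0, Finset.sum_mul]
          exact Finset.sum_congr rfl fun i _ => by rw [h0, mul_one]
        rw [h3, e1 k, ← Finset.sum_sub_distrib]
        exact Finset.sum_congr rfl fun i _ => by ring
      rw [h2, ← Finset.add_sum_erase _ _ (Finset.mem_univ j), sub_self, mul_zero, zero_add]
    beta_reduce
    rw [h1]
    apply (Kn W 1 le_rfl _).sum_mem
    intro i hi
    apply (Kn W 1 le_rfl _).mul_mem
    · exact (dg_le_sd σ hi).trans le_sup_left
    · exact (Kn W 1 le_rfl _).sub_mem ((hM i k).trans le_sup_right) ((hM j k).trans le_sup_right)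
  have a1 : vd σ 1 ≤ vd q 1 ⊔ vd U 1 := by
    rw [vd_le]
    intro i
    rw [hσ]
    apply (Kn W 1 le_rfl _).sum_mem
    intro j _
    apply (Kn W 1 le_rfl _).mul_mem
    · exact (hinv j i).trans le_sup_right
    · exact (dg_le_vd q 1 j).trans le_sup_left
  have a2 : vd q 1 ≤ vd σ 1 ⊔ vd U 1 := by
    rw [vd_le]
    intro j
    rw [e1 j]
    apply (Kn W 1 le_rfl _).sum_mem
    intro i _
    apply (Kn W 1 le_rfl _).mul_mem
    · exact (dg_le_vd σ 1 i).trans le_sup_left
    · exact (hM i j).trans le_sup_right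
  have hσr : Rl σ (vd U 1) := by
    unfold Rl at hq ⊢
    rw [← hq]
    exact h_congr_left a1 a2
  have sdle : ∀ j, sd σ (Finset.univ.erase j) ≤ vd σ 1 := fun j => sd_mono σ (Finset.erase_subset _ _)
  have hG : ∀ j, ∃ G : Fin (K + 1) → QS W, vd G 1 ≤ sd σ (Finset.univ.erase j) ⊔ vd U 1 ∧
      F = pe G (σ j) := by
    intro j
    obtain ⟨Φ, h1, h2⟩ := hF j
    obtain ⟨ρ, hρ⟩ : ∃ ρ, ρ = ∑ i ∈ Finset.univ.erase j, σ i := ⟨_, rfl⟩
    have h3 : dg ρ 1 ≤ sd σ (Finset.univ.erase j) ⊔ vd U 1 := by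
      rw [hρ]
      apply (Kn W 1 le_rfl _).sum_mem
      intro i hi
      exact (dg_le_sd σ hi).trans le_sup_left
    have h4 : vd Φ 1 ≤ sd σ (Finset.univ.erase j) ⊔ vd U 1 := h2.trans (sup_le (eL j) le_sup_right)
    refine ⟨fun n => ∑ m : Fin (K + 1), Φ m * ((((m : ℕ).choose n : ℕ) : QS W) * ρ ^ ((m : ℕ) - n)), ?_, ?_⟩
    · rw [vd_le]
      intro n
      refine (Kn W 1 le_rfl _).sum_mem fun m _ => (Kn W 1 le_rfl _).mul_mem ((dg_le_vd Φ 1 m).trans h4)
        ((Kn W 1 le_rfl _).mul_mem (natCast_mem (Kn W 1 le_rfl _) _) ((Kn W 1 le_rfl _).pow_mem h3 _))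
    · rw [h1, e0 j, ← hρ]
      unfold pe
      have h5 : ∀ m : Fin (K + 1), (σ j + ρ) ^ (m : ℕ) = ∑ n : Fin (K + 1), σ j ^ (n : ℕ) *
          ((((m : ℕ).choose n : ℕ) : QS W) * ρ ^ ((m : ℕ) - n)) := by
        intro m
        rw [add_pow]
        have h6 : ∑ n : Fin (K + 1), σ j ^ (n : ℕ) * ((((m : ℕ).choose n : ℕ) : QS W) * ρ ^ ((m : ℕ) - n)) =
            ∑ n ∈ Finset.range (K + 1), σ j ^ n * ((((m : ℕ).choose n : ℕ) : QS W) * ρ ^ ((m : ℕ) - n)) :=
          Fin.sum_univ_eq_sum_range (fun n => σ j ^ n * ((((m : ℕ).choose n : ℕ) : QS W) * ρ ^ ((m : ℕ) - n))) (K + 1)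
        rw [h6]
        have h7 : Finset.range ((m : ℕ) + 1) ⊆ Finset.range (K + 1) := by
          intro i hi
          rw [Finset.mem_range] at hi ⊢
          have := m.2
          omega
        rw [← Finset.sum_subset h7]
        · apply Finset.sum_congr rfl
          intro n _
          ring
        · intro n _ hn
          rw [Finset.mem_range, not_lt] at hn
          rw [Nat.choose_eq_zero_of_lt (by omega)]
          simp
      rw [Finset.sum_congr rfl fun m _ => by rw [h5 m]]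
      simp only [Finset.mul_sum, Finset.sum_mul]
      rw [Finset.sum_comm]
      apply Finset.sum_congr rfl
      intro n _
      apply Finset.sum_congr rfl
      intro m _
      ring
  have hg : dg F 1 ≤ vd σ 1 ⊔ vd U 1 := by
    obtain ⟨G, h1, h2⟩ := hG 0
    rw [h2]
    unfold pe
    apply (Kn W 1 le_rfl _).sum_mem
    intro i _
    apply (Kn W 1 le_rfl _).mul_mem
    · exact ((dg_le_vd G 1 i).trans h1).trans (sup_le_sup_right (sdle 0) _)
    · exact (Kn W 1 le_rfl _).pow_mem ((dg_le_vd σ 1 0).trans le_sup_left) _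
  obtain ⟨E, p, P, h1, h2, h3⟩ := sep (k := K) (d + 1) U σ F hσr hg hG
  obtain ⟨R, r1, r2, r3⟩ := lin_sub (fun i j => p.qs (M⁻¹ j i)) (A := p.map (vd U 1))
    (fun i j => by rw [p.qs_dg]; exact p.map_mono (hinv j i)) h1
  refine ⟨E, p, R, r1, r2.trans h2, ?_⟩
  rw [r3, h3]
  congr 1
  have h4 : ∀ i, p.qs (σ i) = ∑ j, p.qs (M⁻¹ j i) * p.qs (q j) := by
    intro i
    rw [hσ, map_sum]
    exact Finset.sum_congr rfl fun j _ => by rw [map_mul]
  exact congrArg (fun g => MvPolynomial.eval g) (funext h4)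

end

end Pool.Agent.Helper50.CV
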